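import Mathlib

/-!
# MP_2b9fb5_al: the number of subsemigroups of the full transformation semigroup is 2^(o(n^n))
Definitions.
-/

namespace Pool.Agent.R341.SG

open Finset

noncomputable section

/-- image of a map -/
def im {n : ℕ} (f : Fin n → Fin n) : Finset (Fin n) := univ.image f

/-- rank -/
def rk {n : ℕ} (f : Fin n → Fin n) : ℕ := (im f).card

/-- number of singleton fibres -/
def sg {n : ℕ} (f : Fin n → Fin n) : ℕ := (univ.filter fun x => ∀ y, f y = f x → y = x).card

/-- maps obtained from the elements of `Y` by composition -/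
inductive Gen {n : ℕ} (Y : Finset (Fin n → Fin n)) : (Fin n → Fin n) → Prop
  | base (f : Fin n → Fin n) : f ∈ Y → Gen Y f
  | comp (f g : Fin n → Fin n) : Gen Y f → Gen Y g → Gen Y (f ∘ g)

/-- no element is a product of other elements -/
def Indep {n : ℕ} (X : Finset (Fin n → Fin n)) : Prop := ∀ f ∈ X, ¬ Gen (X.erase f) f

/-- maps with image `J` -/
def onto {n : ℕ} (J : Finset (Fin n)) : Finset (Fin n → Fin n) := univ.filter fun f => im f = J

/-- relative number of elements of `X` with image `J` -/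
def dn {n : ℕ} (X : Finset (Fin n → Fin n)) (J : Finset (Fin n)) : ℝ :=
  ((X.filter fun f => im f = J).card : ℝ) / ((onto J).card : ℝ)

/-- `I` can be mapped onto `I'` (both of size `r`) by products of elements of rank `> r` of `X` -/
def Reach {n : ℕ} (X : Finset (Fin n → Fin n)) (r : ℕ) (I I' : Finset (Fin n)) : Prop :=
  I = I' ∨ (I.card = r ∧ I'.card = r ∧ ∃ w, Gen (X.filter fun f => r < rk f) w ∧ I.image w = I')

/-- the constant `1 - 1/e` -/
def rho : ℝ := 1 - Real.exp (-1)

/-- product weight of a set -/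
def mu {n : ℕ} (A : Finset (Fin n)) : ℝ := rho ^ A.card * (1 - rho) ^ (n - A.card)

/-- weights of the three statuses: 0 = singleton, 1 = live, 2 = dead -/
def q (i : Fin 3) : ℝ :=
  if i = 0 then Real.exp (-1) else if i = 1 then 2 * (1 - 2 * Real.exp (-1)) else
    3 * Real.exp (-1) - 1

/-- product weight of a status vector -/
def wb {n : ℕ} (b : Fin n → Fin 3) : ℝ := ∏ x, q (b x)

/-- the elements of status `i` -/
def St {n : ℕ} (b : Fin n → Fin 3) (i : Fin 3) : Finset (Fin n) := univ.filter fun x => b x = i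

/-- the determined part of `A`, given the statuses and the set `Z` of exceptions -/
def bs {n : ℕ} (b : Fin n → Fin 3) (Z : Finset (Fin n)) : Finset (Fin n) :=
  (St b 0 \ Z) ∪ (St b 2 ∩ Z)

/-- `f` is compatible with the statuses `b` -/
def Compat {n : ℕ} (f : Fin n → Fin n) (b : Fin n → Fin 3) : Prop :=
  (∀ x, b x = 0 → ∀ y, f y = f x → y = x) ∧
  (∀ x, b x = 1 → ∃ y, y ≠ x ∧ b y = 1 ∧ f y = f x ∧ ∀ z, b z = 1 → f z = f x → z = x ∨ z = y)

/-- weights of statuses for maps, with drop parameter `k` -/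
structure IsWt (n k : ℕ) (wt : (Fin n → Fin n) → (Fin n → Fin 3) → ℝ) : Prop where
  nonneg : ∀ f b, 0 ≤ wt f b
  sum_le : ∀ f, ∑ b, wt f b ≤ 1
  sum_one : ∀ f, k ≤ sg f → k ≤ rk f - sg f → ∑ b, wt f b = 1
  equiv : ∀ f b (π : Equiv.Perm (Fin n)), wt (f ∘ π) (b ∘ π) = wt f b
  compat : ∀ f b, wt f b ≠ 0 → Compat f b
  singles : ∀ f b, wt f b ≠ 0 → (St b 0).card ≤ sg f ∧ sg f ≤ (St b 0).card + k
  live : ∀ f b, wt f b ≠ 0 → (St b 1).card ≤ 2 * (rk f - sg f) ∧
    2 * (rk f - sg f) ≤ (St b 1).card + 2 * k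
  spread : ∀ f (s l : ℕ),
    ∑ b ∈ univ.filter (fun b : Fin n → Fin 3 => (St b 0).card = s ∧ (St b 1).card = l), wt f b
      ≤ 1 / (k : ℝ) ^ 2

end

end Pool.Agent.R341.SG
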