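import Mathlib
import Pool.Agent.R341.SG.Defs

/-!
# MP_2b9fb5_al: statements of the independent pieces (see NOTES.md)
-/

namespace Pool.Agent.R341.SG

open Finset

noncomputable section

/-- SG-CNT: few independent sets, few subsemigroups. -/
def SCNT : Prop := ∀ c : ℝ, 1 < c →
  (∀ ε : ℝ, 0 < ε → ∃ n0 : ℕ, ∀ n : ℕ, n0 ≤ n → Even n → ∀ X : Finset (Fin n → Fin n), Indep X →
    (X.card : ℝ) ≤ ε * (n : ℝ) ^ n) →
  ∃ n0 : ℕ, ∀ n : ℕ, n0 ≤ n → Even n →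
    (Nat.card {S : Subsemigroup (Function.End (Fin n)) //
      (S : Set (Function.End (Fin n))).Nonempty} : ℝ) < c ^ (n ^ n)

/-- SG-PH: a mutually reachable family of rich sets is bounded. -/
def SPH : Prop := ∀ (n r : ℕ) (X : Finset (Fin n → Fin n)), Indep X → ∀ a0 : ℝ, 0 < a0 →
  ∀ U : Finset (Finset (Fin n)), (∀ I ∈ U, I.card = r ∧ a0 ≤ dn X I) →
  (∀ I ∈ U, ∀ I' ∈ U, Reach X r I I') → (U.card : ℝ) * a0 ≤ 1

/-- SG-ORD: an up-closed set of intermediate weight. -/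
def SORD : Prop := ∀ (V : Type) [Fintype V] [DecidableEq V] (R : V → V → Prop),
  (∀ x, R x x) → (∀ x y z, R x y → R y z → R x z) → ∀ (h : V → ℝ), (∀ x, 0 ≤ h x) →
  ∀ ω : ℝ, (∀ C : Finset V, (∀ x ∈ C, ∀ y ∈ C, R x y) → ∑ x ∈ C, h x ≤ ω) →
  6 * ω ≤ ∑ x, h x → 0 < ∑ x, h x →
  ∃ C : Finset V, (∀ x ∈ C, ∀ y, R x y → y ∈ C) ∧ (∑ x, h x) / 3 ≤ ∑ x ∈ C, h x ∧
    ∑ x ∈ C, h x ≤ 2 * (∑ x, h x) / 3

/-- SG-V: random subsets of a random subset. -/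
def SV : Prop := ∀ (n r rp j : ℕ) (J : Finset (Fin n)), J.card = j → r ≤ rp → rp ≤ j → r < j →
  ∀ (B : Finset (Finset (Fin n))) (y : ℝ), 0 < y →
  y * (j.choose r : ℝ) ≤ (((powersetCard r J).filter fun I => I ∈ B).card : ℝ) →
  ((((powersetCard rp J).filter fun K =>
      (((powersetCard r K).filter fun I => I ∈ B).card : ℝ) < y / 2 * (rp.choose r : ℝ)).card : ℕ) : ℝ)
    ≤ 4 * ((j : ℝ) - rp) / (((j : ℝ) - r) * y) * (j.choose rp : ℝ)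

/-- SG-R1: invariant spaces of functions on the `a`-subsets have dimension at least `N/3`. -/
def SR1 : Prop := ∀ (α : Type) [Fintype α] [DecidableEq α] (a : ℕ), 2 * a + 2 ≤ Fintype.card α →
  ∀ U : Submodule ℝ ({A : Finset α // A.card = a} → ℝ),
  (∀ F ∈ U, ∀ π : Equiv.Perm α,
    (fun A : {A : Finset α // A.card = a} =>
      F ⟨A.1.map π.toEmbedding, by rw [card_map]; exact A.2⟩) ∈ U) →
  (∀ F ∈ U, ∑ A, F A = 0) → U ≠ ⊥ →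
  (Fintype.card α : ℝ) / 3 ≤ (Module.finrank ℝ U : ℝ)

/-- SG-R2: invariant kernels are small on functions of mean zero. -/
def SR2 : Prop := ∀ (α : Type) [Fintype α] [DecidableEq α] (a : ℕ), 2 * a + 2 ≤ Fintype.card α →
  ∀ W : Finset α → Finset α → ℝ, (∀ A B, W A B = W B A) →
  (∀ A B (π : Equiv.Perm α), W (A.map π.toEmbedding) (B.map π.toEmbedding) = W A B) →
  ∀ F : Finset α → ℝ, ∑ A ∈ powersetCard a univ, F A = 0 →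
  (∑ A ∈ powersetCard a univ, ∑ B ∈ powersetCard a univ, W A B * F A * F B) ^ 2 ≤
    (∑ A ∈ powersetCard a univ, ∑ B ∈ powersetCard a univ, W A B ^ 2) /
      ((Fintype.card α : ℝ) / 3) * (∑ A ∈ powersetCard a univ, F A ^ 2) ^ 2

/-- SG-JE: random permutations of a dense family meet a dense family. -/
def SJE : Prop := ∀ (α : Type) [Fintype α] [DecidableEq α] (N r : ℕ), Fintype.card α = N →
  r ≤ N → 2 * (N - r) + 2 ≤ N → ∀ (W B : Finset (Finset α)) (x y : ℝ), 0 < x → 0 < y →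
  W ⊆ powersetCard r univ → B ⊆ powersetCard r univ →
  x * (N.choose r : ℝ) ≤ (W.card : ℝ) → y * (N.choose r : ℝ) ≤ (B.card : ℝ) →
  (((univ : Finset (Equiv.Perm α)).filter fun σ => ∀ A ∈ W, A.map σ.toEmbedding ∉ B).card : ℝ)
    ≤ 3 / (N * x * y) * (N.factorial : ℝ)

/-- SG-LAB: labellings. -/
def SLAB : Prop := ∀ (n r rp j : ℕ) (K J : Finset (Fin n)), K ⊆ J → K.card = rp → J.card = j →
  r ≤ rp → r < j → 2 * (rp - r) + 2 ≤ rp → ∀ (W B : Finset (Finset (Fin n))) (x y : ℝ), 0 < x →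
  0 < y → W ⊆ powersetCard r K → x * (rp.choose r : ℝ) ≤ (W.card : ℝ) →
  (((univ : Finset (Equiv.Perm (Fin n))).filter fun σ =>
      y * (j.choose r : ℝ) ≤ (((powersetCard r (J.map σ.toEmbedding)).filter fun I => I ∈ B).card : ℝ)
      ∧ ∀ A ∈ W, A.map σ.toEmbedding ∉ B).card : ℝ)
    ≤ (4 * ((j : ℝ) - rp) / (((j : ℝ) - r) * y) + 6 / (rp * x * y)) * (n.factorial : ℝ)

/-- SG-AC: anti-concentration of the rank. -/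
def SAC : Prop := ∃ C : ℝ, 0 < C ∧ ∀ n : ℕ, 1 ≤ n → Even n → ∀ j : ℕ,
  (((univ : Finset (Fin n → Fin n)).filter fun f => rk f = j).card : ℝ) ≤
    C / Real.sqrt n * (n : ℝ) ^ n

/-- SG-CONC: concentration of the rank and of the number of singleton fibres. -/
def SCONC : Prop := ∃ C : ℝ, 0 < C ∧ ∀ n : ℕ, 1 ≤ n → ∀ t : ℝ, 0 < t →
  (((univ : Finset (Fin n → Fin n)).filter fun f =>
      t * Real.sqrt n < |(rk f : ℝ) - rho * n|).card : ℝ) ≤ C / t ^ 2 * (n : ℝ) ^ n ∧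
  (((univ : Finset (Fin n → Fin n)).filter fun f =>
      t * Real.sqrt n < |(sg f : ℝ) - (1 - rho) * n|).card : ℝ) ≤ C / t ^ 2 * (n : ℝ) ^ n

/-- maps with rank in `[b, b + l)` -/
def Bd (n b l : ℕ) : Finset (Fin n → Fin n) := univ.filter fun f => b ≤ rk f ∧ rk f < b + l

/-- SG-LYM: random chains give two related levels. -/
def SLYM : Prop := ∀ ε : ℝ, 0 < ε → ∃ γ c K : ℝ, 0 < γ ∧ 0 < c ∧ 0 < K ∧ ∀ κ : ℝ, 0 < κ →
  κ ≤ c → ∃ q0 : ℝ, 0 < q0 ∧ ∃ n0 : ℕ, ∀ n : ℕ, n0 ≤ n → Even n → ∀ X : Finset (Fin n → Fin n),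
  ε * (n : ℝ) ^ n ≤ (X.card : ℝ) →
  ∃ r b : ℕ, |(r : ℝ) - rho * n| ≤ K * Real.sqrt n ∧ |(b : ℝ) - rho * n| ≤ K * Real.sqrt n ∧
    (r : ℝ) + c * Real.sqrt n ≤ b ∧
    q0 * (n : ℝ) ^ n ≤ ((Bd n b ⌊κ * Real.sqrt n⌋₊).card : ℝ) ∧
    γ * ((Bd n b ⌊κ * Real.sqrt n⌋₊).card : ℝ) ≤
      ∑ f ∈ (Bd n b ⌊κ * Real.sqrt n⌋₊).filter (fun f => f ∈ X),
        (∑ I ∈ powersetCard r (im f), dn X I) / ((rk f).choose r : ℝ)

/-- SG-POI: from a level to the product measure. -/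
def SPOI : Prop := ∀ η c K : ℝ, 0 < η → 0 < c → 0 < K → ∃ η' : ℝ, 0 < η' ∧ ∃ n0 : ℕ, ∀ n : ℕ,
  n0 ≤ n → ∀ r : ℕ, |(r : ℝ) - rho * n| ≤ K * Real.sqrt n →
  ∀ A : Finset (Finset (Fin n)), A ⊆ powersetCard r univ →
  η * (n.choose r : ℝ) ≤ (A.card : ℝ) →
  η' ≤ ∑ D ∈ (univ : Finset (Finset (Fin n))).filter (fun D =>
    (D.card : ℝ) ≤ r + c * Real.sqrt n ∧ ∃ D0 ∈ A, D0 ⊆ D), mu D

/-- SG-ONE: the one-dimensional inequality. -/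
def SONE : Prop := ∃ (N : ℕ) (lam : ℝ), 1 ≤ N ∧ 1 < lam ∧ ∀ x y : ℝ, 0 < x → 0 < y →
  q 1 * (2 / (x ^ N + y ^ N)) + q 0 * min (1 / x ^ N) (lam / y ^ N) +
    q 2 * min (1 / y ^ N) (lam / x ^ N) ≤ 1 / (rho * x + (1 - rho) * y) ^ N

/-- SG-MINK: Minkowski. -/
def SMINK : Prop := ∀ (ι : Type) [Fintype ι] (μ : ι → ℝ) (F0 F1 : ι → ℝ) (N : ℕ), 1 ≤ N →
  (∀ i, 0 ≤ μ i) → (∀ i, 0 < F0 i) → (∀ i, 0 < F1 i) →
  ((∑ i, μ i * F0 i ^ (1 / (N : ℝ))) ^ N + (∑ i, μ i * F1 i ^ (1 / (N : ℝ))) ^ N) / 2 ≤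
    (∑ i, μ i * ((F0 i + F1 i) / 2) ^ (1 / (N : ℝ))) ^ N

/-- SG-ST: almost every status vector sees a given dense family. -/
def SST : Prop := ∀ η δ : ℝ, 0 < η → 0 < δ → ∃ (g : ℝ) (t : ℕ), 0 < g ∧ ∀ n : ℕ,
  ∀ A : Finset (Finset (Fin n)), η ≤ ∑ D ∈ A, mu D →
  ∑ b ∈ (univ : Finset (Fin n → Fin 3)).filter (fun b => ∀ Z : Finset (Fin n), Z.card ≤ t →
    (((powerset (St b 1)).filter fun D => bs b Z ∪ D ∈ A).card : ℝ) < g * 2 ^ (St b 1).card), wb b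
    ≤ δ

/-- SG-WT: existence of the weights. -/
def SWT : Prop := ∀ n k : ℕ, 1 ≤ k → ∃ wt : (Fin n → Fin n) → (Fin n → Fin 3) → ℝ, IsWt n k wt

/-- SG-MULT: local lower bound for the trinomial distribution. -/
def SMULT : Prop := ∀ K : ℝ, 0 < K → ∃ c : ℝ, 0 < c ∧ ∃ n0 : ℕ, ∀ n : ℕ, n0 ≤ n → ∀ s l : ℕ,
  |(s : ℝ) - q 0 * n| ≤ K * Real.sqrt n → |(l : ℝ) - q 1 * n| ≤ K * Real.sqrt n →
  c / n ≤ ∑ b ∈ univ.filter (fun b : Fin n → Fin 3 => (St b 0).card = s ∧ (St b 1).card = l), wb b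

/-- SG-TR: transfer from product statuses to statuses of random maps. -/
def STR : Prop := ∀ κ δ : ℝ, 0 < κ → 0 < δ → ∃ C : ℝ, 0 < C ∧ ∃ n0 : ℕ, ∀ n : ℕ, n0 ≤ n →
  ∀ wt, IsWt n ⌊κ * Real.sqrt n⌋₊ wt → ∀ E : Finset (Fin n → Fin 3),
  ∑ f : Fin n → Fin n, ∑ b ∈ E, wt f b ≤ (C * ∑ b ∈ E, wb b + δ) * (n : ℝ) ^ n

/-- SG-MT: transversals of a random matching. -/
def SMT : Prop := ∀ g δ K : ℝ, 0 < g → 0 < δ → 0 < K → ∃ m0 : ℕ, ∀ (m a : ℕ), m0 ≤ m →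
  a + 1 ≤ m → (m : ℝ) ≤ a + K * Real.sqrt m → ∀ (α : Type) [Fintype α] [DecidableEq α],
  Fintype.card α = 2 * m → ∀ u : Fin a × Bool → α, Function.Injective u →
  ∀ A : Finset (Finset α), A ⊆ powersetCard a univ → g * ((2 * m).choose a : ℝ) ≤ (A.card : ℝ) →
  (((univ : Finset (Equiv.Perm α)).filter fun π => ∀ s : Fin a → Bool,
    (univ.image fun i => π (u (i, s i))) ∉ A).card : ℝ) ≤ δ * ((2 * m).factorial : ℝ)

/-- SG-COL: few collisions inside the exceptional sets. -/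
def SCOL : Prop := ∀ (t : ℕ) (δ d1 : ℝ), 0 < δ → 0 < d1 → ∃ n0 : ℕ, ∀ n : ℕ, n0 ≤ n →
  ∀ (k : ℕ) (wt : (Fin n → Fin n) → (Fin n → Fin 3) → ℝ), IsWt n k wt →
  ∀ Z : (Fin n → Fin 3) → Finset (Fin n), (∀ b, (Z b).card ≤ t) →
  ∑ f : Fin n → Fin n, ∑ b ∈ (univ : Finset (Fin n → Fin 3)).filter (fun b =>
    d1 * n ≤ ((St b 2).card : ℝ) ∧ ¬ Set.InjOn f (St b 2 ∩ Z b : Finset (Fin n))), wt f b
    ≤ δ * (n : ℝ) ^ n

/-- SG-MTF: the matching lemma for a fixed status vector. -/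
def SMTF : Prop := ∀ g δ K : ℝ, 0 < g → 0 < δ → 0 < K → ∀ t : ℕ, ∃ m0 : ℕ, ∀ (n k : ℕ)
  (wt : (Fin n → Fin n) → (Fin n → Fin 3) → ℝ), IsWt n k wt → ∀ (b : Fin n → Fin 3) (m a : ℕ),
  (St b 1).card = 2 * m → m0 ≤ m → a + t + 1 ≤ m → (m : ℝ) ≤ a + K * Real.sqrt m →
  ∀ Z : Finset (Fin n), Z.card ≤ t → ∀ A : Finset (Finset (Fin n)), A ⊆ powersetCard a (St b 1) →
  g * ((2 * m).choose a : ℝ) ≤ (A.card : ℝ) →
  ∑ f ∈ (univ : Finset (Fin n → Fin n)).filter (fun f =>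
    Set.InjOn f (St b 2 ∩ Z : Finset (Fin n)) ∧
    ∀ D ∈ A, ¬ Set.InjOn f ((St b 2 ∩ Z) ∪ D : Finset (Fin n))), wt f b
    ≤ δ * ∑ f : Fin n → Fin n, wt f b

/-- SG-STAR (assembly, helper341): almost every map is injective on a member of a dense family. -/
def SSTAR : Prop := ∀ α η c K : ℝ, 0 < α → 0 < η → 0 < c → 0 < K → ∃ n0 : ℕ, ∀ n : ℕ, n0 ≤ n →
  ∀ r : ℕ, |(r : ℝ) - rho * n| ≤ K * Real.sqrt n → ∀ Q : Finset (Fin n → Fin n),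
  α * (n : ℝ) ^ n ≤ (Q.card : ℝ) → (∀ f ∈ Q, (r : ℝ) + c * Real.sqrt n ≤ rk f) →
  ∀ A : Finset (Finset (Fin n)), A ⊆ powersetCard r univ → η * (n.choose r : ℝ) ≤ (A.card : ℝ) →
  ∃ f ∈ Q, ∃ D ∈ A, Set.InjOn f (D : Set (Fin n))

/-- SG-IND (assembly, helper341) -/
def SIND : Prop := ∀ ε : ℝ, 0 < ε → ∃ n0 : ℕ, ∀ n : ℕ, n0 ≤ n → Even n →
  ∀ X : Finset (Fin n → Fin n), Indep X → (X.card : ℝ) ≤ ε * (n : ℝ) ^ n

end

end Pool.Agent.R341.SG
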