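import Mathlib
import Pool.Agent.R341.SG.Stm

namespace Pool.Agent.R341.SG

open Finset

theorem exists_perm {α : Type} [Fintype α] [DecidableEq α] (I I' : Finset α)
    (h : I.card = I'.card) : ∃ σ : Equiv.Perm α, I.map σ.toEmbedding = I' := by
  classical
  let e : {x // x ∈ I} ≃ {x // x ∈ I'} := Finset.equivOfCardEq h
  refine ⟨e.extendSubtype, ?_⟩
  apply Finset.eq_of_subset_of_card_le
  · intro y hy
    rw [Finset.mem_map] at hy
    obtain ⟨x, hx, rfl⟩ := hy
    exact e.extendSubtype_mem x hx
  · rw [Finset.card_map, h]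

theorem im_comp {n : ℕ} (σ : Equiv.Perm (Fin n)) (f : Fin n → Fin n) :
    im (σ ∘ f) = (im f).map σ.toEmbedding := by
  ext y
  simp only [im, mem_image, mem_map, mem_univ, true_and, Function.comp_apply]
  constructor
  · rintro ⟨x, rfl⟩
    exact ⟨f x, ⟨x, rfl⟩, rfl⟩
  · rintro ⟨z, ⟨x, rfl⟩, rfl⟩
    exact ⟨x, rfl⟩

theorem rk_comp {n : ℕ} (σ : Equiv.Perm (Fin n)) (f : Fin n → Fin n) :
    rk (σ ∘ f) = rk f := by
  rw [rk, im_comp, card_map, rk]

theorem reach_trans {n : ℕ} (X : Finset (Fin n → Fin n)) (r : ℕ) (I I' I'' : Finset (Fin n))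
    (h1 : Reach X r I I') (h2 : Reach X r I' I'') : Reach X r I I'' := by
  rcases h1 with h1 | ⟨a1, a2, w, hw, hI⟩
  · rw [h1]; exact h2
  · rcases h2 with h2 | ⟨b1, b2, w', hw', hI'⟩
    · rw [← h2]; exact Or.inr ⟨a1, a2, w, hw, hI⟩
    · refine Or.inr ⟨a1, b2, w' ∘ w, Gen.comp _ _ hw' hw, ?_⟩
      rw [← hI', ← hI, image_image]

theorem dn_nonneg {n : ℕ} (X : Finset (Fin n → Fin n)) (J : Finset (Fin n)) : 0 ≤ dn X J := by
  unfold dn; positivity

theorem dn_le_one {n : ℕ} (X : Finset (Fin n → Fin n)) (J : Finset (Fin n)) : dn X J ≤ 1 := by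
  unfold dn
  apply div_le_one_of_le₀ _ (by positivity)
  have : (X.filter fun f => im f = J) ⊆ onto J := by
    intro f hf
    rw [mem_filter] at hf
    rw [onto, mem_filter]
    exact ⟨mem_univ _, hf.2⟩
  exact_mod_cast card_le_card this

theorem mem_Bd {n b l : ℕ} (f : Fin n → Fin n) : f ∈ Bd n b l ↔ b ≤ rk f ∧ rk f < b + l := by
  simp [Bd]

theorem rk_le {n : ℕ} (f : Fin n → Fin n) : rk f ≤ n := by
  unfold rk
  calc (im f).card ≤ (univ : Finset (Fin n)).card := card_le_univ _
    _ = n := by simp

/-- all `r`-subsets are contained in the same (weighted) number of images -/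
theorem weight_eq {n b l r : ℕ} (hrb : r ≤ b) (hrn : r ≤ n) (I : Finset (Fin n)) (hI : I.card = r) :
    ∑ f ∈ Bd n b l, (if I ⊆ im f then 1 / ((rk f).choose r : ℝ) else 0) =
      ((Bd n b l).card : ℝ) / (n.choose r : ℝ) := by
  classical
  set H : Finset (Fin n) → ℝ := fun I =>
    ∑ f ∈ Bd n b l, (if I ⊆ im f then 1 / ((rk f).choose r : ℝ) else 0) with hH
  have hinv : ∀ I I' : Finset (Fin n), I.card = r → I'.card = r → H I = H I' := by
    intro I I' h1 h2
    obtain ⟨σ, hσ⟩ := exists_perm I I' (by rw [h1, h2])
    rw [← hσ]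
    simp only [hH]
    refine sum_bij' (fun f _ => σ ∘ f) (fun f _ => σ.symm ∘ f) ?_ ?_ ?_ ?_ ?_
    · intro f hf
      rw [mem_Bd] at hf ⊢
      rwa [rk_comp]
    · intro f hf
      rw [mem_Bd] at hf ⊢
      rwa [rk_comp]
    · intro f _
      funext x; simp
    · intro f _
      funext x; simp
    · intro f _
      rw [rk_comp, im_comp]
      simp only [map_subset_map]
  have hsum : ∑ I ∈ powersetCard r (univ : Finset (Fin n)), H I = ((Bd n b l).card : ℝ) := by
    simp only [hH]
    rw [sum_comm]
    have : ∀ f ∈ Bd n b l, ∑ I ∈ powersetCard r (univ : Finset (Fin n)),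
        (if I ⊆ im f then 1 / ((rk f).choose r : ℝ) else 0) = 1 := by
      intro f hf
      rw [mem_Bd] at hf
      rw [← sum_filter]
      have hset : (powersetCard r (univ : Finset (Fin n))).filter (fun I => I ⊆ im f) =
          powersetCard r (im f) := by
        ext I
        simp only [mem_filter, mem_powersetCard, subset_univ, true_and]
        tauto
      rw [hset, sum_const, card_powersetCard, nsmul_eq_mul]
      have : (0 : ℝ) < (((im f).card).choose r : ℝ) := by
        exact_mod_cast Nat.choose_pos (by
          have : rk f = (im f).card := rfl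
          omega)
      show (((im f).card).choose r : ℝ) * (1 / (((im f).card).choose r : ℝ)) = 1
      field_simp
    rw [sum_congr rfl this, sum_const, nsmul_eq_mul, mul_one]
  have hall : ∑ I' ∈ powersetCard r (univ : Finset (Fin n)), H I' =
      (n.choose r : ℝ) * H I := by
    rw [sum_congr rfl (fun I' hI' => hinv I' I (mem_powersetCard.mp hI').2 hI), sum_const,
      card_powersetCard, card_univ, Fintype.card_fin, nsmul_eq_mul]
  have hpos : (0 : ℝ) < (n.choose r : ℝ) := by exact_mod_cast Nat.choose_pos hrn
  show H I = _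
  rw [eq_div_iff hpos.ne', mul_comm, ← hall, hsum]

/-- subsets of random `rp`-sets -/
theorem level_up {n r rp : ℕ} (hr : r ≤ rp) (hn : rp ≤ n) (A : Finset (Finset (Fin n)))
    (x : ℝ) (hx : 0 ≤ x) (hA : 2 * x * (n.choose r : ℝ) ≤
      (((powersetCard r (univ : Finset (Fin n))).filter fun I => I ∈ A).card : ℝ)) :
    x * (n.choose rp : ℝ) ≤ (((powersetCard rp (univ : Finset (Fin n))).filter fun D =>
      x * (rp.choose r : ℝ) ≤ (((powersetCard r D).filter fun I => I ∈ A).card : ℝ)).card : ℝ) := by
  classical
  have h1 : ∑ D ∈ powersetCard rp (univ : Finset (Fin n)),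
      (((powersetCard r D).filter fun I => I ∈ A).card : ℝ) =
      (((powersetCard r (univ : Finset (Fin n))).filter fun I => I ∈ A).card : ℝ) *
        ((n - r).choose (rp - r) : ℝ) := by
    have e1 : ∀ D ∈ powersetCard rp (univ : Finset (Fin n)),
        (((powersetCard r D).filter fun I => I ∈ A).card : ℝ) =
        ∑ I ∈ (powersetCard r (univ : Finset (Fin n))).filter (fun I => I ∈ A),
          (if I ⊆ D then (1 : ℝ) else 0) := by
      intro D _
      rw [← sum_filter, sum_const, nsmul_eq_mul, mul_one]
      congr 2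
      ext I
      simp only [mem_filter, mem_powersetCard, subset_univ, true_and]
      tauto
    rw [sum_congr rfl e1, sum_comm]
    have e2 : ∀ I ∈ (powersetCard r (univ : Finset (Fin n))).filter (fun I => I ∈ A),
        ∑ D ∈ powersetCard rp (univ : Finset (Fin n)), (if I ⊆ D then (1 : ℝ) else 0) =
          ((n - r).choose (rp - r) : ℝ) := by
      intro I hI
      rw [mem_filter, mem_powersetCard] at hI
      rw [← sum_filter, sum_const, nsmul_eq_mul, mul_one]
      have : ((powersetCard rp (univ : Finset (Fin n))).filter fun D => I ⊆ D).card =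
          (powersetCard (rp - r) (univ \ I)).card := by
        refine card_bij' (fun D _ => D \ I) (fun E _ => E ∪ I) ?_ ?_ ?_ ?_
        · intro D hD
          rw [mem_filter, mem_powersetCard] at hD
          rw [mem_powersetCard]
          refine ⟨sdiff_subset_sdiff (subset_univ _) le_rfl, ?_⟩
          rw [card_sdiff_of_subset hD.2, hD.1.2, hI.1.2]
        · intro E hE
          rw [mem_powersetCard] at hE
          rw [mem_filter, mem_powersetCard]
          have hdis : Disjoint E I := by
            rw [Finset.disjoint_left]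
            intro a ha hb
            exact (mem_sdiff.mp (hE.1 ha)).2 hb
          refine ⟨⟨subset_univ _, ?_⟩, subset_union_right⟩
          rw [card_union_of_disjoint hdis, hE.2, hI.1.2]
          omega
        · intro D hD
          rw [mem_filter] at hD
          exact sdiff_union_of_subset hD.2
        · intro E hE
          rw [mem_powersetCard] at hE
          ext a
          simp only [mem_sdiff, mem_union]
          constructor
          · rintro ⟨h1 | h1, h2⟩
            · exact h1
            · exact absurd h1 h2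
          · intro h1
            exact ⟨Or.inl h1, (mem_sdiff.mp (hE.1 h1)).2⟩
      rw [this, card_powersetCard, card_sdiff_of_subset (subset_univ _), hI.1.2, card_univ,
        Fintype.card_fin]
    rw [sum_congr rfl e2, sum_const, nsmul_eq_mul]
  have h2 : (n.choose rp : ℝ) * (rp.choose r : ℝ) = (n.choose r : ℝ) * ((n - r).choose (rp - r) : ℝ) := by
    exact_mod_cast Nat.choose_mul hr
  have h3 : ∑ D ∈ powersetCard rp (univ : Finset (Fin n)),
      (((powersetCard r D).filter fun I => I ∈ A).card : ℝ) ≤
      (((powersetCard rp (univ : Finset (Fin n))).filter fun D =>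
      x * (rp.choose r : ℝ) ≤ (((powersetCard r D).filter fun I => I ∈ A).card : ℝ)).card : ℝ) *
        (rp.choose r : ℝ) + (n.choose rp : ℝ) * (x * (rp.choose r : ℝ)) := by
    have e3 : ∀ D ∈ powersetCard rp (univ : Finset (Fin n)),
        (((powersetCard r D).filter fun I => I ∈ A).card : ℝ) ≤
        (if x * (rp.choose r : ℝ) ≤ (((powersetCard r D).filter fun I => I ∈ A).card : ℝ) then
          (rp.choose r : ℝ) else 0) + x * (rp.choose r : ℝ) := by
      intro D hD
      rw [mem_powersetCard] at hD
      have hle : (((powersetCard r D).filter fun I => I ∈ A).card : ℝ) ≤ (rp.choose r : ℝ) := by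
        have := card_filter_le (powersetCard r D) (fun I => I ∈ A)
        rw [card_powersetCard, hD.2] at this
        exact_mod_cast this
      have hnn : 0 ≤ x * (rp.choose r : ℝ) := by positivity
      split_ifs with h
      · linarith
      · push_neg at h; linarith
    refine (sum_le_sum e3).trans ?_
    rw [sum_add_distrib, ← sum_filter, sum_const, sum_const, card_powersetCard, card_univ,
      Fintype.card_fin, nsmul_eq_mul, nsmul_eq_mul]
  rw [h1] at h3
  have hpos : (0 : ℝ) < (rp.choose r : ℝ) := by exact_mod_cast Nat.choose_pos hr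
  have h4 : 2 * x * (n.choose r : ℝ) * ((n - r).choose (rp - r) : ℝ) ≤
      (((powersetCard rp (univ : Finset (Fin n))).filter fun D =>
      x * (rp.choose r : ℝ) ≤ (((powersetCard r D).filter fun I => I ∈ A).card : ℝ)).card : ℝ) *
        (rp.choose r : ℝ) + (n.choose rp : ℝ) * (x * (rp.choose r : ℝ)) :=
    (mul_le_mul_of_nonneg_right hA (by positivity)).trans h3
  have h5 : x * (n.choose rp : ℝ) * (rp.choose r : ℝ) ≤
      (((powersetCard rp (univ : Finset (Fin n))).filter fun D =>
      x * (rp.choose r : ℝ) ≤ (((powersetCard r D).filter fun I => I ∈ A).card : ℝ)).card : ℝ) *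
        (rp.choose r : ℝ) := by
    have : 2 * x * (n.choose r : ℝ) * ((n - r).choose (rp - r) : ℝ) =
        2 * x * ((n.choose rp : ℝ) * (rp.choose r : ℝ)) := by rw [h2]; ring
    rw [this] at h4
    linarith
  exact le_of_mul_le_mul_right h5 hpos

end Pool.Agent.R341.SG
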