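import Mathlib
import Pool.Agent.R341.SG.Basic

namespace Pool.Agent.R341.SG

open Finset

/-- counting with weights: from an average to a level set -/
theorem markov_card {ι : Type} (s : Finset ι) (w : ι → ℝ) (y z : ℝ) (hw0 : ∀ i ∈ s, 0 ≤ w i)
    (hw1 : ∀ i ∈ s, w i ≤ 1) (t : Finset ι) (hst : s ⊆ t) (hy : 0 ≤ y)
    (h : z * (t.card : ℝ) ≤ ∑ i ∈ s, w i) :
    (z - y) * (t.card : ℝ) ≤ ((s.filter fun i => y ≤ w i).card : ℝ) := by
  classical
  have h1 : ∑ i ∈ s, w i ≤ ∑ i ∈ s, ((if y ≤ w i then (1 : ℝ) else 0) + y) := by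
    refine sum_le_sum fun i hi => ?_
    split_ifs with h2
    · linarith [hw1 i hi]
    · linarith [not_le.mp h2]
  rw [sum_add_distrib, ← sum_filter, sum_const, sum_const, nsmul_eq_mul, nsmul_eq_mul,
    mul_one] at h1
  have h3 : (s.card : ℝ) ≤ (t.card : ℝ) := by exact_mod_cast card_le_card hst
  nlinarith

/-- the core of the argument for one pair of levels -/
theorem core (n r b l rp : ℕ) (γ c : ℝ) (X : Finset (Fin n → Fin n)) (hX : Indep X)
    (hγ : 0 < γ) (hr1 : 1 ≤ r) (hrn : r + 1 ≤ n) (hrb : r < b) (hrp : rp + l = b) (hrrp : r ≤ rp)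
    (hrp2 : 2 * (rp - r) + 2 ≤ rp) (hn : 32 / γ ^ 2 ≤ (n : ℝ))
    (hB0 : 0 < (Bd n b l).card)
    (hsum : γ * ((Bd n b l).card : ℝ) ≤
      ∑ f ∈ (Bd n b l).filter (fun f => f ∈ X),
        (∑ I ∈ powersetCard r (im f), dn X I) / ((rk f).choose r : ℝ))
    (hPH : SPH) (hORD : SORD) (hLAB : SLAB)
    (hc : 4 * (2 * (l : ℝ)) / (c * (γ / 8)) + 6 / (rp * (γ / 8) * (γ / 8)) < γ / 16) (hc0 : 0 < c)
    (hcb : (r : ℝ) + c ≤ b)
    (hstar : ∀ Q : Finset (Fin n → Fin n), (γ / 16) * ((Bd n b l).card : ℝ) ≤ (Q.card : ℝ) →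
      (∀ f ∈ Q, b ≤ rk f) → ∀ A : Finset (Finset (Fin n)), A ⊆ powersetCard rp univ →
      (γ / 8) * (n.choose rp : ℝ) ≤ (A.card : ℝ) →
      ∃ f ∈ Q, ∃ D ∈ A, Set.InjOn f (D : Set (Fin n))) : False := by
  classical
  set N : ℝ := ((Bd n b l).card : ℝ) with hN
  have hNpos : 0 < N := by rw [hN]; exact_mod_cast hB0
  set XB := (Bd n b l).filter (fun f => f ∈ X) with hXB
  have hrk : ∀ f ∈ Bd n b l, b ≤ rk f ∧ rk f < b + l := fun f hf => (mem_Bd f).mp hf
  have hchpos : ∀ f ∈ Bd n b l, (0 : ℝ) < ((rk f).choose r : ℝ) := by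
    intro f hf
    exact_mod_cast Nat.choose_pos (by have := hrk f hf; omega)
  -- rich sets
  set Rch := (powersetCard r (univ : Finset (Fin n))).filter (fun I => γ / 4 ≤ dn X I) with hRch
  set h : Finset (Fin n) → ℝ := fun I => if I ∈ Rch then
    ∑ f ∈ XB, (if I ⊆ im f then 1 / ((rk f).choose r : ℝ) else 0) else 0 with hh
  have hterm : ∀ (f : Fin n → Fin n) (I : Finset (Fin n)),
      0 ≤ (if I ⊆ im f then 1 / ((rk f).choose r : ℝ) else 0) := by
    intro f I; split_ifs <;> positivity
  have hh0 : ∀ I, 0 ≤ h I := by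
    intro I
    simp only [hh]
    split_ifs
    · exact sum_nonneg fun f _ => hterm f I
    · exact le_rfl
  have hCnr : (0 : ℝ) < (n.choose r : ℝ) := by exact_mod_cast Nat.choose_pos (by omega)
  have hhub : ∀ I, h I ≤ N / (n.choose r : ℝ) := by
    intro I
    simp only [hh]
    split_ifs with hI
    · rw [hRch, mem_filter, mem_powersetCard] at hI
      rw [← weight_eq (b := b) (l := l) (by omega) (by omega) I hI.1.2]
      exact sum_le_sum_of_subset_of_nonneg (filter_subset _ _) (fun f _ _ => hterm f I)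
    · positivity
  -- sums over families
  have hswap : ∀ F : Finset (Finset (Fin n)), F ⊆ Rch → ∑ I ∈ F, h I =
      ∑ f ∈ XB, (((powersetCard r (im f)).filter fun I => I ∈ F).card : ℝ) /
        ((rk f).choose r : ℝ) := by
    intro F hF
    have e1 : ∑ I ∈ F, h I = ∑ I ∈ F, ∑ f ∈ XB,
        (if I ⊆ im f then 1 / ((rk f).choose r : ℝ) else 0) := by
      refine sum_congr rfl fun I hI => ?_
      simp only [hh]
      rw [if_pos (hF hI)]
    rw [e1, sum_comm]
    refine sum_congr rfl fun f _ => ?_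
    rw [← sum_filter, sum_const, nsmul_eq_mul, mul_one_div]
    congr 2
    congr 1
    ext I
    simp only [mem_filter, mem_powersetCard]
    constructor
    · rintro ⟨h1, h2⟩
      have := hF h1
      rw [hRch, mem_filter, mem_powersetCard] at this
      exact ⟨⟨h2, this.1.2⟩, h1⟩
    · rintro ⟨⟨h1, _⟩, h2⟩
      exact ⟨h2, h1⟩
  have hhsum : ∑ I, h I = ∑ I ∈ Rch, h I := by
    symm
    apply sum_subset (subset_univ _)
    intro I _ hI
    simp only [hh]
    rw [if_neg hI]
  have hH : 3 * γ / 4 * N ≤ ∑ I, h I := by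
    rw [hhsum, hswap Rch le_rfl]
    have e2 : ∀ f ∈ XB, (∑ I ∈ powersetCard r (im f), dn X I) / ((rk f).choose r : ℝ) ≤
        (((powersetCard r (im f)).filter fun I => I ∈ Rch).card : ℝ) / ((rk f).choose r : ℝ)
          + γ / 4 := by
      intro f hf
      have hfB : f ∈ Bd n b l := (mem_filter.mp hf).1
      have hp := hchpos f hfB
      rw [div_add' _ _ _ hp.ne']
      apply div_le_div_of_nonneg_right _ hp.le
      have e3 : ∀ I ∈ powersetCard r (im f), dn X I ≤ (if I ∈ Rch then (1 : ℝ) else 0) + γ / 4 := by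
        intro I hI
        rw [mem_powersetCard] at hI
        split_ifs with hI2
        · linarith [dn_le_one X I]
        · have : ¬ γ / 4 ≤ dn X I := by
            intro h3
            apply hI2
            rw [hRch, mem_filter, mem_powersetCard]
            exact ⟨⟨subset_univ _, hI.2⟩, h3⟩
          linarith [not_le.mp this]
      refine (sum_le_sum e3).trans ?_
      rw [sum_add_distrib, ← sum_filter, sum_const, sum_const, card_powersetCard, nsmul_eq_mul,
        nsmul_eq_mul, mul_one]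
      have : (im f).card = rk f := rfl
      rw [this]
      linarith
    have e4 := sum_le_sum e2
    rw [sum_add_distrib, sum_const, nsmul_eq_mul] at e4
    have e5 : (XB.card : ℝ) ≤ N := by
      rw [hN, hXB]; exact_mod_cast card_filter_le _ _
    nlinarith
  have hHpos : 0 < ∑ I, h I := lt_of_lt_of_le (by positivity) hH
  -- classes are small
  have hnC : (n : ℝ) ≤ (n.choose r : ℝ) := by
    have h1 : n.choose 1 ≤ n.choose r ∨ True := Or.inr trivial
    have h2 : n ≤ n.choose r := by
      have : n.choose r ≥ n := by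
        obtain ⟨k, rfl⟩ : ∃ k, n = k + 1 := ⟨n - 1, by omega⟩
        obtain ⟨s, rfl⟩ : ∃ s, r = s + 1 := ⟨r - 1, by omega⟩
        have := Nat.add_one_mul_choose_eq k s
        have hk : s + 1 ≤ k := by omega
        have h3 : s + 1 ≤ k.choose s := by
          have : k.choose s = k.choose (k - s) := (Nat.choose_symm (by omega)).symm
          have h4 : (s + 1).choose s ≤ k.choose s := Nat.choose_le_choose s hk
          rw [Nat.choose_succ_self_right] at h4
          exact h4
        have h5 : (k + 1) * (s + 1) ≤ (k + 1).choose (s + 1) * (s + 1) := by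
          calc (k + 1) * (s + 1) ≤ (k + 1) * k.choose s := Nat.mul_le_mul_left _ h3
            _ = (k + 1).choose (s + 1) * (s + 1) := this
        exact Nat.le_of_mul_le_mul_right h5 (by omega)
      exact this
    exact_mod_cast h2
  have hclass : ∀ C : Finset (Finset (Fin n)), (∀ x ∈ C, ∀ y ∈ C, Reach X r x y) →
      ∑ x ∈ C, h x ≤ 4 / γ * (N / (n.choose r : ℝ)) := by
    intro C hC
    have e1 : ∑ x ∈ C, h x = ∑ x ∈ C.filter (fun x => x ∈ Rch), h x := by
      symm
      apply sum_subset (filter_subset _ _)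
      intro x hx hx2
      simp only [hh]
      rw [if_neg]
      intro h3
      exact hx2 (mem_filter.mpr ⟨hx, h3⟩)
    rw [e1]
    have e2 := hPH n r X hX (γ / 4) (by positivity) (C.filter (fun x => x ∈ Rch)) (by
      intro I hI
      have := (mem_filter.mp hI).2
      rw [hRch, mem_filter, mem_powersetCard] at this
      exact ⟨this.1.2, this.2⟩) (by
      intro I hI I' hI'
      exact hC I (mem_filter.mp hI).1 I' (mem_filter.mp hI').1)
    have e3 : ∑ x ∈ C.filter (fun x => x ∈ Rch), h x ≤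
        ((C.filter (fun x => x ∈ Rch)).card : ℝ) * (N / (n.choose r : ℝ)) := by
      rw [← nsmul_eq_mul]
      exact sum_le_card_nsmul _ _ _ (fun x _ => hhub x)
    refine e3.trans ?_
    apply mul_le_mul_of_nonneg_right _ (by positivity)
    rw [le_div_iff₀ hγ]
    linarith
  have h6 : 6 * (4 / γ * (N / (n.choose r : ℝ))) ≤ ∑ I, h I := by
    refine le_trans ?_ hH
    have e1 : 32 / γ ^ 2 ≤ (n.choose r : ℝ) := hn.trans hnC
    rw [div_le_iff₀ (by positivity)] at e1
    rw [show 6 * (4 / γ * (N / (n.choose r : ℝ))) = 24 * N / (γ * (n.choose r : ℝ)) by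
      field_simp; ring]
    rw [div_le_iff₀ (by positivity)]
    nlinarith
  obtain ⟨C, hCup, hC1, hC2⟩ := hORD (Finset (Fin n)) (Reach X r) (fun x => Or.inl rfl)
    (fun x y z => reach_trans X r x y z) h hh0 _ hclass h6 hHpos
  -- C is dense
  have hCsub : ∑ x ∈ C, h x = ∑ x ∈ C.filter (fun x => x ∈ Rch), h x := by
    symm
    apply sum_subset (filter_subset _ _)
    intro x hx hx2
    simp only [hh]
    rw [if_neg]
    intro h3
    exact hx2 (mem_filter.mpr ⟨hx, h3⟩)
  have hCd : γ / 4 * (n.choose r : ℝ) ≤ ((C.filter (fun x => x ∈ Rch)).card : ℝ) := by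
    have e3 : ∑ x ∈ C.filter (fun x => x ∈ Rch), h x ≤
        ((C.filter (fun x => x ∈ Rch)).card : ℝ) * (N / (n.choose r : ℝ)) := by
      rw [← nsmul_eq_mul]
      exact sum_le_card_nsmul _ _ _ (fun x _ => hhub x)
    rw [← hCsub] at e3
    have e4 : γ / 4 * N ≤ ((C.filter (fun x => x ∈ Rch)).card : ℝ) * (N / (n.choose r : ℝ)) := by
      linarith
    rw [mul_div_assoc', le_div_iff₀ hCnr] at e4
    nlinarith
  -- the complement
  set B := Rch \ C with hBdef
  have hBsum : γ / 4 * N ≤ ∑ I ∈ B, h I := by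
    have e1 : ∑ I ∈ B, h I = ∑ I ∈ Rch, h I - ∑ x ∈ C.filter (fun x => x ∈ Rch), h x := by
      have hfe : C.filter (fun x => x ∈ Rch) = Rch ∩ C := by
        ext x; simp only [mem_filter, mem_inter]; tauto
      rw [hfe, hBdef]
      have := sum_sdiff_eq_sub (f := h) (inter_subset_left : Rch ∩ C ⊆ Rch)
      rw [sdiff_inter_self_left] at this
      exact this
    rw [e1, ← hCsub, ← hhsum]
    linarith
  rw [hswap B sdiff_subset] at hBsum
  -- the maps with many elements of B below their image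
  set w : (Fin n → Fin n) → ℝ := fun f =>
    (((powersetCard r (im f)).filter fun I => I ∈ B).card : ℝ) / ((rk f).choose r : ℝ) with hw
  have hw01 : ∀ f ∈ XB, w f ≤ 1 := by
    intro f _
    simp only [hw]
    apply div_le_one_of_le₀ _ (by positivity)
    have := card_filter_le (powersetCard r (im f)) (fun I => I ∈ B)
    rw [card_powersetCard] at this
    exact_mod_cast this
  have hQ1 := markov_card XB w (γ / 8) (γ / 4) (fun f _ => by simp only [hw]; positivity) hw01
    (Bd n b l) (filter_subset _ _) (by positivity) hBsum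
  set Q1 := XB.filter (fun f => γ / 8 ≤ w f) with hQ1def
  -- maps all of whose relabellings are often in Q1
  set w2 : (Fin n → Fin n) → ℝ := fun f =>
    (((univ : Finset (Equiv.Perm (Fin n))).filter fun σ : Equiv.Perm (Fin n) => (⇑σ ∘ f) ∈ Q1).card : ℝ) /
      (n.factorial : ℝ) with hw2
  have hfac : (0 : ℝ) < (n.factorial : ℝ) := by exact_mod_cast Nat.factorial_pos n
  have hcardP : (Fintype.card (Equiv.Perm (Fin n))) = n.factorial := by
    rw [Fintype.card_perm, Fintype.card_fin]
  have hw2sum : ∑ f ∈ Bd n b l, w2 f = (Q1.card : ℝ) := by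
    simp only [hw2]
    rw [← sum_div]
    have e1 : ∀ f ∈ Bd n b l,
        (((univ : Finset (Equiv.Perm (Fin n))).filter fun σ : Equiv.Perm (Fin n) => (⇑σ ∘ f) ∈ Q1).card : ℝ) =
        ∑ σ : Equiv.Perm (Fin n), (if (⇑σ ∘ f) ∈ Q1 then (1 : ℝ) else 0) := by
      intro f _
      rw [← sum_filter, sum_const, nsmul_eq_mul, mul_one]
    rw [sum_congr rfl e1, sum_comm]
    have e2 : ∀ σ : Equiv.Perm (Fin n), ∑ f ∈ Bd n b l, (if (⇑σ ∘ f) ∈ Q1 then (1 : ℝ) else 0) =
        (Q1.card : ℝ) := by
      intro σ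
      rw [← sum_filter, sum_const, nsmul_eq_mul, mul_one]
      congr 1
      refine card_bij' (fun f _ => σ ∘ f) (fun f _ => σ.symm ∘ f) ?_ ?_ ?_ ?_
      · intro f hf
        exact (mem_filter.mp hf).2
      · intro f hf
        rw [mem_filter]
        constructor
        · have hfB : f ∈ Bd n b l := (mem_filter.mp (mem_filter.mp hf).1).1
          rw [mem_Bd] at hfB ⊢
          rwa [rk_comp]
        · have : (σ ∘ (σ.symm ∘ f)) = f := by funext x; simp
          rw [this]; exact hf
      · intro f _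
        funext x; simp
      · intro f _
        funext x; simp
    rw [sum_congr rfl (fun σ _ => e2 σ), sum_const, card_univ, hcardP, nsmul_eq_mul]
    field_simp
  have hw2le : ∀ f ∈ Bd n b l, w2 f ≤ 1 := by
    intro f _
    simp only [hw2]
    apply div_le_one_of_le₀ _ hfac.le
    have : ((univ : Finset (Equiv.Perm (Fin n))).filter fun σ : Equiv.Perm (Fin n) => (⇑σ ∘ f) ∈ Q1).card ≤
        n.factorial := by
      refine (card_filter_le _ _).trans ?_
      rw [card_univ, hcardP]
    exact_mod_cast this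
  have hQ2 := markov_card (Bd n b l) w2 (γ / 16) (γ / 8)
    (fun f _ => by simp only [hw2]; positivity) hw2le (Bd n b l) le_rfl (by positivity) (by
      rw [hw2sum]
      have : γ / 4 - γ / 8 = γ / 8 := by ring
      rw [this] at hQ1
      exact hQ1)
  set Q2 := (Bd n b l).filter (fun f => γ / 16 ≤ w2 f) with hQ2def
  -- dense family one level up
  have hrpn : rp ≤ n := by
    -- there is a map of rank at least b
    obtain ⟨f, hf⟩ := card_pos.mp hB0
    have := rk_le f
    have := (hrk f hf).1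
    omega
  have hAup := level_up hrrp hrpn C (γ / 8) (by positivity) (by
    have e1 : ((C.filter (fun x => x ∈ Rch)).card : ℝ) ≤
        (((powersetCard r (univ : Finset (Fin n))).filter fun I => I ∈ C).card : ℝ) := by
      have : C.filter (fun x => x ∈ Rch) ⊆
          (powersetCard r (univ : Finset (Fin n))).filter fun I => I ∈ C := by
        intro x hx
        rw [mem_filter] at hx ⊢
        refine ⟨?_, hx.1⟩
        have := hx.2
        rw [hRch, mem_filter] at this
        exact this.1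
      exact_mod_cast card_le_card this
    have : 2 * (γ / 8) = γ / 4 := by ring
    rw [this]
    exact hCd.trans e1)
  obtain ⟨f, hfQ, D, hD, hinj⟩ := hstar Q2 (by
      have : γ / 8 - γ / 16 = γ / 16 := by ring
      rw [this] at hQ2
      exact hQ2) (fun f hf => (hrk f (mem_filter.mp hf).1).1) _ (filter_subset _ _) hAup
  rw [mem_filter, mem_powersetCard] at hD
  obtain ⟨⟨_, hDc⟩, hDd⟩ := hD
  have hfB : f ∈ Bd n b l := (mem_filter.mp hfQ).1
  have hw2f : γ / 16 ≤ w2 f := (mem_filter.mp hfQ).2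
  obtain ⟨hbf, hfl⟩ := hrk f hfB
  -- the family W
  set Wf := ((powersetCard r D).filter fun I => I ∈ C).image (fun I => I.image f) with hWf
  have hWsub : Wf ⊆ powersetCard r (D.image f) := by
    intro A hA
    rw [hWf, mem_image] at hA
    obtain ⟨I, hI, rfl⟩ := hA
    rw [mem_filter, mem_powersetCard] at hI
    rw [mem_powersetCard]
    refine ⟨image_subset_image hI.1.1, ?_⟩
    rw [card_image_of_injOn (hinj.mono (by exact_mod_cast hI.1.1)), hI.1.2]
  have hWcard : (γ / 8) * (rp.choose r : ℝ) ≤ (Wf.card : ℝ) := by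
    have : Wf.card = ((powersetCard r D).filter fun I => I ∈ C).card := by
      rw [hWf]
      apply card_image_of_injOn
      intro I hI I' hI' hII
      have hI1 : I ⊆ D := (mem_powersetCard.mp (mem_filter.mp hI).1).1
      have hI1' : I' ⊆ D := (mem_powersetCard.mp (mem_filter.mp hI').1).1
      ext x
      have key : ∀ (P P' : Finset (Fin n)), P ⊆ D → P' ⊆ D → P.image f = P'.image f → x ∈ P →
          x ∈ P' := by
        intro P P' hP hP' hPP hx
        have : f x ∈ P'.image f := by rw [← hPP]; exact mem_image_of_mem f hx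
        obtain ⟨z, hz, hzx⟩ := mem_image.mp this
        have := hinj (hP' hz) (hP hx) hzx
        rwa [← this]
      exact ⟨key I I' hI1 hI1' hII, key I' I hI1' hI1 hII.symm⟩
    rw [this]
    exact hDd
  have hlab := hLAB n r rp (rk f) (D.image f) (im f) (image_subset_image (subset_univ _))
    (by rw [card_image_of_injOn hinj, hDc]) rfl hrrp (by omega) hrp2 Wf B (γ / 8) (γ / 8)
    (by positivity) (by positivity) hWsub hWcard
  have hbound : (4 * (((rk f : ℕ) : ℝ) - rp) / ((((rk f : ℕ) : ℝ) - r) * (γ / 8)) +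
      6 / (rp * (γ / 8) * (γ / 8))) < γ / 16 := by
    refine lt_of_le_of_lt ?_ hc
    apply add_le_add_left
    have h1 : ((rk f : ℕ) : ℝ) - rp ≤ 2 * l := by
      have : rk f ≤ rp + 2 * l := by omega
      have : ((rk f : ℕ) : ℝ) ≤ rp + 2 * l := by exact_mod_cast this
      linarith
    have h2 : c ≤ ((rk f : ℕ) : ℝ) - r := by
      have : (b : ℝ) ≤ ((rk f : ℕ) : ℝ) := by exact_mod_cast hbf
      linarith
    apply div_le_div₀ (by positivity) (by linarith) (by positivity)
    exact mul_le_mul_of_nonneg_right h2 (by positivity)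
  -- there is a good relabelling
  have hex : ∃ σ : Equiv.Perm (Fin n), (σ ∘ f) ∈ Q1 ∧
      ¬ ((γ / 8) * ((rk f).choose r : ℝ) ≤
        (((powersetCard r ((im f).map σ.toEmbedding)).filter fun I => I ∈ B).card : ℝ) ∧
        ∀ A ∈ Wf, A.map σ.toEmbedding ∉ B) := by
    by_contra hno
    push_neg at hno
    have hsub : ((univ : Finset (Equiv.Perm (Fin n))).filter fun σ : Equiv.Perm (Fin n) => (⇑σ ∘ f) ∈ Q1) ⊆
        ((univ : Finset (Equiv.Perm (Fin n))).filter fun σ =>
      (γ / 8) * ((rk f).choose r : ℝ) ≤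
        (((powersetCard r ((im f).map σ.toEmbedding)).filter fun I => I ∈ B).card : ℝ)
      ∧ ∀ A ∈ Wf, A.map σ.toEmbedding ∉ B) := by
      intro σ hσ
      rw [mem_filter] at hσ ⊢
      exact ⟨mem_univ _, hno σ hσ.2⟩
    have h1 : (((univ : Finset (Equiv.Perm (Fin n))).filter fun σ : Equiv.Perm (Fin n) => (⇑σ ∘ f) ∈ Q1).card : ℝ) ≤ _ :=
      (by exact_mod_cast card_le_card hsub : _ ≤ (((univ : Finset (Equiv.Perm (Fin n))).filter fun σ =>
      (γ / 8) * ((rk f).choose r : ℝ) ≤
        (((powersetCard r ((im f).map σ.toEmbedding)).filter fun I => I ∈ B).card : ℝ)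
      ∧ ∀ A ∈ Wf, A.map σ.toEmbedding ∉ B).card : ℝ))
    have h2 : γ / 16 * (n.factorial : ℝ) ≤
        (((univ : Finset (Equiv.Perm (Fin n))).filter fun σ : Equiv.Perm (Fin n) => (⇑σ ∘ f) ∈ Q1).card : ℝ) := by
      simp only [hw2] at hw2f
      rwa [le_div_iff₀ hfac] at hw2f
    have h3 := h2.trans (h1.trans hlab)
    have h4 := mul_lt_mul_of_pos_right hbound hfac
    linarith
  obtain ⟨σ, hσQ, hσn⟩ := hex
  have hσX : (σ ∘ f) ∈ XB := (mem_filter.mp hσQ).1
  have hσw : γ / 8 ≤ w (σ ∘ f) := (mem_filter.mp hσQ).2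
  have hfirst : (γ / 8) * ((rk f).choose r : ℝ) ≤
        (((powersetCard r ((im f).map σ.toEmbedding)).filter fun I => I ∈ B).card : ℝ) := by
    simp only [hw] at hσw
    rw [rk_comp, im_comp, le_div_iff₀ (hchpos f hfB)] at hσw
    exact hσw
  have hsecond : ∃ A ∈ Wf, A.map σ.toEmbedding ∈ B := by
    by_contra hno
    push_neg at hno
    exact hσn ⟨hfirst, hno⟩
  obtain ⟨A, hA, hAB⟩ := hsecond
  rw [hWf, mem_image] at hA
  obtain ⟨I, hI, rfl⟩ := hA
  rw [mem_filter, mem_powersetCard] at hI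
  have hBmem := hAB
  rw [hBdef, mem_sdiff, hRch, mem_filter, mem_powersetCard] at hBmem
  apply hBmem.2
  apply hCup I hI.2
  refine Or.inr ⟨hI.1.2, hBmem.1.1.2, σ ∘ f, Gen.base _ ?_, ?_⟩
  · rw [mem_filter]
    refine ⟨(mem_filter.mp hσX).2, ?_⟩
    rw [rk_comp]
    omega
  · ext y
    simp only [mem_image, mem_map, Function.comp_apply]
    constructor
    · rintro ⟨x, hx, rfl⟩
      exact ⟨f x, ⟨x, hx, rfl⟩, rfl⟩
    · rintro ⟨z, ⟨x, hx, rfl⟩, rfl⟩
      exact ⟨x, hx, rfl⟩

end Pool.Agent.R341.SG
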