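import Mathlib
import Pool.Agent.R341.SG.PartI

namespace Pool.Agent.R341.SG

open Finset

theorem rho_gt : (0.63 : ℝ) < rho := by
  unfold rho
  rw [Real.exp_neg]
  have h1 := Real.exp_one_gt_d9
  have : (Real.exp 1)⁻¹ < 0.37 := by
    rw [inv_lt_comm₀ (Real.exp_pos 1) (by norm_num)]
    norm_num
    linarith
  linarith

theorem rho_lt : rho < (0.64 : ℝ) := by
  unfold rho
  rw [Real.exp_neg]
  have h1 := Real.exp_one_lt_d9
  have : (0.36 : ℝ) < (Real.exp 1)⁻¹ := by
    rw [lt_inv_comm₀ (by norm_num) (Real.exp_pos 1)]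
    norm_num
    linarith
  linarith

theorem ind (hPH : SPH) (hORD : SORD) (hLAB : SLAB) (hLYM : SLYM) (hSTAR : SSTAR) : SIND := by
  intro ε hε
  obtain ⟨γ, c, K, hγ, hc, hK, hL⟩ := hLYM ε hε
  set κ : ℝ := min c (c * γ ^ 2 / 4096) with hκdef
  have hκ : 0 < κ := by rw [hκdef]; exact lt_min hc (by positivity)
  have hκc : κ ≤ c := min_le_left _ _
  have hκ2 : κ ≤ c * γ ^ 2 / 4096 := min_le_right _ _
  obtain ⟨q0, hq0, n1, hL⟩ := hL κ hκ hκc
  obtain ⟨n2, hS⟩ := hSTAR (γ / 16 * q0) (γ / 8) (κ / 2) (K + κ) (by positivity) (by positivity)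
    (by positivity) (by positivity)
  set M : ℝ := 2 / κ + 10 * (6 * K + κ + 3) + 50000 / γ ^ 3 + 32 / γ ^ 2 + 1 with hM
  have hMpos : 0 < M := by positivity
  refine ⟨max (max n1 n2) ⌈M ^ 2⌉₊, fun n hn hev X hX => ?_⟩
  have hn1 : n1 ≤ n := le_trans (le_trans (le_max_left _ _) (le_max_left _ _)) hn
  have hn2 : n2 ≤ n := le_trans (le_trans (le_max_right _ _) (le_max_left _ _)) hn
  have hn3 : M ^ 2 ≤ (n : ℝ) := by
    have : ⌈M ^ 2⌉₊ ≤ n := le_trans (le_max_right _ _) hn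
    exact (Nat.le_ceil _).trans (by exact_mod_cast this)
  by_contra hcon
  have hXbig : ε * (n : ℝ) ^ n ≤ (X.card : ℝ) := le_of_lt (not_le.mp hcon)
  obtain ⟨r, b, hr, hb, hrb, hq, hsum⟩ := hL n hn1 hev X hXbig
  set s : ℝ := Real.sqrt n with hs
  have hs2 : s * s = n := Real.mul_self_sqrt (by positivity)
  have hsM : M ≤ s := by
    rw [hs]; exact Real.le_sqrt_of_sq_le hn3
  have hs0 : 0 < s := lt_of_lt_of_le hMpos hsM
  have p1 : 0 < 2 / κ := by positivity
  have p2 : 0 < 10 * (6 * K + κ + 3) := by positivity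
  have p3 : 0 < 50000 / γ ^ 3 := by positivity
  have p4 : 0 < 32 / γ ^ 2 := by positivity
  have hsκ : 2 / κ ≤ s := by linarith
  have hκs : 2 ≤ κ * s := by
    rw [div_le_iff₀ hκ] at hsκ; linarith
  have hsK : 10 * (6 * K + κ + 3) ≤ s := by linarith
  have hsγ : 50000 / γ ^ 3 ≤ s := by linarith
  have hsγ2 : 32 / γ ^ 2 ≤ s := by linarith
  have hs1 : 1 ≤ s := by linarith
  set l : ℕ := ⌊κ * s⌋₊ with hl
  have hl1 : (l : ℝ) ≤ κ * s := Nat.floor_le (by positivity)
  have hl2 : κ * s < l + 1 := Nat.lt_floor_add_one _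
  rw [abs_le] at hr hb
  have hlb : l ≤ b := by
    have : (l : ℝ) ≤ b := by
      have : κ * s ≤ c * s := mul_le_mul_of_nonneg_right hκc hs0.le
      have hr0 : (0 : ℝ) ≤ r := by positivity
      linarith
    exact_mod_cast this
  obtain ⟨rp, hrp⟩ : ∃ rp, rp + l = b := ⟨b - l, by omega⟩
  have hrpR : (rp : ℝ) + l = b := by exact_mod_cast hrp
  have hrrpR : (r : ℝ) ≤ rp := by
    have : κ * s ≤ c * s := mul_le_mul_of_nonneg_right hκc hs0.le
    linarith
  have hrrp : r ≤ rp := by exact_mod_cast hrrpR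
  have hρ1 := rho_gt
  have hρ2 := rho_lt
  have hρn1 : 0.63 * (s * s) ≤ rho * n := by rw [← hs2]; nlinarith [mul_pos hs0 hs0]
  have hρn2 : rho * n ≤ 0.64 * (s * s) := by rw [← hs2]; nlinarith [mul_pos hs0 hs0]
  have hss : 10 * (6 * K + κ + 3) * s ≤ s * s := mul_le_mul_of_nonneg_right hsK hs0.le
  have hKs : 0 < K * s := by positivity
  have hκs0 : 0 < κ * s := by positivity
  have hss1 : s ≤ s * s := by
    have := mul_le_mul_of_nonneg_right hs1 hs0.le
    linarith
  have hss3 : 60 * (K * s) + 10 * (κ * s) + 30 * s ≤ s * s := by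
    have : 10 * (6 * K + κ + 3) * s = 60 * (K * s) + 10 * (κ * s) + 30 * s := by ring
    linarith
  have hr1 : 1 ≤ r := by
    have : (1 : ℝ) ≤ r := by linarith [hr.1]
    exact_mod_cast this
  have hrn : r + 1 ≤ n := by
    have : (r : ℝ) + 1 ≤ n := by rw [← hs2]; linarith [hr.2]
    exact_mod_cast this
  have hrpbig : 0.5 * (s * s) ≤ rp := by linarith [hb.1]
  have hrp2 : 2 * (rp - r) + 2 ≤ rp := by
    have h1 : 2 * ((rp : ℝ) - r) + 2 ≤ rp := by
      have : (0 : ℝ) ≤ l := by positivity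
      linarith [hb.1, hb.2, hr.1]
    have h2 : ((rp - r : ℕ) : ℝ) = (rp : ℝ) - r := by
      rw [Nat.cast_sub hrrp]
    have h3 : ((2 * (rp - r) + 2 : ℕ) : ℝ) ≤ (rp : ℝ) := by
      push_cast [Nat.cast_sub hrrp]; linarith
    exact_mod_cast h3
  have hnn : 32 / γ ^ 2 ≤ (n : ℝ) := by rw [← hs2]; linarith
  have hnpos : 0 < n := by
    have : (0 : ℝ) < n := by rw [← hs2]; positivity
    exact_mod_cast this
  have hnpow : (0 : ℝ) < (n : ℝ) ^ n := by positivity
  have hB0 : 0 < (Bd n b l).card := by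
    have : (0 : ℝ) < ((Bd n b l).card : ℝ) := lt_of_lt_of_le (by positivity) hq
    exact_mod_cast this
  refine core n r b l rp γ (c * s) X hX hγ hr1 hrn ?_ hrp hrrp hrp2 hnn hB0 hsum hPH hORD hLAB ?_
    (by positivity) hrb ?_
  · have : (r : ℝ) < b := by linarith [mul_pos hc hs0]
    exact_mod_cast this
  · -- the numerical condition
    have h1 : 4 * (2 * (l : ℝ)) / (c * s * (γ / 8)) ≤ γ / 64 := by
      rw [div_le_div_iff₀ (by positivity) (by norm_num)]
      have h3 : κ * s ≤ c * γ ^ 2 / 4096 * s := mul_le_mul_of_nonneg_right hκ2 hs0.le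
      calc 4 * (2 * (l : ℝ)) * 64 = 512 * (l : ℝ) := by ring
        _ ≤ 512 * (c * γ ^ 2 / 4096 * s) := by linarith
        _ = γ * (c * s * (γ / 8)) := by ring
    have hrp0 : (0 : ℝ) < rp := lt_of_lt_of_le (by positivity) hrpbig
    have h2 : 6 / ((rp : ℝ) * (γ / 8) * (γ / 8)) ≤ γ / 64 := by
      rw [div_le_div_iff₀ (by positivity) (by norm_num)]
      rw [div_le_iff₀ (by positivity)] at hsγ
      have h3 : 50000 ≤ (s * s) * γ ^ 3 := by
        have : s * γ ^ 3 ≤ (s * s) * γ ^ 3 := mul_le_mul_of_nonneg_right hss1 (by positivity)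
        linarith
      have h4 : 0.5 * (s * s) * γ ^ 3 ≤ rp * γ ^ 3 :=
        mul_le_mul_of_nonneg_right hrpbig (by positivity)
      have h5 : γ * ((rp : ℝ) * (γ / 8) * (γ / 8)) = rp * γ ^ 3 / 64 := by ring
      rw [h5]
      have h6 : 0.5 * (s * s) * γ ^ 3 = 0.5 * (s * s * γ ^ 3) := by ring
      rw [h6] at h4
      linarith
    linarith
  · intro Q hQ hQf A hA hAd
    refine hS n hn2 rp ?_ Q ?_ ?_ A hA hAd
    · rw [abs_le]
      have e1 : (K + κ) * Real.sqrt n = K * s + κ * s := by rw [hs]; ring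
      rw [e1]
      constructor
      · linarith [hb.1]
      · have : (0 : ℝ) ≤ l := by positivity
        linarith [hb.2]
    · have : γ / 16 * q0 * (n : ℝ) ^ n ≤ γ / 16 * ((Bd n b l).card : ℝ) := by
        rw [mul_assoc]
        exact mul_le_mul_of_nonneg_left hq (by positivity)
      linarith
    · intro f hf
      have h1 : (b : ℝ) ≤ rk f := by exact_mod_cast hQf f hf
      have h2 : κ / 2 * s ≤ l := by
        have : κ / 2 * s = κ * s / 2 := by ring
        rw [this]; linarith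
      show (rp : ℝ) + κ / 2 * s ≤ rk f
      linarith

end Pool.Agent.R341.SG
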