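import Mathlib

/-! SG-MT: agreements of two sign vectors. -/

set_option autoImplicit false

namespace Pool.Agent.R341.SG

open Finset

namespace MT

/-- number of agreements -/
def agr {a : ℕ} (p : (Fin a → Bool) × (Fin a → Bool)) : ℕ :=
  (univ.filter fun i => p.1 i = p.2 i).card

theorem agr_count (a j : ℕ) :
    (univ.filter fun p : (Fin a → Bool) × (Fin a → Bool) => agr p = j).card ≤
      2 ^ a * a.choose j := by
  calc (univ.filter fun p : (Fin a → Bool) × (Fin a → Bool) => agr p = j).card
      ≤ ((univ : Finset (Fin a → Bool)) ×ˢ powersetCard j (univ : Finset (Fin a))).card := by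
        refine card_le_card_of_injOn (fun p => (p.1, univ.filter fun i => p.1 i = p.2 i)) ?_ ?_
        · intro p hp
          have hp' : agr p = j := (mem_filter.1 hp).2
          refine mem_coe.2 (mem_product.2 ⟨mem_univ _, mem_powersetCard.2 ⟨subset_univ _, hp'⟩⟩)
        · rintro ⟨s, s'⟩ _ ⟨t, t'⟩ _ h
          simp only [Prod.mk.injEq] at h
          obtain ⟨rfl, h2⟩ := h
          have h3 : ∀ i, (s i = s' i ↔ s i = t' i) := by
            intro i
            have := Finset.ext_iff.1 h2 i
            simpa using this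
          have h4 : s' = t' := by
            funext i
            have := h3 i
            cases h5 : s i <;> cases h6 : s' i <;> cases h7 : t' i <;> simp_all
          rw [h4]
    _ = 2 ^ a * a.choose j := by
        rw [card_product, card_powersetCard, card_univ, card_univ, Fintype.card_fin,
          Fintype.card_fun, Fintype.card_bool, Fintype.card_fin]

/-- sign -/
noncomputable def sgn (b : Bool) : ℝ := if b = true then 1 else -1

theorem sgn_sq (b : Bool) : sgn b * sgn b = 1 := by
  cases b <;> simp [sgn]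

theorem sgn_not (b : Bool) : sgn (!b) = -sgn b := by
  cases b <;> simp [sgn]

theorem sgn_mul (b c : Bool) : sgn b * sgn c = 2 * (if b = c then (1 : ℝ) else 0) - 1 := by
  cases b <;> cases c <;> simp [sgn] <;> norm_num

theorem sum_sgn {a : ℕ} (i i' : Fin a) :
    ∑ s : Fin a → Bool, sgn (s i) * sgn (s i') = if i = i' then (2 : ℝ) ^ a else 0 := by
  classical
  split_ifs with h
  · subst h
    simp [sgn_sq]
  · refine Finset.sum_involution (fun s _ => Function.update s i (!s i)) ?_ ?_ ?_ ?_
    · intro s _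
      rw [Function.update_self, Function.update_of_ne (Ne.symm h), sgn_not]
      ring
    · intro s _ _ h2
      have := congrFun h2 i
      rw [Function.update_self] at this
      cases h3 : s i <;> simp [h3] at this
    · intro s _
      exact mem_univ _
    · intro s _
      simp

theorem agr_sgn {a : ℕ} (p : (Fin a → Bool) × (Fin a → Bool)) :
    2 * (agr p : ℝ) - a = ∑ i, sgn (p.1 i) * sgn (p.2 i) := by
  simp_rw [sgn_mul]
  rw [Finset.sum_sub_distrib, ← Finset.mul_sum, agr, Finset.card_filter]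
  push_cast
  simp

theorem second (a : ℕ) :
    ∑ p : (Fin a → Bool) × (Fin a → Bool), (2 * (agr p : ℝ) - a) ^ 2 = (4 : ℝ) ^ a * (a : ℝ) := by
  have e1 : ∀ p : (Fin a → Bool) × (Fin a → Bool), (2 * (agr p : ℝ) - a) ^ 2 =
      ∑ i, ∑ i', (sgn (p.1 i) * sgn (p.1 i')) * (sgn (p.2 i) * sgn (p.2 i')) := by
    intro p
    rw [agr_sgn, sq, Finset.sum_mul_sum]
    refine Finset.sum_congr rfl fun i _ => Finset.sum_congr rfl fun i' _ => ?_
    ring
  simp_rw [e1]
  rw [Finset.sum_comm]
  have e2 : ∀ i : Fin a, ∑ p : (Fin a → Bool) × (Fin a → Bool),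
      ∑ i', (sgn (p.1 i) * sgn (p.1 i')) * (sgn (p.2 i) * sgn (p.2 i')) = (4 : ℝ) ^ a := by
    intro i
    rw [Finset.sum_comm]
    have e3 : ∀ i' : Fin a, ∑ p : (Fin a → Bool) × (Fin a → Bool),
        (sgn (p.1 i) * sgn (p.1 i')) * (sgn (p.2 i) * sgn (p.2 i')) =
        if i = i' then (4 : ℝ) ^ a else 0 := by
      intro i'
      rw [Fintype.sum_prod_type]
      simp only
      rw [← Finset.sum_mul_sum, sum_sgn]
      split_ifs
      · rw [← mul_pow]; norm_num
      · simp
    simp_rw [e3]
    simp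
  simp_rw [e2]
  simp [mul_comm]

theorem tail (a : ℕ) (ha : 1 ≤ a) (K1 : ℝ) (hK : 0 ≤ K1) :
    ((univ.filter fun p : (Fin a → Bool) × (Fin a → Bool) =>
      ¬ |2 * (agr p : ℝ) - a| ≤ K1 * Real.sqrt a).card : ℝ) * K1 ^ 2 ≤ 4 ^ a := by
  have ha' : (0 : ℝ) < a := by exact_mod_cast ha
  have h1 : ((univ.filter fun p : (Fin a → Bool) × (Fin a → Bool) =>
      ¬ |2 * (agr p : ℝ) - a| ≤ K1 * Real.sqrt a).card : ℝ) * (K1 ^ 2 * a) ≤ 4 ^ a * a := by
    rw [← second a, ← nsmul_eq_mul, ← Finset.sum_const]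
    calc _ ≤ ∑ p ∈ univ.filter fun p : (Fin a → Bool) × (Fin a → Bool) =>
          ¬ |2 * (agr p : ℝ) - a| ≤ K1 * Real.sqrt a, (2 * (agr p : ℝ) - a) ^ 2 := by
          refine Finset.sum_le_sum fun p hp => ?_
          have h2 := (mem_filter.1 hp).2
          rw [not_le] at h2
          have h3 : K1 ^ 2 * a = (K1 * Real.sqrt a) ^ 2 := by
            rw [mul_pow, Real.sq_sqrt ha'.le]
          rw [h3, ← sq_abs (2 * (agr p : ℝ) - a)]
          exact pow_le_pow_left₀ (by positivity) h2.le 2
      _ ≤ _ := Finset.sum_le_sum_of_subset_of_nonneg (filter_subset _ _)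
          fun p _ _ => by positivity
  have h4 : (((univ.filter fun p : (Fin a → Bool) × (Fin a → Bool) =>
      ¬ |2 * (agr p : ℝ) - a| ≤ K1 * Real.sqrt a).card : ℝ) * K1 ^ 2) * a ≤ 4 ^ a * a := by
    linarith
  exact le_of_mul_le_mul_right h4 ha'

end MT

end Pool.Agent.R341.SG
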