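import Pool.Agent.R341.SG.MTBin
import Pool.Agent.R341.SG.MTAgr

/-! SG-MT: the invariant kernel. -/

set_option autoImplicit false

namespace Pool.Agent.R341.SG

open Finset

namespace MT

section kernel

variable {α : Type} [Fintype α] [DecidableEq α] {a : ℕ}

/-- the transversal -/
def Tr (u : Fin a × Bool → α) (s : Fin a → Bool) : Finset α := univ.image fun i => u (i, s i)

omit [Fintype α] in
theorem Tr_card (u : Fin a × Bool → α) (hu : Function.Injective u) (s : Fin a → Bool) :
    (Tr u s).card = a := by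
  rw [Tr, card_image_of_injective, card_univ, Fintype.card_fin]
  intro i i' h
  exact (Prod.mk.inj (hu h)).1

omit [Fintype α] in
theorem Tr_inter (u : Fin a × Bool → α) (hu : Function.Injective u)
    (p : (Fin a → Bool) × (Fin a → Bool)) : (Tr u p.1 ∩ Tr u p.2).card = agr p := by
  have : Tr u p.1 ∩ Tr u p.2 =
      (univ.filter fun i => p.1 i = p.2 i).image fun i => u (i, p.1 i) := by
    ext x
    simp only [Tr, mem_inter, mem_image, mem_univ, true_and, mem_filter]
    constructor
    · rintro ⟨⟨i, rfl⟩, ⟨i', h⟩⟩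
      obtain ⟨h3, h4⟩ := Prod.mk.inj (hu h)
      subst h3
      exact ⟨i', h4.symm, rfl⟩
    · rintro ⟨i, h, rfl⟩
      exact ⟨⟨i, rfl⟩, ⟨i, by rw [h]⟩⟩
  rw [this, card_image_of_injective, agr]
  intro i i' h
  exact (Prod.mk.inj (hu h)).1

omit [Fintype α] in
theorem Tr_map (u : Fin a × Bool → α) (s : Fin a → Bool) (π : Equiv.Perm α) :
    (Tr u s).map π.toEmbedding = univ.image fun i => π (u (i, s i)) := by
  rw [Tr, map_eq_image, image_image]
  rfl

/-- number of permutations -/
noncomputable def cnt (u : Fin a × Bool → α) (p : (Fin a → Bool) × (Fin a → Bool))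
    (A B : Finset α) : ℝ :=
  ∑ π : Equiv.Perm α, if (Tr u p.1).map π.toEmbedding = A ∧ (Tr u p.2).map π.toEmbedding = B
    then 1 else 0

/-- the kernel -/
noncomputable def Wk (u : Fin a × Bool → α) (Bk : Finset ((Fin a → Bool) × (Fin a → Bool)))
    (A B : Finset α) : ℝ := ∑ p ∈ Bk, cnt u p A B

theorem cnt_nonneg (u : Fin a × Bool → α) (p : (Fin a → Bool) × (Fin a → Bool))
    (A B : Finset α) : 0 ≤ cnt u p A B :=
  Finset.sum_nonneg fun π _ => by split_ifs <;> norm_num

theorem Wk_nonneg (u : Fin a × Bool → α) (Bk : Finset ((Fin a → Bool) × (Fin a → Bool)))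
    (A B : Finset α) : 0 ≤ Wk u Bk A B :=
  Finset.sum_nonneg fun p _ => cnt_nonneg u p A B

theorem cnt_swap (u : Fin a × Bool → α) (p : (Fin a → Bool) × (Fin a → Bool))
    (A B : Finset α) : cnt u p A B = cnt u p.swap B A := by
  unfold cnt
  refine Finset.sum_congr rfl fun π _ => ?_
  simp only [Prod.fst_swap, Prod.snd_swap, and_comm]

theorem Wk_symm (u : Fin a × Bool → α) (Bk : Finset ((Fin a → Bool) × (Fin a → Bool)))
    (hB : ∀ p ∈ Bk, p.swap ∈ Bk) (A B : Finset α) : Wk u Bk A B = Wk u Bk B A := by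
  unfold Wk
  refine Finset.sum_nbij' Prod.swap Prod.swap hB hB (fun p _ => Prod.swap_swap p)
    (fun p _ => Prod.swap_swap p) (fun p _ => cnt_swap u p A B)

theorem cnt_inv (u : Fin a × Bool → α) (p : (Fin a → Bool) × (Fin a → Bool))
    (A B : Finset α) (σ : Equiv.Perm α) :
    cnt u p (A.map σ.toEmbedding) (B.map σ.toEmbedding) = cnt u p A B := by
  unfold cnt
  symm
  refine Fintype.sum_equiv (Equiv.mulLeft σ) _ _ fun π => ?_
  have e : ∀ T : Finset α, T.map (Equiv.toEmbedding (Equiv.mulLeft σ π)) =
      (T.map π.toEmbedding).map σ.toEmbedding := by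
    intro T
    rw [map_map]
    rfl
  rw [e, e]
  simp only [(Finset.map_injective σ.toEmbedding).eq_iff]

theorem Wk_inv (u : Fin a × Bool → α) (Bk : Finset ((Fin a → Bool) × (Fin a → Bool)))
    (A B : Finset α) (σ : Equiv.Perm α) :
    Wk u Bk (A.map σ.toEmbedding) (B.map σ.toEmbedding) = Wk u Bk A B :=
  Finset.sum_congr rfl fun p _ => cnt_inv u p A B σ

omit [Fintype α] in
theorem ev (P : Finset (Finset α)) (A0 B0 : Finset α) (hA : A0 ∈ P) (hB : B0 ∈ P)
    (G : Finset α → Finset α → ℝ) :
    ∑ A ∈ P, ∑ B ∈ P, (if A0 = A ∧ B0 = B then (1 : ℝ) else 0) * G A B = G A0 B0 := by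
  rw [Finset.sum_eq_single A0, Finset.sum_eq_single B0]
  · simp
  · intro B _ hB2
    rw [if_neg (fun h => hB2 h.2.symm), zero_mul]
  · intro h; exact absurd hB h
  · intro A _ hA2
    refine Finset.sum_eq_zero fun B _ => ?_
    rw [if_neg (fun h => hA2 h.1.symm), zero_mul]
  · intro h; exact absurd hA h

theorem Wk_sum (u : Fin a × Bool → α) (hu : Function.Injective u)
    (Bk : Finset ((Fin a → Bool) × (Fin a → Bool))) (G : Finset α → Finset α → ℝ) :
    ∑ A ∈ powersetCard a univ, ∑ B ∈ powersetCard a univ, Wk u Bk A B * G A B =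
      ∑ p ∈ Bk, ∑ π : Equiv.Perm α,
        G ((Tr u p.1).map π.toEmbedding) ((Tr u p.2).map π.toEmbedding) := by
  have h1 : ∀ s (π : Equiv.Perm α),
      (Tr u s).map π.toEmbedding ∈ powersetCard a (univ : Finset α) := by
    intro s π
    rw [mem_powersetCard, card_map, Tr_card u hu]
    exact ⟨subset_univ _, rfl⟩
  calc ∑ A ∈ powersetCard a univ, ∑ B ∈ powersetCard a univ, Wk u Bk A B * G A B
      = ∑ A ∈ powersetCard a univ, ∑ B ∈ powersetCard a univ, ∑ p ∈ Bk, ∑ π : Equiv.Perm α,
          (if (Tr u p.1).map π.toEmbedding = A ∧ (Tr u p.2).map π.toEmbedding = B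
            then (1 : ℝ) else 0) * G A B := by
        refine Finset.sum_congr rfl fun A _ => Finset.sum_congr rfl fun B _ => ?_
        unfold Wk cnt
        rw [Finset.sum_mul]
        exact Finset.sum_congr rfl fun p _ => Finset.sum_mul _ _ _
    _ = ∑ A ∈ powersetCard a univ, ∑ p ∈ Bk, ∑ π : Equiv.Perm α,
          ∑ B ∈ powersetCard a univ,
          (if (Tr u p.1).map π.toEmbedding = A ∧ (Tr u p.2).map π.toEmbedding = B
            then (1 : ℝ) else 0) * G A B := by
        refine Finset.sum_congr rfl fun A _ => ?_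
        rw [Finset.sum_comm]
        exact Finset.sum_congr rfl fun p _ => Finset.sum_comm
    _ = ∑ p ∈ Bk, ∑ π : Equiv.Perm α, ∑ A ∈ powersetCard a univ,
          ∑ B ∈ powersetCard a univ,
          (if (Tr u p.1).map π.toEmbedding = A ∧ (Tr u p.2).map π.toEmbedding = B
            then (1 : ℝ) else 0) * G A B := by
        rw [Finset.sum_comm]
        exact Finset.sum_congr rfl fun p _ => Finset.sum_comm
    _ = _ := Finset.sum_congr rfl fun p _ => Finset.sum_congr rfl fun π _ =>
        ev _ _ _ (h1 _ _) (h1 _ _) G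

theorem cnt_le (u : Fin a × Bool → α) (hu : Function.Injective u)
    (p : (Fin a → Bool) × (Fin a → Bool)) (A B : Finset α) :
    cnt u p A B ≤ if agr p = (A ∩ B).card then
      (((A ∩ B).card.factorial * (a - (A ∩ B).card).factorial * ((a - (A ∩ B).card).factorial *
        (Fintype.card α + (A ∩ B).card - 2 * a).factorial) : ℕ) : ℝ) else 0 := by
  split_ifs with h
  · unfold cnt
    rw [Finset.sum_boole]
    rw [← h]
    exact_mod_cast card_two_le (Tr u p.1) (Tr u p.2) A B a (agr p) (Fintype.card α)
      (Tr_card u hu _) (Tr_card u hu _) (Tr_inter u hu p) rfl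
  · unfold cnt
    refine le_of_eq (Finset.sum_eq_zero fun π _ => ?_)
    rw [if_neg]
    rintro ⟨rfl, rfl⟩
    rw [← Finset.map_inter, card_map, Tr_inter u hu] at h
    exact h rfl

theorem Wk_le (u : Fin a × Bool → α) (hu : Function.Injective u) (K1 L : ℝ) (hL0 : 0 ≤ L)
    (n : ℕ) (hn : Fintype.card α = n) (h2 : 2 * a ≤ n)
    (hL : ∀ j : ℕ, j ≤ a → |2 * (j : ℝ) - a| ≤ K1 * Real.sqrt a → L ≤ ((n - a).choose (a - j) : ℝ))
    (A B : Finset α) (hA : A ∈ powersetCard a univ) :
    Wk u (univ.filter fun p => |2 * (agr p : ℝ) - a| ≤ K1 * Real.sqrt a) A B *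
      ((n.choose a : ℝ) * L) ≤ 2 ^ a * (n.factorial : ℝ) := by
  set j := (A ∩ B).card with hj
  have hja : j ≤ a := by
    rw [hj, ← (mem_powersetCard.1 hA).2]
    exact card_le_card inter_subset_left
  have hCn : (0 : ℝ) ≤ (n.choose a : ℝ) := Nat.cast_nonneg _
  by_cases hjb : |2 * (j : ℝ) - a| ≤ K1 * Real.sqrt a
  · have h3 : Wk u (univ.filter fun p => |2 * (agr p : ℝ) - a| ≤ K1 * Real.sqrt a) A B ≤
        (2 : ℝ) ^ a * (a.choose j : ℝ) * ((j.factorial * (a - j).factorial *
          ((a - j).factorial * (n + j - 2 * a).factorial) : ℕ) : ℝ) := by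
      unfold Wk
      calc _ ≤ ∑ p ∈ (univ.filter fun p : (Fin a → Bool) × (Fin a → Bool) =>
            |2 * (agr p : ℝ) - a| ≤ K1 * Real.sqrt a),
            (if agr p = j then ((j.factorial * (a - j).factorial *
              ((a - j).factorial * (n + j - 2 * a).factorial) : ℕ) : ℝ) else 0) := by
            refine Finset.sum_le_sum fun p _ => ?_
            have := cnt_le u hu p A B
            rw [← hj, hn] at this
            exact this
        _ ≤ ∑ p : (Fin a → Bool) × (Fin a → Bool),
            (if agr p = j then ((j.factorial * (a - j).factorial *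
              ((a - j).factorial * (n + j - 2 * a).factorial) : ℕ) : ℝ) else 0) := by
            refine Finset.sum_le_sum_of_subset_of_nonneg (filter_subset _ _) fun p _ _ => ?_
            split_ifs
            · exact Nat.cast_nonneg _
            · exact le_rfl
        _ = ((univ.filter fun p : (Fin a → Bool) × (Fin a → Bool) => agr p = j).card : ℝ) *
            ((j.factorial * (a - j).factorial *
              ((a - j).factorial * (n + j - 2 * a).factorial) : ℕ) : ℝ) := by
            rw [← Finset.sum_filter, Finset.sum_const, nsmul_eq_mul]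
        _ ≤ _ := by
            refine mul_le_mul_of_nonneg_right ?_ (Nat.cast_nonneg _)
            exact_mod_cast agr_count a j
    have h4 : 2 ^ a * a.choose j * (j.factorial * (a - j).factorial *
        ((a - j).factorial * (n + j - 2 * a).factorial)) * (n.choose a * (n - a).choose (a - j)) =
        2 ^ a * n.factorial := by
      have e1 := Nat.choose_mul_factorial_mul_factorial hja
      have e2 := Nat.choose_mul_factorial_mul_factorial (show a - j ≤ n - a by omega)
      have e3 := Nat.choose_mul_factorial_mul_factorial (show a ≤ n by omega)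
      have e4 : n - a - (a - j) = n + j - 2 * a := by omega
      rw [e4] at e2
      rw [← e3, ← e2, ← e1]
      ring
    have h5 : (2 : ℝ) ^ a * (a.choose j : ℝ) * ((j.factorial * (a - j).factorial *
          ((a - j).factorial * (n + j - 2 * a).factorial) : ℕ) : ℝ) *
          ((n.choose a : ℝ) * ((n - a).choose (a - j) : ℝ)) = 2 ^ a * (n.factorial : ℝ) := by
      exact_mod_cast h4
    rw [← h5]
    refine mul_le_mul h3 (mul_le_mul_of_nonneg_left (hL j hja hjb) hCn) (by positivity)
      (by positivity)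
  · have h3 : Wk u (univ.filter fun p => |2 * (agr p : ℝ) - a| ≤ K1 * Real.sqrt a) A B = 0 := by
      unfold Wk
      refine Finset.sum_eq_zero fun p hp => ?_
      refine le_antisymm ?_ (cnt_nonneg _ _ _ _)
      refine (cnt_le u hu p A B).trans ?_
      rw [if_neg]
      intro h
      rw [← hj] at h
      have h6 := (mem_filter.1 hp).2
      rw [h] at h6
      exact hjb h6
    rw [h3, zero_mul]
    positivity

end kernel

end MT

end Pool.Agent.R341.SG
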