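import Pool.Agent.R341.SG.Stm
import Pool.Agent.R341.SG.MTKer

/-! SG-MT: transversals of a random matching. -/

set_option autoImplicit false

namespace Pool.Agent.R341.SG

open Finset

namespace MT

theorem core (h : SR2) {α : Type} [Fintype α] [DecidableEq α] (a n : ℕ)
    (hn : Fintype.card α = n)
    (ha : 1 ≤ a) (h2 : 2 * a + 2 ≤ n) (u : Fin a × Bool → α) (hu : Function.Injective u)
    (D : Finset (Finset α)) (hD : D ⊆ powersetCard a univ) (g : ℝ) (hg : 0 < g)
    (hgA : g * (n.choose a : ℝ) ≤ (D.card : ℝ)) (K1 L ε : ℝ) (hK1 : 0 < K1) (hL0 : 0 < L)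
    (hε : 0 ≤ ε)
    (hL : ∀ j : ℕ, j ≤ a → |2 * (j : ℝ) - a| ≤ K1 * Real.sqrt a → L ≤ ((n - a).choose (a - j) : ℝ))
    (hfin : 3 * (2 : ℝ) ^ n ≤ ε ^ 2 * n * (2 ^ a * L)) :
    (((univ : Finset (Equiv.Perm α)).filter fun π => ∀ s : Fin a → Bool,
      (univ.image fun i => π (u (i, s i))) ∉ D).card : ℝ) * g ^ 2 ≤
      (ε + 1 / K1 ^ 2) * (n.factorial : ℝ) := by
  classical
  have hn0 : (0 : ℝ) < n := by
    have : 0 < n := by omega
    exact_mod_cast this
  have hnf : (0 : ℝ) < (n.factorial : ℝ) := by exact_mod_cast Nat.factorial_pos n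
  set C : ℝ := (n.choose a : ℝ) with hC
  have hC0 : 0 < C := by
    rw [hC]
    exact_mod_cast Nat.choose_pos (show a ≤ n by omega)
  have hPc : ((powersetCard a (univ : Finset α)).card : ℝ) = C := by
    rw [card_powersetCard, card_univ, hn]
  have hDC : (D.card : ℝ) ≤ C := by
    rw [← hPc]
    exact_mod_cast card_le_card hD
  set gb : ℝ := (D.card : ℝ) / C with hgb
  have hgb0 : g ≤ gb := by rw [hgb, le_div_iff₀ hC0]; exact hgA
  have hgb1 : gb ≤ 1 := by rw [hgb, div_le_one hC0]; exact hDC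
  set F : Finset α → ℝ := fun A => (if A ∈ D then (1 : ℝ) else 0) - gb with hF
  have hF1 : ∀ A, |F A| ≤ 1 := by
    intro A
    simp only [hF]
    rw [abs_le]
    split_ifs <;> constructor <;> linarith
  have hF0 : ∑ A ∈ powersetCard a univ, F A = 0 := by
    simp only [hF]
    rw [Finset.sum_sub_distrib, Finset.sum_const, nsmul_eq_mul, hPc, hgb,
      mul_div_cancel₀ _ hC0.ne', Finset.sum_ite_mem, inter_eq_right.2 hD]
    simp
  have hF2 : ∑ A ∈ powersetCard a univ, F A ^ 2 ≤ C := by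
    calc ∑ A ∈ powersetCard a univ, F A ^ 2 ≤ ∑ A ∈ powersetCard a (univ : Finset α), (1 : ℝ) := by
          refine Finset.sum_le_sum fun A _ => ?_
          rw [← sq_abs]
          exact pow_le_one₀ (abs_nonneg _) (hF1 A)
      _ = C := by rw [Finset.sum_const, nsmul_eq_mul, hPc, mul_one]
  have hF20 : 0 ≤ ∑ A ∈ powersetCard a (univ : Finset α), F A ^ 2 :=
    Finset.sum_nonneg fun A _ => sq_nonneg _
  set Bk : Finset ((Fin a → Bool) × (Fin a → Bool)) :=
    univ.filter fun p => |2 * (agr p : ℝ) - a| ≤ K1 * Real.sqrt a with hBk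
  have hswap : ∀ p ∈ Bk, p.swap ∈ Bk := by
    intro p hp
    have e : agr p.swap = agr p := by
      unfold agr
      congr 1
      ext i
      simp [eq_comm]
    rw [hBk, mem_filter] at hp ⊢
    rw [e]
    exact ⟨mem_univ _, hp.2⟩
  have hcardP : Fintype.card (Equiv.Perm α) = n.factorial := by rw [Fintype.card_perm, hn]
  have hcardS : (Fintype.card ((Fin a → Bool) × (Fin a → Bool)) : ℝ) = 4 ^ a := by
    rw [Fintype.card_prod, Fintype.card_fun, Fintype.card_bool, Fintype.card_fin]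
    push_cast
    rw [← mul_pow]
    norm_num
  have hBkc : (Bk.card : ℝ) ≤ 4 ^ a := by
    rw [← hcardS]
    exact_mod_cast card_le_univ Bk
  -- the kernel
  set S1 : ℝ := ∑ A ∈ powersetCard a univ, ∑ B ∈ powersetCard a univ, Wk u Bk A B with hS1
  have hS1' : S1 ≤ 4 ^ a * (n.factorial : ℝ) := by
    have h3 := Wk_sum u hu Bk (fun _ _ => (1 : ℝ))
    simp only [mul_one] at h3
    rw [hS1, h3]
    simp only [Finset.sum_const, nsmul_eq_mul, mul_one, card_univ, hcardP]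
    exact mul_le_mul_of_nonneg_right hBkc hnf.le
  set S2 : ℝ := ∑ A ∈ powersetCard a univ, ∑ B ∈ powersetCard a univ, Wk u Bk A B ^ 2 with hS2
  have hS20 : 0 ≤ S2 := Finset.sum_nonneg fun A _ => Finset.sum_nonneg fun B _ => sq_nonneg _
  have hS2' : S2 * (C * L) ≤ (2 ^ a * (n.factorial : ℝ)) * (4 ^ a * (n.factorial : ℝ)) := by
    calc S2 * (C * L) = ∑ A ∈ powersetCard a univ, ∑ B ∈ powersetCard a univ,
          Wk u Bk A B * (Wk u Bk A B * (C * L)) := by
          rw [hS2, Finset.sum_mul]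
          refine Finset.sum_congr rfl fun A _ => ?_
          rw [Finset.sum_mul]
          refine Finset.sum_congr rfl fun B _ => ?_
          ring
      _ ≤ ∑ A ∈ powersetCard a univ, ∑ B ∈ powersetCard a univ,
          Wk u Bk A B * (2 ^ a * (n.factorial : ℝ)) := by
          refine Finset.sum_le_sum fun A hA => Finset.sum_le_sum fun B _ => ?_
          exact mul_le_mul_of_nonneg_left
            (Wk_le u hu K1 L hL0.le n hn (by omega) hL A B hA) (Wk_nonneg _ _ _ _)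
      _ = S1 * (2 ^ a * (n.factorial : ℝ)) := by
          rw [hS1, Finset.sum_mul]
          refine Finset.sum_congr rfl fun A _ => ?_
          rw [Finset.sum_mul]
      _ ≤ _ := by
          rw [mul_comm]
          exact mul_le_mul_of_nonneg_left hS1' (by positivity)
  set Q : ℝ := ∑ A ∈ powersetCard a univ, ∑ B ∈ powersetCard a univ,
    Wk u Bk A B * F A * F B with hQ
  have hSR : Q ^ 2 ≤ S2 / ((n : ℝ) / 3) * C ^ 2 := by
    have h3 := h α a (by rw [hn]; exact h2) (Wk u Bk) (Wk_symm u Bk hswap)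
      (fun A B π => Wk_inv u Bk A B π) F hF0
    rw [hn] at h3
    refine h3.trans ?_
    exact mul_le_mul_of_nonneg_left (pow_le_pow_left₀ hF20 hF2 2) (by positivity)
  have hCn : C ≤ 2 ^ n := by
    rw [hC]
    exact_mod_cast Nat.choose_le_two_pow n a
  have hQ1 : |Q| ≤ ε * 4 ^ a * (n.factorial : ℝ) := by
    refine abs_le_of_sq_le_sq ?_ (by positivity)
    have h4 : Q ^ 2 * (L * n) ≤ (ε * 4 ^ a * (n.factorial : ℝ)) ^ 2 * (L * n) := by
      calc Q ^ 2 * (L * n) ≤ (S2 / ((n : ℝ) / 3) * C ^ 2) * (L * n) :=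
            mul_le_mul_of_nonneg_right hSR (by positivity)
        _ = 3 * C * (S2 * (C * L)) := by field_simp
        _ ≤ 3 * C * ((2 ^ a * (n.factorial : ℝ)) * (4 ^ a * (n.factorial : ℝ))) :=
            mul_le_mul_of_nonneg_left hS2' (by positivity)
        _ ≤ 3 * 2 ^ n * ((2 ^ a * (n.factorial : ℝ)) * (4 ^ a * (n.factorial : ℝ))) := by
            gcongr
        _ ≤ (ε ^ 2 * n * (2 ^ a * L)) *
            ((2 ^ a * (n.factorial : ℝ)) * (4 ^ a * (n.factorial : ℝ))) :=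
            mul_le_mul_of_nonneg_right hfin (by positivity)
        _ = (ε * 4 ^ a * (n.factorial : ℝ)) ^ 2 * (L * n) := by
            have e : (4 : ℝ) ^ a = 2 ^ a * 2 ^ a := by rw [← mul_pow]; norm_num
            rw [e]
            ring
    exact le_of_mul_le_mul_right h4 (by positivity)
  have hQ2 : Q = ∑ p ∈ Bk, ∑ π : Equiv.Perm α,
      F ((Tr u p.1).map π.toEmbedding) * F ((Tr u p.2).map π.toEmbedding) := by
    rw [← Wk_sum u hu Bk (fun A B => F A * F B), hQ]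
    refine Finset.sum_congr rfl fun A _ => Finset.sum_congr rfl fun B _ => ?_
    ring
  -- the tail
  have htail : (((univ.filter fun p : (Fin a → Bool) × (Fin a → Bool) =>
      ¬ |2 * (agr p : ℝ) - a| ≤ K1 * Real.sqrt a).card : ℕ) : ℝ) ≤ 1 / K1 ^ 2 * 4 ^ a := by
    have h3 := tail a ha K1 hK1.le
    rw [one_div, inv_mul_eq_div, le_div_iff₀ (by positivity)]
    exact h3
  -- the second moment
  set Y : Equiv.Perm α → ℝ := fun π => ∑ s : Fin a → Bool, F ((Tr u s).map π.toEmbedding) with hY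
  have hYsum : ∑ π, Y π ^ 2 ≤ (ε + 1 / K1 ^ 2) * (n.factorial : ℝ) * 4 ^ a := by
    have e1 : ∑ π, Y π ^ 2 = ∑ p : (Fin a → Bool) × (Fin a → Bool), ∑ π : Equiv.Perm α,
        F ((Tr u p.1).map π.toEmbedding) * F ((Tr u p.2).map π.toEmbedding) := by
      rw [Finset.sum_comm]
      refine Finset.sum_congr rfl fun π _ => ?_
      simp only [hY]
      rw [sq, Finset.sum_mul_sum, Fintype.sum_prod_type]
    rw [e1, ← Finset.sum_filter_add_sum_filter_not univ
      (fun p : (Fin a → Bool) × (Fin a → Bool) => |2 * (agr p : ℝ) - a| ≤ K1 * Real.sqrt a),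
      ← hBk, ← hQ2]
    have e2 : ∑ p ∈ univ.filter (fun p : (Fin a → Bool) × (Fin a → Bool) =>
        ¬ |2 * (agr p : ℝ) - a| ≤ K1 * Real.sqrt a), ∑ π : Equiv.Perm α,
        F ((Tr u p.1).map π.toEmbedding) * F ((Tr u p.2).map π.toEmbedding) ≤
        1 / K1 ^ 2 * 4 ^ a * (n.factorial : ℝ) := by
      calc _ ≤ ∑ p ∈ univ.filter (fun p : (Fin a → Bool) × (Fin a → Bool) =>
            ¬ |2 * (agr p : ℝ) - a| ≤ K1 * Real.sqrt a), ∑ π : Equiv.Perm α, (1 : ℝ) := by
            refine Finset.sum_le_sum fun p _ => Finset.sum_le_sum fun π _ => ?_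
            refine (le_abs_self _).trans ?_
            rw [abs_mul]
            exact mul_le_one₀ (hF1 _) (abs_nonneg _) (hF1 _)
        _ = ((univ.filter (fun p : (Fin a → Bool) × (Fin a → Bool) =>
            ¬ |2 * (agr p : ℝ) - a| ≤ K1 * Real.sqrt a)).card : ℝ) * (n.factorial : ℝ) := by
            simp only [Finset.sum_const, nsmul_eq_mul, mul_one, card_univ, hcardP]
        _ ≤ _ := mul_le_mul_of_nonneg_right htail hnf.le
    have e3 : Q ≤ ε * 4 ^ a * (n.factorial : ℝ) := (le_abs_self _).trans hQ1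
    linarith
  have hbad : (((univ : Finset (Equiv.Perm α)).filter fun π => ∀ s : Fin a → Bool,
      (univ.image fun i => π (u (i, s i))) ∉ D).card : ℝ) * (g ^ 2 * 4 ^ a) ≤ ∑ π, Y π ^ 2 := by
    rw [← nsmul_eq_mul, ← Finset.sum_const]
    refine le_trans (Finset.sum_le_sum fun π hπ => ?_)
      (Finset.sum_le_sum_of_subset_of_nonneg (filter_subset _ _) fun π _ _ => sq_nonneg _)
    have h3 := (mem_filter.1 hπ).2
    have h4 : Y π = -(gb * 2 ^ a) := by
      simp only [hY, hF]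
      have h5 : ∀ s : Fin a → Bool, (if (Tr u s).map π.toEmbedding ∈ D then (1 : ℝ) else 0) = 0 := by
        intro s
        rw [if_neg]
        rw [Tr_map]
        exact h3 s
      simp_rw [h5]
      rw [Finset.sum_const, card_univ, Fintype.card_fun, Fintype.card_bool, Fintype.card_fin,
        nsmul_eq_mul]
      push_cast
      ring
    rw [h4]
    have e : (4 : ℝ) ^ a = 2 ^ a * 2 ^ a := by rw [← mul_pow]; norm_num
    have h6 : g ^ 2 ≤ gb ^ 2 := pow_le_pow_left₀ hg.le hgb0 2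
    calc g ^ 2 * 4 ^ a ≤ gb ^ 2 * 4 ^ a := mul_le_mul_of_nonneg_right h6 (by positivity)
      _ = (-(gb * 2 ^ a)) ^ 2 := by rw [e]; ring
  have h7 : ((((univ : Finset (Equiv.Perm α)).filter fun π => ∀ s : Fin a → Bool,
      (univ.image fun i => π (u (i, s i))) ∉ D).card : ℝ) * g ^ 2) * 4 ^ a ≤
      ((ε + 1 / K1 ^ 2) * (n.factorial : ℝ)) * 4 ^ a := by
    refine le_trans (le_of_eq ?_) (hbad.trans hYsum)
    ring
  exact le_of_mul_le_mul_right h7 (by positivity)

end MT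

/-- SG-MT. -/
theorem mt (h : SR2) : SMT := by
  intro g δ K hg hδ hK
  set ε : ℝ := g ^ 2 * δ / 2 with hε
  have hε0 : 0 < ε := by positivity
  set K1 : ℝ := 1 + 1 / ε with hK1
  have hK10 : 1 ≤ K1 := by
    have : 0 < 1 / ε := by positivity
    rw [hK1]; linarith
  have hK12 : 1 / K1 ^ 2 ≤ ε := by
    have h3 : 1 / ε ≤ K1 ^ 2 := by nlinarith
    rw [div_le_iff₀ hε0] at h3
    rw [div_le_iff₀ (by positivity)]
    linarith
  have hB : 0 < K1 + 2 * K := by linarith
  obtain ⟨c, hc, N0, hN0⟩ := MT.choose_lower hB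
  refine ⟨N0 + ⌈K ^ 2⌉₊ + ⌈(3 / (c * ε ^ 2)) ^ 2⌉₊ + 2, ?_⟩
  intro m a hm ham hmK α _ _ hα u hu A hA hgA
  have hmR1 : K ^ 2 + 1 ≤ m := by
    have h3 : ⌈K ^ 2⌉₊ + 1 ≤ m := by omega
    have h4 : ((⌈K ^ 2⌉₊ : ℕ) : ℝ) + 1 ≤ m := by exact_mod_cast h3
    linarith [Nat.le_ceil (K ^ 2)]
  have hmR2 : (3 / (c * ε ^ 2)) ^ 2 ≤ m := by
    have h3 : ⌈(3 / (c * ε ^ 2)) ^ 2⌉₊ ≤ m := by omega
    exact (Nat.le_ceil _).trans (by exact_mod_cast h3)
  have hm0 : (0 : ℝ) < m := by nlinarith [sq_nonneg K]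
  have ha : 1 ≤ a := by
    by_contra ha0
    have ha1 : a = 0 := by omega
    rw [ha1] at hmK
    have h3 : (m : ℝ) ≤ K * Real.sqrt m := by simpa using hmK
    have h4 := Real.sq_sqrt hm0.le
    have h5 := Real.sqrt_pos.2 hm0
    have h6 : Real.sqrt m ≤ K := by nlinarith
    nlinarith
  have hNa : ((2 * m - a : ℕ) : ℝ) = 2 * m - a := by
    rw [Nat.cast_sub (by omega)]; push_cast; ring
  have hamR : (a : ℝ) + 1 ≤ m := by exact_mod_cast ham
  have hsq0 : 0 < Real.sqrt ((2 * m - a : ℕ) : ℝ) := by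
    apply Real.sqrt_pos.2
    rw [hNa]; linarith
  have ha0 : (0 : ℝ) ≤ a := Nat.cast_nonneg a
  have hc0 := MT.core h a (2 * m) hα ha (by omega) u hu A hA g hg hgA K1
    (c * (2 ^ (2 * m - a) / Real.sqrt ((2 * m - a : ℕ) : ℝ))) ε (by linarith) (by positivity)
    hε0.le ?_ ?_
  · have h3 : (ε + 1 / K1 ^ 2) * ((2 * m).factorial : ℝ) ≤ (g ^ 2 * δ) * ((2 * m).factorial : ℝ) := by
      refine mul_le_mul_of_nonneg_right ?_ (Nat.cast_nonneg _)
      linarith
    have h4 := hc0.trans h3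
    have h5 : ((((univ : Finset (Equiv.Perm α)).filter fun π => ∀ s : Fin a → Bool,
      (univ.image fun i => π (u (i, s i))) ∉ A).card : ℝ)) * g ^ 2 ≤
      (δ * ((2 * m).factorial : ℝ)) * g ^ 2 := by linarith
    exact le_of_mul_le_mul_right h5 (by positivity)
  · intro j hj hjb
    refine hN0 (2 * m - a) (by omega) (a - j) (by omega) ?_
    rw [hNa, Nat.cast_sub hj]
    have e : (2 : ℝ) * (a - j) - (2 * m - a) = -((2 * (j : ℝ) - a) + 2 * (m - a)) := by ring
    rw [e, abs_neg]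
    have h3 : |2 * ((m : ℝ) - a)| ≤ 2 * K * Real.sqrt m := by
      rw [abs_of_nonneg (by linarith)]
      linarith
    have h4 : Real.sqrt a ≤ Real.sqrt (2 * m - a) := Real.sqrt_le_sqrt (by linarith)
    have h5 : Real.sqrt m ≤ Real.sqrt (2 * m - a) := Real.sqrt_le_sqrt (by linarith)
    calc |(2 * (j : ℝ) - a) + 2 * (m - a)| ≤ |2 * (j : ℝ) - a| + |2 * ((m : ℝ) - a)| :=
          abs_add_le _ _
      _ ≤ K1 * Real.sqrt a + 2 * K * Real.sqrt m := add_le_add hjb h3
      _ ≤ K1 * Real.sqrt (2 * m - a) + 2 * K * Real.sqrt (2 * m - a) := by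
          gcongr
      _ = (K1 + 2 * K) * Real.sqrt (2 * m - a) := by ring
  · have hn0 : (0 : ℝ) < ((2 * m : ℕ) : ℝ) := by push_cast; linarith
    have hs := Real.sqrt_pos.2 hn0
    have hss := Real.sq_sqrt hn0.le
    have h3 : Real.sqrt ((2 * m - a : ℕ) : ℝ) ≤ Real.sqrt ((2 * m : ℕ) : ℝ) :=
      Real.sqrt_le_sqrt (by exact_mod_cast Nat.sub_le _ _)
    have h4 : 3 / (c * ε ^ 2) ≤ Real.sqrt ((2 * m : ℕ) : ℝ) := by
      apply Real.le_sqrt_of_sq_le
      refine hmR2.trans ?_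
      push_cast
      linarith
    rw [div_le_iff₀ (by positivity)] at h4
    have e : (2 : ℝ) ^ a * (c * (2 ^ (2 * m - a) / Real.sqrt ((2 * m - a : ℕ) : ℝ))) =
        c * 2 ^ (2 * m) / Real.sqrt ((2 * m - a : ℕ) : ℝ) := by
      have : (2 : ℝ) ^ (2 * m) = 2 ^ a * 2 ^ (2 * m - a) := by
        rw [← pow_add]; congr 1; omega
      rw [this]; ring
    rw [e]
    have h5 : c * 2 ^ (2 * m) / Real.sqrt ((2 * m : ℕ) : ℝ) ≤
        c * 2 ^ (2 * m) / Real.sqrt ((2 * m - a : ℕ) : ℝ) :=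
      div_le_div_of_nonneg_left (by positivity) hsq0 h3
    calc 3 * (2 : ℝ) ^ (2 * m) ≤ (Real.sqrt ((2 * m : ℕ) : ℝ) * (c * ε ^ 2)) * 2 ^ (2 * m) :=
          mul_le_mul_of_nonneg_right h4 (by positivity)
      _ = ε ^ 2 * (Real.sqrt ((2 * m : ℕ) : ℝ) ^ 2) *
          (c * 2 ^ (2 * m) / Real.sqrt ((2 * m : ℕ) : ℝ)) := by
          field_simp
      _ = ε ^ 2 * ((2 * m : ℕ) : ℝ) * (c * 2 ^ (2 * m) / Real.sqrt ((2 * m : ℕ) : ℝ)) := by
          rw [hss]
      _ ≤ _ := mul_le_mul_of_nonneg_left h5 (by positivity)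

end Pool.Agent.R341.SG
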