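import Mathlib

/-!
SG-MT: transversals of a random matching.  The binomial estimates are copied from
`Pool.Agent.TH977.LL.Bin`.
-/

set_option autoImplicit false

namespace Pool.Agent.R341.SG

open Finset

namespace MT

theorem cb_lower (n : ℕ) : 16 ^ (n + 1) ≤ 4 * (n + 1) * (Nat.centralBinom (n + 1)) ^ 2 := by
  induction n with
  | zero => simp [Nat.centralBinom]
  | succ n ih =>
    have h := Nat.succ_mul_centralBinom_succ (n + 1)
    have h2 : (n + 2) ^ 2 * 16 ^ (n + 2) ≤ (n + 2) ^ 2 * (4 * (n + 2) * (Nat.centralBinom (n + 2)) ^ 2) := by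
      calc (n + 2) ^ 2 * 16 ^ (n + 2) = 16 * (n + 2) ^ 2 * 16 ^ (n + 1) := by ring
        _ ≤ 16 * (n + 2) ^ 2 * (4 * (n + 1) * (Nat.centralBinom (n + 1)) ^ 2) := Nat.mul_le_mul_left _ ih
        _ = 16 * (n + 2) * ((n + 2) * (4 * (n + 1))) * (Nat.centralBinom (n + 1)) ^ 2 := by ring
        _ ≤ 16 * (n + 2) * (2 * (n + 1) + 1) ^ 2 * (Nat.centralBinom (n + 1)) ^ 2 := by
            apply Nat.mul_le_mul_right
            apply Nat.mul_le_mul_left
            nlinarith
        _ = 4 * (n + 2) * (2 * (2 * (n + 1) + 1) * Nat.centralBinom (n + 1)) ^ 2 := by ring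
        _ = 4 * (n + 2) * ((n + 1 + 1) * Nat.centralBinom (n + 1 + 1)) ^ 2 := by rw [h]
        _ = _ := by ring
    exact Nat.le_of_mul_le_mul_left h2 (by positivity)

theorem mid_lower (n : ℕ) : 4 ^ n ≤ 2 * (n + 1) * (n.choose (n / 2)) ^ 2 := by
  rcases Nat.even_or_odd' n with ⟨a, rfl | rfl⟩
  · rw [Nat.mul_div_cancel_left a (by norm_num)]
    have e : (4 : ℕ) ^ (2 * a) = 16 ^ a := by rw [pow_mul]; norm_num
    rw [e]
    rcases a with _ | a
    · simp
    · have h := cb_lower a
      rw [Nat.centralBinom] at h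
      nlinarith [Nat.zero_le (((2 * (a + 1)).choose (a + 1)) ^ 2)]
  · have h := cb_lower a
    have e0 : (2 * a + 1) / 2 = a := by omega
    have e1 : Nat.centralBinom (a + 1) = 2 * (2 * a + 1).choose a := by
      rw [Nat.centralBinom, show 2 * (a + 1) = (2 * a + 1) + 1 by ring, Nat.choose_succ_succ]
      have : (2 * a + 1).choose (a + 1) = (2 * a + 1).choose a := by
        rw [← Nat.choose_symm (by omega : a + 1 ≤ 2 * a + 1)]
        congr 1
        omega
      rw [this]
      ring
    rw [e0]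
    rw [e1] at h
    have e2 : (16 : ℕ) ^ (a + 1) = 4 * 4 ^ (2 * a + 1) := by
      rw [show (16 : ℕ) = 4 ^ 2 by norm_num, ← pow_mul, ← pow_succ']
      congr 1
    rw [e2] at h
    nlinarith

/-- moving from the middle -/
theorem choose_move {n : ℕ} {x : ℝ} (hx0 : 0 ≤ x) (hx : x ≤ 1 / 2) (D : ℕ)
    (hD : (2 * D + 1 : ℝ) ≤ x * ((n / 2 : ℕ) + 1)) : ∀ i : ℕ, i ≤ D →
    (n.choose (n / 2) : ℝ) * Real.exp (-(2 * x * i)) ≤ n.choose (n / 2 + i) := by
  intro i
  induction i with
  | zero => intro _; simp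
  | succ i ih =>
    intro hi
    have h := ih (by omega)
    have h1 : n.choose (n / 2 + (i + 1)) * (n / 2 + i + 1) = n.choose (n / 2 + i) * (n - (n / 2 + i)) := by
      rw [← add_assoc]
      exact Nat.choose_succ_right_eq n (n / 2 + i)
    have hh : n / 2 + i ≤ n - (n / 2 + i) + (2 * i) := by omega
    set h0 := n / 2 with hh0
    have h2 : (n.choose (h0 + (i + 1)) : ℝ) * (h0 + i + 1) = n.choose (h0 + i) * ((n - (h0 + i) : ℕ) : ℝ) := by
      exact_mod_cast h1
    have h3 : ((h0 : ℝ) + i) ≤ ((n - (h0 + i) : ℕ) : ℝ) + 2 * i := by exact_mod_cast hh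
    have hpos : (0 : ℝ) < h0 + i + 1 := by positivity
    have hiD : (i : ℝ) + 1 ≤ D := by exact_mod_cast hi
    have h4 : (1 - x) * (h0 + i + 1) ≤ ((n - (h0 + i) : ℕ) : ℝ) := by
      have h5 : x * ((h0 : ℝ) + 1) ≤ x * (h0 + i + 1) := by
        apply mul_le_mul_of_nonneg_left _ hx0
        have : (0 : ℝ) ≤ i := Nat.cast_nonneg i
        linarith
      nlinarith
    have h6 : Real.exp (-(2 * x)) ≤ 1 - x := by
      have h7 : Real.exp (-(2 * x)) ≤ 1 - 2 * x + (2 * x) ^ 2 / 2 := by
        have h8 := Real.one_sub_le_exp_neg (2 * x)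
        have h9 : 1 + 2 * x + (2 * x) ^ 2 / 2 ≤ Real.exp (2 * x) :=
          Real.quadratic_le_exp_of_nonneg (by linarith)
        rw [Real.exp_neg]
        rw [inv_le_comm₀ (Real.exp_pos _) (by nlinarith)]
        refine le_trans ?_ h9
        rw [inv_le_comm₀ (by nlinarith) (by positivity)]
        rw [inv_eq_one_div, div_le_iff₀ (by positivity)]
        nlinarith [sq_nonneg (x ^ 2)]
      nlinarith
    have h7 : (n.choose (h0 + i) : ℝ) * Real.exp (-(2 * x)) ≤ n.choose (h0 + (i + 1)) := by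
      have h8 : (n.choose (h0 + i) : ℝ) * (1 - x) * (h0 + i + 1) ≤
          (n.choose (h0 + (i + 1)) : ℝ) * (h0 + i + 1) := by
        rw [h2, mul_assoc]
        exact mul_le_mul_of_nonneg_left h4 (Nat.cast_nonneg _)
      have h9 := le_of_mul_le_mul_right h8 hpos
      exact (mul_le_mul_of_nonneg_left h6 (Nat.cast_nonneg _)).trans h9
    have hexp : Real.exp (-(2 * x * ((i + 1 : ℕ) : ℝ))) = Real.exp (-(2 * x * i)) * Real.exp (-(2 * x)) := by
      rw [← Real.exp_add]
      congr 1
      push_cast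
      ring
    calc (n.choose h0 : ℝ) * Real.exp (-(2 * x * ((i + 1 : ℕ) : ℝ)))
        = (n.choose h0 : ℝ) * Real.exp (-(2 * x * i)) * Real.exp (-(2 * x)) := by
          rw [hexp]; ring
      _ ≤ (n.choose (h0 + i) : ℝ) * Real.exp (-(2 * x)) :=
          mul_le_mul_of_nonneg_right h (Real.exp_pos _).le
      _ ≤ _ := h7

theorem choose_lower {B : ℝ} (hB : 0 < B) : ∃ c : ℝ, 0 < c ∧ ∃ N0 : ℕ, ∀ n : ℕ, N0 ≤ n → ∀ j : ℕ, j ≤ n →
    |(2 : ℝ) * j - n| ≤ B * Real.sqrt n → c * (2 ^ n / Real.sqrt n) ≤ n.choose j := by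
  refine ⟨Real.exp (-(12 * (B + 2) ^ 2)) / 2, by positivity, ⌈(16 * (B + 2)) ^ 2⌉₊ + 4, ?_⟩
  intro n hn
  -- first for `j ≥ n / 2`
  have key : ∀ j : ℕ, j ≤ n → n / 2 ≤ j → |(2 : ℝ) * j - n| ≤ B * Real.sqrt n →
      Real.exp (-(12 * (B + 2) ^ 2)) / 2 * (2 ^ n / Real.sqrt n) ≤ n.choose j := by
    intro j hjn hj hjB
    have hnR : (16 * (B + 2)) ^ 2 ≤ n := by
      have h1 : ⌈(16 * (B + 2)) ^ 2⌉₊ ≤ n := by omega
      exact (Nat.le_ceil _).trans (by exact_mod_cast h1)
    have hn4 : (4 : ℝ) ≤ n := by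
      have : 4 ≤ n := by omega
      exact_mod_cast this
    have hn0 : (0 : ℝ) < n := by linarith
    set s := Real.sqrt n with hs
    have hs0 : 0 < s := Real.sqrt_pos.2 hn0
    have hss : s ^ 2 = n := Real.sq_sqrt hn0.le
    have hsB : 16 * (B + 2) ≤ s := Real.le_sqrt_of_sq_le hnR
    obtain ⟨i, rfl⟩ : ∃ i, j = n / 2 + i := ⟨j - n / 2, by omega⟩
    have hdiv : n ≤ 2 * (n / 2) + 1 := by omega
    have hdiv' : 2 * (n / 2) ≤ n := by omega
    set h0 := n / 2 with hh0
    have hdR : (n : ℝ) ≤ 2 * h0 + 1 := by exact_mod_cast hdiv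
    have hdR' : (2 : ℝ) * h0 ≤ n := by exact_mod_cast hdiv'
    have hiB : 2 * (i : ℝ) ≤ B * s + 1 := by
      have h1 := (abs_le.1 hjB).2
      push_cast at h1
      linarith
    set x : ℝ := (2 * i + 1) / (h0 + 1) with hx
    have hh1 : (0 : ℝ) < (h0 : ℝ) + 1 := by positivity
    have hx0 : 0 ≤ x := by positivity
    have hxle : x ≤ 2 * (B + 2) / s := by
      rw [hx, div_le_div_iff₀ hh1 hs0]
      have h2 : 2 * (i : ℝ) + 1 ≤ (B + 2) * s := by nlinarith
      have h3 : s * s ≤ 2 * ((h0 : ℝ) + 1) := by nlinarith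
      nlinarith
    have hx12 : x ≤ 1 / 2 := by
      refine hxle.trans ?_
      rw [div_le_div_iff₀ hs0 (by norm_num)]
      linarith
    have hm := choose_move (n := n) hx0 hx12 i (by rw [hx, ← hh0, div_mul_cancel₀ _ hh1.ne']) i le_rfl
    rw [← hh0] at hm
    refine le_trans ?_ hm
    have hexp : Real.exp (-(12 * (B + 2) ^ 2)) ≤ Real.exp (-(2 * x * i)) := by
      apply Real.exp_le_exp.2
      have h2 : (i : ℝ) ≤ (B + 2) * s := by nlinarith
      have h3 : x * i ≤ 2 * (B + 2) / s * ((B + 2) * s) :=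
        mul_le_mul hxle h2 (Nat.cast_nonneg _) (by positivity)
      have h4 : 2 * (B + 2) / s * ((B + 2) * s) = 2 * (B + 2) ^ 2 := by field_simp
      rw [h4] at h3
      nlinarith [sq_nonneg (B + 2)]
    have hmid : 2 ^ n / s / 2 ≤ (n.choose h0 : ℝ) := by
      have h2 : (4 : ℝ) ^ n ≤ 2 * (n + 1) * (n.choose h0 : ℝ) ^ 2 := by exact_mod_cast mid_lower n
      apply le_of_sq_le_sq _ (Nat.cast_nonneg _)
      rw [div_pow, div_pow, hss, ← pow_mul, mul_comm n 2, pow_mul]
      rw [div_div, div_le_iff₀ (by positivity)]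
      have e : ((2 : ℝ) ^ 2) ^ n = 4 ^ n := by norm_num
      rw [e]
      refine h2.trans ?_
      have h5 : 0 ≤ (n.choose h0 : ℝ) ^ 2 := by positivity
      nlinarith
    calc Real.exp (-(12 * (B + 2) ^ 2)) / 2 * (2 ^ n / s)
        = (2 ^ n / s / 2) * Real.exp (-(12 * (B + 2) ^ 2)) := by ring
      _ ≤ (n.choose h0 : ℝ) * Real.exp (-(2 * x * i)) :=
          mul_le_mul hmid hexp (Real.exp_pos _).le (Nat.cast_nonneg _)
  intro j hjn hjB
  rcases le_or_gt (n / 2) j with h | h
  · exact key j hjn h hjB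
  · rw [← Nat.choose_symm hjn]
    apply key (n - j) (by omega) (by omega)
    rw [Nat.cast_sub hjn]
    have e : (2 : ℝ) * (n - j) - n = -(2 * j - n) := by ring
    rw [e, abs_neg]
    exact hjB

section perm

variable {α : Type} [Fintype α] [DecidableEq α]

theorem card_comp_le {ι : Type} [Fintype ι] [DecidableEq ι] (f g : α → ι) :
    (univ.filter fun π : Equiv.Perm α => g ∘ π = f).card ≤
      ∏ i, (Fintype.card {a // f a = i}).factorial := by
  classical
  rcases (univ.filter fun π : Equiv.Perm α => g ∘ π = f).eq_empty_or_nonempty with h | ⟨π0, h0⟩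
  · rw [h]; simp
  · rw [← DomMulAct.stabilizer_card f, Fintype.card_subtype]
    have h0' : g ∘ π0 = f := (mem_filter.1 h0).2
    refine Finset.card_le_card_of_injOn (fun π => π0⁻¹ * π) ?_ ?_
    · intro π hπ
      have hπ' : g ∘ π = f := (mem_filter.1 hπ).2
      refine mem_coe.2 (mem_filter.2 ⟨mem_univ _, ?_⟩)
      funext x
      have h1 := congrFun h0' (π0.symm (π x))
      simp only [Function.comp_apply, Equiv.apply_symm_apply] at h1
      have h2 := congrFun hπ' x
      simp only [Function.comp_apply] at h2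
      change f (π0.symm (π x)) = f x
      rw [← h1, h2]
    · intro a _ b _ h
      exact mul_left_cancel h

theorem card_two_le (T T' A B : Finset α) (a j n : ℕ) (hT : T.card = a) (hT' : T'.card = a)
    (hj : (T ∩ T').card = j) (hn : Fintype.card α = n) :
    (univ.filter fun π : Equiv.Perm α => T.map π.toEmbedding = A ∧
      T'.map π.toEmbedding = B).card ≤
      j.factorial * (a - j).factorial * ((a - j).factorial * (n + j - 2 * a).factorial) := by
  classical
  set f : α → Bool × Bool := fun x => (decide (x ∈ T), decide (x ∈ T')) with hf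
  set g : α → Bool × Bool := fun x => (decide (x ∈ A), decide (x ∈ B)) with hg
  have h1 : (univ.filter fun π : Equiv.Perm α => T.map π.toEmbedding = A ∧
      T'.map π.toEmbedding = B) ⊆ univ.filter fun π : Equiv.Perm α => g ∘ π = f := by
    intro π hπ
    obtain ⟨-, rfl, rfl⟩ := mem_filter.1 hπ
    refine mem_filter.2 ⟨mem_univ _, ?_⟩
    funext x
    simp [hf, hg]
  refine (card_le_card h1).trans ((card_comp_le f g).trans (le_of_eq ?_))
  have c1 : Fintype.card {x // f x = (true, true)} = j := by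
    rw [Fintype.card_subtype, ← hj]
    congr 1
    ext x
    simp [hf]
  have c2 : Fintype.card {x // f x = (true, false)} = a - j := by
    have : (T \ T').card = a - j := by
      have := card_sdiff_add_card_inter T T'
      omega
    rw [Fintype.card_subtype, ← this]
    congr 1
    ext x
    simp [hf]
  have c3 : Fintype.card {x // f x = (false, true)} = a - j := by
    have : (T' \ T).card = a - j := by
      have := card_sdiff_add_card_inter T' T
      rw [inter_comm] at this
      omega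
    rw [Fintype.card_subtype, ← this]
    congr 1
    ext x
    simp [hf, and_comm]
  have c4 : Fintype.card {x // f x = (false, false)} = n + j - 2 * a := by
    have : ((T ∪ T')ᶜ).card = n + j - 2 * a := by
      have h2 := card_union_add_card_inter T T'
      have h3 := card_compl (T ∪ T')
      have h4 := card_le_univ (T ∪ T')
      omega
    rw [Fintype.card_subtype, ← this]
    congr 1
    ext x
    simp [hf]
  rw [Fintype.prod_prod_type]
  simp only [Fintype.prod_bool]
  rw [c1, c2, c3, c4]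

end perm

end MT

end Pool.Agent.R341.SG
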