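import Mathlib
import Pool.Agent.R341.SG.Stm

/-!
# Piece SG-MTF of project SG (MP_2b9fb5_al): the matching lemma for a fixed status vector
-/

namespace Pool.Agent.R341.SG

open Finset Pool.Agent.R341.SG

noncomputable section

namespace MtfAux

lemma sum_perm {n k : ℕ} {wt : (Fin n → Fin n) → (Fin n → Fin 3) → ℝ} (h : IsWt n k wt)
    (b : Fin n → Fin 3) (π : Equiv.Perm (Fin n)) (hπ : b ∘ π = b) (F : (Fin n → Fin n) → ℝ) :
    ∑ f : Fin n → Fin n, wt f b * F f = ∑ f : Fin n → Fin n, wt f b * F (f ∘ π) := by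
  rw [← (Equiv.arrowCongr π.symm (Equiv.refl (Fin n))).sum_comp
    (fun f : Fin n → Fin n => wt f b * F f)]
  refine Finset.sum_congr rfl fun f _ => ?_
  have e1 : (Equiv.arrowCongr π.symm (Equiv.refl (Fin n))) f = f ∘ π := by
    funext x; simp
  rw [e1]
  have e2 : wt (f ∘ π) b = wt f b := by
    conv_lhs => rw [← hπ]
    exact h.equiv f b π
  rw [e2]

/-- the live elements -/
abbrev LL {n : ℕ} (b : Fin n → Fin 3) : Type := {x // x ∈ St b 1}

/-- extension of a permutation of the live elements -/
def ext {n : ℕ} (b : Fin n → Fin 3) (π : Equiv.Perm (LL b)) : Equiv.Perm (Fin n) :=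
  Equiv.Perm.ofSubtype π

lemma ext_in {n : ℕ} (b : Fin n → Fin 3) (π : Equiv.Perm (LL b)) (x : LL b) :
    ext b π x = π x := Equiv.Perm.ofSubtype_apply_coe π x

lemma ext_out {n : ℕ} (b : Fin n → Fin 3) (π : Equiv.Perm (LL b)) (x : Fin n) (hx : b x ≠ 1) :
    ext b π x = x := by
  refine Equiv.Perm.ofSubtype_apply_of_not_mem π ?_
  simpa [St] using hx

lemma ext_b {n : ℕ} (b : Fin n → Fin 3) (π : Equiv.Perm (LL b)) : b ∘ ext b π = b := by
  funext x
  simp only [Function.comp_apply]
  by_cases hx : b x = 1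
  · have hm : x ∈ St b 1 := by simpa [St] using hx
    have h1 : ext b π x = π ⟨x, hm⟩ := ext_in b π ⟨x, hm⟩
    rw [h1, hx]
    exact (Finset.mem_filter.mp (π ⟨x, hm⟩).2).2
  · rw [ext_out b π x hx]

/-- the image of the live elements has half their number -/
lemma card_img {n : ℕ} (f : Fin n → Fin n) (b : Fin n → Fin 3) (hc : Compat f b) (m : ℕ)
    (hm : (St b 1).card = 2 * m) : ((St b 1).image f).card = m := by
  classical
  have h1 := Finset.card_eq_sum_card_image f (St b 1)
  have h2 : ∀ v ∈ (St b 1).image f, ((St b 1).filter fun x => f x = v).card = 2 := by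
    intro v hv
    rw [Finset.mem_image] at hv
    obtain ⟨x, hx, rfl⟩ := hv
    have hbx : b x = 1 := by simpa [St] using hx
    obtain ⟨y, hy, hby, hfy, hz⟩ := hc.2 x hbx
    have e : (St b 1).filter (fun z => f z = f x) = {x, y} := by
      ext z
      simp only [Finset.mem_filter, Finset.mem_insert, Finset.mem_singleton, St, Finset.mem_univ,
        true_and]
      constructor
      · rintro ⟨h3, h4⟩
        exact hz z h3 h4
      · rintro (rfl | rfl)
        · exact ⟨hbx, rfl⟩
        · exact ⟨hby, hfy⟩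
    rw [e, Finset.card_pair (Ne.symm hy)]
  rw [Finset.sum_congr rfl h2, Finset.sum_const, smul_eq_mul, hm] at h1
  omega

/-- the pairs -/
lemma pairs {n : ℕ} (f : Fin n → Fin n) (b : Fin n → Fin 3) (hc : Compat f b) (m a t : ℕ)
    (hm : (St b 1).card = 2 * m) (hat : a + t + 1 ≤ m) (Z : Finset (Fin n)) (hZ : Z.card ≤ t) :
    ∃ (w : Fin a → Fin n) (u : Fin a × Bool → LL b), Function.Injective w ∧
      Function.Injective u ∧ (∀ p, f (u p) = w p.1) ∧ ∀ i, ∀ z ∈ St b 2 ∩ Z, f z ≠ w i := by
  classical
  have h1 := card_img f b hc m hm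
  obtain ⟨V, hV⟩ : ∃ V, V = (St b 1).image f \ (St b 2 ∩ Z).image f := ⟨_, rfl⟩
  have h2 : a ≤ V.card := by
    have h3 := Finset.le_card_sdiff ((St b 2 ∩ Z).image f) ((St b 1).image f)
    have h4 : ((St b 2 ∩ Z).image f).card ≤ t :=
      Finset.card_image_le.trans ((Finset.card_le_card Finset.inter_subset_right).trans hZ)
    rw [← hV, h1] at h3
    omega
  let w : Fin a → Fin n := V.orderEmbOfCardLe h2
  have hwV : ∀ i, w i ∈ V := fun i => Finset.orderEmbOfCardLe_mem V h2 i
  have hw : ∀ i, ∃ x y : LL b, f x = w i ∧ f y = w i ∧ x ≠ y := by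
    intro i
    have h5 := hwV i
    rw [hV, Finset.mem_sdiff, Finset.mem_image] at h5
    obtain ⟨⟨x, hx, hfx⟩, -⟩ := h5
    have hbx : b x = 1 := by simpa [St] using hx
    obtain ⟨y, hy, hby, hfy, -⟩ := hc.2 x hbx
    have hym : y ∈ St b 1 := by simpa [St] using hby
    refine ⟨⟨x, hx⟩, ⟨y, hym⟩, hfx, by rw [← hfx]; exact hfy, ?_⟩
    intro e
    exact hy (congrArg Subtype.val e).symm
  choose X Y hX hY hXY using hw
  refine ⟨w, fun p => if p.2 = true then X p.1 else Y p.1, (V.orderEmbOfCardLe h2).injective, ?_,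
    ?_, ?_⟩
  · rintro ⟨i, β⟩ ⟨j, β'⟩ h
    have hf : w i = w j := by
      have h6 := congrArg (fun x : LL b => f x) h
      simp only at h6
      cases β <;> cases β' <;> simp [hX, hY] at h6 <;> exact h6
    have hij : i = j := (V.orderEmbOfCardLe h2).injective hf
    subst hij
    cases β <;> cases β' <;> simp at h ⊢
    · exact (hXY i h.symm).elim
    · exact (hXY i h).elim
  · rintro ⟨i, β⟩
    cases β <;> simp [hX, hY]
  · intro i z hz e
    have h5 := hwV i
    rw [hV, Finset.mem_sdiff] at h5
    exact h5.2 (Finset.mem_image.mpr ⟨z, hz, e⟩)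

end MtfAux

open MtfAux in
open Classical in
theorem mtf (h : SMT) : SMTF := by
  intro g δ K hg hδ hK t
  obtain ⟨m0, hm0⟩ := h g δ K hg hδ hK
  refine ⟨m0, fun n k wt hwt b m a hL hm hat hma Z hZ A hA hgA => ?_⟩
  -- the family on the type of live elements
  let A' : Finset (Finset (LL b)) :=
    univ.filter fun D' => D'.map (Function.Embedding.subtype _) ∈ A
  have hA'1 : A' ⊆ powersetCard a univ := by
    intro D' hD'
    rw [Finset.mem_powersetCard]
    refine ⟨Finset.subset_univ _, ?_⟩
    have h1 := hA (Finset.mem_filter.mp hD').2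
    rw [Finset.mem_powersetCard, Finset.card_map] at h1
    exact h1.2
  have hA'2 : A.card ≤ A'.card := by
    have h1 : A ⊆ A'.image fun D' => D'.map (Function.Embedding.subtype _) := by
      intro D hD
      rw [Finset.mem_image]
      have h2 : (D.subtype (fun x => x ∈ St b 1)).map (Function.Embedding.subtype _) = D := by
        rw [Finset.subtype_map, Finset.filter_true_of_mem]
        intro x hx
        exact (Finset.mem_powersetCard.mp (hA hD)).1 hx
      exact ⟨D.subtype (fun x => x ∈ St b 1),
        Finset.mem_filter.mpr ⟨Finset.mem_univ _, by rw [h2]; exact hD⟩, h2⟩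
    exact (Finset.card_le_card h1).trans Finset.card_image_le
  have hgA' : g * ((2 * m).choose a : ℝ) ≤ (A'.card : ℝ) :=
    hgA.trans (by exact_mod_cast hA'2)
  have hcardL : Fintype.card (LL b) = 2 * m := by
    rw [Fintype.card_coe, hL]
  -- the indicator of the bad maps
  let Bad : (Fin n → Fin n) → Prop := fun f =>
    Set.InjOn f (St b 2 ∩ Z : Finset (Fin n)) ∧
      ∀ D ∈ A, ¬ Set.InjOn f ((St b 2 ∩ Z) ∪ D : Finset (Fin n))
  let ind : (Fin n → Fin n) → ℝ := fun f => if Bad f then 1 else 0
  have hT : ∀ π : Equiv.Perm (LL b), ∑ f : Fin n → Fin n, wt f b * ind f =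
      ∑ f : Fin n → Fin n, wt f b * ind (f ∘ ext b π) := fun π =>
    sum_perm hwt b (ext b π) (ext_b b π) ind
  -- the count for one map
  have hcount : ∀ f : Fin n → Fin n, wt f b ≠ 0 →
      ∑ π : Equiv.Perm (LL b), ind (f ∘ ext b π) ≤ δ * ((2 * m).factorial : ℝ) := by
    intro f hf
    obtain ⟨w, u, hwi, hui, huw, hzw⟩ := pairs f b (hwt.compat f b hf) m a t hL hat Z hZ
    have h1 := hm0 m a hm (by omega) hma (LL b) hcardL u hui A' hA'1 hgA'
    have h2 : ∑ π : Equiv.Perm (LL b), ind (f ∘ ext b π) =
        (((univ : Finset (Equiv.Perm (LL b))).filter fun π => Bad (f ∘ ext b π)).card : ℝ) := by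
      simp only [ind]
      rw [Finset.sum_boole]
    rw [h2]
    refine le_trans ?_ h1
    have h3 : ((univ : Finset (Equiv.Perm (LL b))).filter fun π => Bad (f ∘ ext b π)).card ≤
        ((univ : Finset (Equiv.Perm (LL b))).filter fun π => ∀ s : Fin a → Bool,
          (univ.image fun i => π (u (i, s i))) ∉ A').card := by
      refine Finset.card_le_card_of_injOn (fun π => π⁻¹) ?_ (fun _ _ _ _ e => inv_injective e)
      intro π hπ
      have hπ' : Bad (f ∘ ext b π) := (Finset.mem_filter.mp (Finset.mem_coe.mp hπ)).2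
      obtain ⟨k1, k2⟩ := hπ'
      refine Finset.mem_coe.mpr (Finset.mem_filter.mpr ⟨Finset.mem_univ _, fun s hs => ?_⟩)
      have hs' := (Finset.mem_filter.mp hs).2
      apply k2 _ hs'
      have v1 : ∀ z ∈ St b 2 ∩ Z, (f ∘ ext b π) z = f z := by
        intro z hz
        simp only [Function.comp_apply]
        rw [ext_out]
        have : b z = 2 := by
          have := (Finset.mem_inter.mp hz).1
          simpa [St] using this
        rw [this]; decide
      have v2 : ∀ i : Fin a, (f ∘ ext b π) ((π⁻¹ (u (i, s i)) : LL b) : Fin n) = w i := by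
        intro i
        simp only [Function.comp_apply]
        rw [ext_in]
        simp [huw]
      intro x hx y hy hxy
      rw [Finset.mem_coe, Finset.mem_union] at hx hy
      rcases hx with hx | hx
      · rcases hy with hy | hy
        · exact k1 (Finset.mem_coe.mpr hx) (Finset.mem_coe.mpr hy) hxy
        · exfalso
          rw [Finset.mem_map] at hy
          obtain ⟨y', hy', rfl⟩ := hy
          rw [Finset.mem_image] at hy'
          obtain ⟨i, -, rfl⟩ := hy'
          have e1 := v2 i
          have e2 := v1 x hx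
          rw [e2] at hxy
          exact hzw i x hx (hxy.trans e1)
      · rw [Finset.mem_map] at hx
        obtain ⟨x', hx', rfl⟩ := hx
        rw [Finset.mem_image] at hx'
        obtain ⟨i, -, rfl⟩ := hx'
        rcases hy with hy | hy
        · exfalso
          have e1 := v2 i
          have e2 := v1 y hy
          rw [e2] at hxy
          exact hzw i y hy (hxy.symm.trans e1)
        · rw [Finset.mem_map] at hy
          obtain ⟨y', hy', rfl⟩ := hy
          rw [Finset.mem_image] at hy'
          obtain ⟨j, -, rfl⟩ := hy'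
          have e1 := v2 i
          have e2 := v2 j
          have e3 : w i = w j := e1.symm.trans (hxy.trans e2)
          rw [hwi e3]
    convert (Nat.cast_le (α := ℝ)).mpr h3
  -- averaging
  have hfact : ((2 * m).factorial : ℝ) * ∑ f : Fin n → Fin n, wt f b * ind f ≤
      ((2 * m).factorial : ℝ) * (δ * ∑ f : Fin n → Fin n, wt f b) := by
    calc ((2 * m).factorial : ℝ) * ∑ f : Fin n → Fin n, wt f b * ind f
        = ∑ _π : Equiv.Perm (LL b), ∑ f : Fin n → Fin n, wt f b * ind f := by
          rw [Finset.sum_const, Finset.card_univ, Fintype.card_perm, hcardL, nsmul_eq_mul]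
      _ = ∑ π : Equiv.Perm (LL b), ∑ f : Fin n → Fin n, wt f b * ind (f ∘ ext b π) :=
          Finset.sum_congr rfl fun π _ => hT π
      _ = ∑ f : Fin n → Fin n, wt f b * ∑ π : Equiv.Perm (LL b), ind (f ∘ ext b π) := by
          rw [Finset.sum_comm]
          exact Finset.sum_congr rfl fun f _ => by rw [Finset.mul_sum]
      _ ≤ ∑ f : Fin n → Fin n, wt f b * (δ * ((2 * m).factorial : ℝ)) := by
          refine Finset.sum_le_sum fun f _ => ?_
          by_cases hf : wt f b = 0
          · rw [hf, zero_mul, zero_mul]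
          · exact mul_le_mul_of_nonneg_left (hcount f hf) (hwt.nonneg f b)
      _ = ((2 * m).factorial : ℝ) * (δ * ∑ f : Fin n → Fin n, wt f b) := by
          rw [← Finset.sum_mul]; ring
  have hpos : (0 : ℝ) < ((2 * m).factorial : ℝ) := by
    exact_mod_cast Nat.factorial_pos _
  have hfin := le_of_mul_le_mul_left hfact hpos
  refine le_trans (le_of_eq ?_) hfin
  rw [Finset.sum_filter]
  refine Finset.sum_congr rfl fun f _ => ?_
  simp only [ind, mul_ite, mul_one, mul_zero]
  rfl

end

end Pool.Agent.R341.SG
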