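import Mathlib
import Pool.Agent.R341.SG.Ind

namespace Pool.Agent.R341.SG

open Finset

theorem even_live {n : ℕ} (f : Fin n → Fin n) (b : Fin n → Fin 3) (h : Compat f b) :
    ∃ m, (St b 1).card = 2 * m := by
  classical
  refine ⟨((St b 1).image f).card, ?_⟩
  rw [card_eq_sum_card_image f (St b 1)]
  have : ∀ y ∈ (St b 1).image f, ((St b 1).filter fun x => f x = y).card = 2 := by
    intro y hy
    obtain ⟨x, hx, rfl⟩ := mem_image.mp hy
    have hbx : b x = 1 := by simpa [St] using hx
    obtain ⟨x', hne, hb', hf', hall⟩ := h.2 x hbx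
    have : ((St b 1).filter fun z => f z = f x) = {x, x'} := by
      ext z
      simp only [St, mem_filter, mem_univ, true_and, mem_insert, mem_singleton]
      constructor
      · rintro ⟨h1, h2⟩
        exact hall z h1 h2
      · rintro (rfl | rfl)
        · exact ⟨hbx, rfl⟩
        · exact ⟨hb', hf'⟩
    rw [this, card_pair hne.symm]
  rw [sum_congr rfl this, sum_const, smul_eq_mul, mul_comm]

theorem card_three {n : ℕ} (b : Fin n → Fin 3) :
    (St b 0).card + (St b 1).card + (St b 2).card = n := by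
  classical
  have h := card_eq_sum_card_fiberwise (f := b) (s := (univ : Finset (Fin n)))
    (t := (univ : Finset (Fin 3))) (fun _ _ => mem_univ _)
  rw [card_univ, Fintype.card_fin, Fin.sum_univ_three] at h
  exact h.symm

theorem disj_bs {n : ℕ} (b : Fin n → Fin 3) (Z D : Finset (Fin n)) (hD : D ⊆ St b 1) :
    Disjoint (bs b Z) D := by
  rw [Finset.disjoint_left]
  intro x hx hxD
  have h1 : b x = 1 := by simpa [St] using hD hxD
  rw [bs, mem_union, mem_sdiff, mem_inter] at hx
  rcases hx with ⟨h2, _⟩ | ⟨h2, _⟩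
  · have : b x = 0 := by simpa [St] using h2
    rw [h1] at this; exact absurd this (by decide)
  · have : b x = 2 := by simpa [St] using h2
    rw [h1] at this; exact absurd this (by decide)

theorem card_bs {n t : ℕ} (b : Fin n → Fin 3) (Z : Finset (Fin n)) (hZ : Z.card ≤ t) :
    (bs b Z).card ≤ (St b 0).card + t ∧ (St b 0).card ≤ (bs b Z).card + t := by
  constructor
  · calc (bs b Z).card ≤ (St b 0 \ Z).card + (St b 2 ∩ Z).card := card_union_le _ _
      _ ≤ (St b 0).card + Z.card :=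
        Nat.add_le_add (card_le_card sdiff_subset) (card_le_card inter_subset_right)
      _ ≤ _ := Nat.add_le_add_left hZ _
  · calc (St b 0).card ≤ (St b 0 \ Z).card + Z.card := by
          have := le_card_sdiff Z (St b 0)
          omega
      _ ≤ (bs b Z).card + t := Nat.add_le_add (card_le_card subset_union_left) hZ

theorem choose_a {n : ℕ} (L : Finset (Fin n)) (p : Finset (Fin n) → Prop) [DecidablePred p] (g : ℝ)
    (h : g * 2 ^ L.card ≤ (((powerset L).filter p).card : ℝ)) :
    ∃ a, a ≤ L.card ∧ g * (L.card.choose a : ℝ) ≤ (((powersetCard a L).filter p).card : ℝ) := by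
  classical
  by_contra hno
  push_neg at hno
  have h1 : (((powerset L).filter p).card : ℝ) =
      ∑ a ∈ range (L.card + 1), (((powersetCard a L).filter p).card : ℝ) := by
    have := card_eq_sum_card_fiberwise (f := fun D : Finset (Fin n) => D.card)
      (s := (powerset L).filter p) (t := range (L.card + 1)) (by
        intro D hD
        have hD' : D ∈ (powerset L).filter p := hD
        rw [mem_filter, mem_powerset] at hD'
        have := card_le_card hD'.1
        exact_mod_cast mem_range.mpr (Nat.lt_succ_of_le this))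
    rw [this]
    push_cast
    refine sum_congr rfl fun a _ => ?_
    congr 2
    ext D
    simp only [mem_filter, mem_powerset, mem_powersetCard]
    tauto
  have h2 : (2 : ℝ) ^ L.card = ∑ a ∈ range (L.card + 1), (L.card.choose a : ℝ) := by
    exact_mod_cast (Nat.sum_range_choose L.card).symm
  rw [h1, h2, mul_sum] at h
  have h3 : ∑ a ∈ range (L.card + 1), (((powersetCard a L).filter p).card : ℝ) <
      ∑ a ∈ range (L.card + 1), g * (L.card.choose a : ℝ) := by
    apply sum_lt_sum_of_nonempty ⟨0, by simp⟩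
    intro a ha
    exact hno a (by have := mem_range.mp ha; omega)
  linarith

/-- injectivity on the determined part -/
theorem inj_bs {n : ℕ} (f : Fin n → Fin n) (b : Fin n → Fin 3) (h : Compat f b)
    (Z D : Finset (Fin n))
    (hinj : Set.InjOn f ((St b 2 ∩ Z) ∪ D : Finset (Fin n))) :
    Set.InjOn f ((bs b Z ∪ D : Finset (Fin n)) : Set (Fin n)) := by
  intro x hx y hy hxy
  have hcase : ∀ z ∈ ((bs b Z ∪ D : Finset (Fin n)) : Set (Fin n)),
      b z = 0 ∨ z ∈ (((St b 2 ∩ Z) ∪ D : Finset (Fin n)) : Set (Fin n)) := by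
    intro z hz
    have hz' : z ∈ bs b Z ∪ D := hz
    rw [mem_union, bs, mem_union, mem_sdiff] at hz'
    rcases hz' with (h1 | h1) | h1
    · left; simpa [St] using h1.1
    · right
      have : z ∈ (St b 2 ∩ Z) ∪ D := mem_union_left _ h1
      exact this
    · right
      have : z ∈ (St b 2 ∩ Z) ∪ D := mem_union_right _ h1
      exact this
  rcases hcase x hx with h1 | h1
  · exact (h.1 x h1 y hxy.symm).symm
  · rcases hcase y hy with h2 | h2
    · exact h.1 y h2 x hxy
    · exact hinj h1 h2 hxy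

theorem star (hPOI : SPOI) (hST : SST) (hWT : SWT) (hTR : STR) (hCONC : SCONC) (hCOL : SCOL)
    (hMTF : SMTF) : SSTAR := by
  classical
  intro α η c K hα hη hc hK
  obtain ⟨η', hη', n1, hPOI⟩ := hPOI η (c / 2) K hη (by positivity) hK
  obtain ⟨C, hC, n2, hTR⟩ := hTR (c / 16) (α / 8) (by positivity) (by positivity)
  obtain ⟨g, t, hg, hST⟩ := hST η' (α / (8 * C)) hη' (by positivity)
  obtain ⟨n3, hCOL⟩ := hCOL t (α / 8) (1 / 20) (by positivity) (by norm_num)
  obtain ⟨C0, hC0, hCONC⟩ := hCONC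
  -- the deviation parameter
  obtain ⟨t0, ht0, ht0'⟩ : ∃ t0 : ℝ, 0 < t0 ∧ C0 / t0 ^ 2 ≤ α / 16 := by
    refine ⟨Real.sqrt (16 * C0 / α), Real.sqrt_pos.mpr (by positivity), ?_⟩
    rw [Real.sq_sqrt (by positivity)]
    apply le_of_eq
    field_simp
  obtain ⟨m0, hMTF⟩ := hMTF g (α / 8) (2 * (t0 + K) + 1) hg (by positivity) (by positivity) t
  -- how large n has to be
  set M : ℝ := 100 * (t0 + K + c + t + m0 + 1) + 8 * (2 * t + 1) / (3 * c) + 16 / c + 16 with hM
  have hMpos : 0 < M := by positivity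
  refine ⟨max (max (max n1 n2) n3) ⌈M ^ 2⌉₊, fun n hn r hr Q hQ hQr A hA hAd => ?_⟩
  have hn1 : n1 ≤ n := by omega
  have hn2 : n2 ≤ n := by omega
  have hn3 : n3 ≤ n := by omega
  have hnM : M ^ 2 ≤ (n : ℝ) := by
    have : ⌈M ^ 2⌉₊ ≤ n := le_trans (le_max_right _ _) hn
    exact (Nat.le_ceil _).trans (by exact_mod_cast this)
  set s : ℝ := Real.sqrt n with hs
  have hs2 : s * s = n := Real.mul_self_sqrt (by positivity)
  have hsM : M ≤ s := by
    rw [hs]; exact Real.le_sqrt_of_sq_le hnM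
  have hs0 : 0 < s := lt_of_lt_of_le hMpos hsM
  have hnpos : 0 < n := by
    have : (0 : ℝ) < n := by rw [← hs2]; positivity
    exact_mod_cast this
  have hnpow : (0 : ℝ) < (n : ℝ) ^ n := by positivity
  have q1 : 0 ≤ 8 * (2 * (t : ℝ) + 1) / (3 * c) := by positivity
  have q2 : 0 ≤ 16 / c := by positivity
  have q3 : 0 ≤ 100 * (t0 + K + c + t + m0 + 1) := by positivity
  have hsA : 100 * (t0 + K + c + t + m0 + 1) ≤ s := by linarith
  have hsB : 2 * (t : ℝ) + 1 ≤ 3 * c / 8 * s := by
    have : 8 * (2 * (t : ℝ) + 1) / (3 * c) ≤ s := by linarith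
    rw [div_le_iff₀ (by positivity)] at this
    linarith
  have hss : 100 * (t0 * s) + 100 * (K * s) + 100 * (c * s) + 100 * (t * s) + 100 * (m0 * s) +
      100 * s ≤ n := by
    rw [← hs2]
    have := mul_le_mul_of_nonneg_right hsA hs0.le
    linarith
  have hts0 : 0 < t0 * s := by positivity
  have hKs0 : 0 < K * s := by positivity
  have hcs0 : 0 < c * s := by positivity
  have hs1 : 1 ≤ s := by linarith
  have hnonneg_t : (0 : ℝ) ≤ t := by positivity
  have hnonneg_m0 : (0 : ℝ) ≤ m0 := by positivity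
  have htt : (t : ℝ) ≤ t * s := by
    have := mul_le_mul_of_nonneg_left hs1 hnonneg_t
    linarith
  have hmm0 : (m0 : ℝ) ≤ m0 * s := by
    have := mul_le_mul_of_nonneg_left hs1 hnonneg_m0
    linarith
  have hρ1 := rho_gt
  have hρ2 := rho_lt
  have hnR : (0 : ℝ) < n := by exact_mod_cast hnpos
  have hρn1 : 0.63 * (n : ℝ) ≤ rho * n := mul_le_mul_of_nonneg_right hρ1.le hnR.le
  have hρn2 : rho * n ≤ 0.64 * (n : ℝ) := mul_le_mul_of_nonneg_right hρ2.le hnR.le
  set k : ℕ := ⌊c / 16 * s⌋₊ with hk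
  have hk1 : (k : ℝ) ≤ c / 16 * s := Nat.floor_le (by positivity)
  have hkpos : 1 ≤ k := by
    rw [hk]
    apply Nat.le_floor
    have : 16 / c ≤ s := by linarith
    rw [div_le_iff₀ hc] at this
    push_cast
    linarith
  obtain ⟨wt, hwt⟩ := hWT n k hkpos
  set A' := (univ : Finset (Finset (Fin n))).filter (fun D =>
    (D.card : ℝ) ≤ r + c / 2 * s ∧ ∃ D0 ∈ A, D0 ⊆ D) with hA'
  have hmuA' : η' ≤ ∑ D ∈ A', mu D := hPOI n hn1 r hr A hA hAd
  set bad := (univ : Finset (Fin n → Fin 3)).filter (fun b => ∀ Z : Finset (Fin n), Z.card ≤ t →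
    (((powerset (St b 1)).filter fun D => bs b Z ∪ D ∈ A').card : ℝ) < g * 2 ^ (St b 1).card)
    with hbad
  have hbadw : ∑ b ∈ bad, wb b ≤ α / (8 * C) := hST n A' hmuA'
  have hbad1 : ∑ f : Fin n → Fin n, ∑ b ∈ bad, wt f b ≤ α / 4 * (n : ℝ) ^ n := by
    refine (hTR n hn2 wt hwt bad).trans ?_
    apply mul_le_mul_of_nonneg_right _ hnpow.le
    have : C * ∑ b ∈ bad, wb b ≤ C * (α / (8 * C)) := mul_le_mul_of_nonneg_left hbadw hC.le
    have h2 : C * (α / (8 * C)) = α / 8 := by field_simp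
    linarith
  -- exceptional sets
  have hZex : ∀ b : Fin n → Fin 3, ∃ Z : Finset (Fin n), Z.card ≤ t ∧ (b ∉ bad →
      g * 2 ^ (St b 1).card ≤ (((powerset (St b 1)).filter fun D => bs b Z ∪ D ∈ A').card : ℝ)) := by
    intro b
    by_cases hb : b ∈ bad
    · exact ⟨∅, by simp, fun h => absurd hb h⟩
    · have : ∃ Z : Finset (Fin n), Z.card ≤ t ∧
          ¬ ((((powerset (St b 1)).filter fun D => bs b Z ∪ D ∈ A').card : ℝ) <
            g * 2 ^ (St b 1).card) := by
        by_contra hno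
        push_neg at hno
        apply hb
        rw [hbad, mem_filter]
        exact ⟨mem_univ _, hno⟩
      obtain ⟨Z, hZ1, hZ2⟩ := this
      exact ⟨Z, hZ1, fun _ => not_lt.mp hZ2⟩
  choose Z hZt hZg using hZex
  set col := (fun f : Fin n → Fin n => (univ : Finset (Fin n → Fin 3)).filter (fun b =>
    1 / 20 * n ≤ ((St b 2).card : ℝ) ∧ ¬ Set.InjOn f (St b 2 ∩ Z b : Finset (Fin n)))) with hcol
  have hcol1 : ∑ f : Fin n → Fin n, ∑ b ∈ col f, wt f b ≤ α / 8 * (n : ℝ) ^ n :=
    hCOL n hn3 k wt hwt Z hZt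
  -- good status vectors
  set Good := (univ : Finset (Fin n → Fin 3)).filter (fun b => b ∉ bad ∧ ∃ m : ℕ,
    (St b 1).card = 2 * m ∧ (r : ℝ) + 7 / 8 * (c * s) ≤ (St b 0).card + m ∧
    ((St b 0).card : ℝ) + m ≤ rho * n + t0 * s ∧ (n : ℝ) / 4 ≤ m) with hGood
  rw [abs_le] at hr
  have hgoodex : ∀ b ∈ Good, ∃ F : Finset (Finset (Fin n)), (∀ D ∈ F, D ⊆ St b 1 ∧
      bs b (Z b) ∪ D ∈ A') ∧
      ∑ f ∈ (univ : Finset (Fin n → Fin n)).filter (fun f =>
        Set.InjOn f (St b 2 ∩ Z b : Finset (Fin n)) ∧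
        ∀ D ∈ F, ¬ Set.InjOn f ((St b 2 ∩ Z b) ∪ D : Finset (Fin n))), wt f b
      ≤ α / 8 * ∑ f : Fin n → Fin n, wt f b := by
    intro b hb
    rw [hGood, mem_filter] at hb
    obtain ⟨_, hbb, m, hm, hlow, hup, hmn⟩ := hb
    obtain ⟨a, haL, hag⟩ := choose_a (St b 1) (fun D => bs b (Z b) ∪ D ∈ A') g (hZg b hbb)
    set F := (powersetCard a (St b 1)).filter (fun D => bs b (Z b) ∪ D ∈ A') with hF
    have hCpos : (0 : ℝ) < ((St b 1).card.choose a : ℝ) := by
      exact_mod_cast Nat.choose_pos haL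
    have hFpos : (0 : ℝ) < (F.card : ℝ) := lt_of_lt_of_le (by positivity) hag
    obtain ⟨D1, hD1⟩ := card_pos.mp (by exact_mod_cast hFpos : 0 < F.card)
    rw [hF, mem_filter, mem_powersetCard] at hD1
    obtain ⟨⟨hD1s, hD1c⟩, hD1A⟩ := hD1
    rw [hA', mem_filter] at hD1A
    obtain ⟨_, hsz, D0, hD0, hD0s⟩ := hD1A
    have hcardU : (bs b (Z b) ∪ D1).card = (bs b (Z b)).card + a := by
      rw [card_union_of_disjoint (disj_bs b (Z b) D1 hD1s), hD1c]
    obtain ⟨hbs1, hbs2⟩ := card_bs b (Z b) (hZt b)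
    have hr0 : r ≤ (bs b (Z b)).card + a := by
      rw [← hcardU]
      have h1 := card_le_card hD0s
      have h2 := (mem_powersetCard.mp (hA hD0)).2
      omega
    rw [hcardU] at hsz
    have hbs1R : ((bs b (Z b)).card : ℝ) ≤ (St b 0).card + t := by exact_mod_cast hbs1
    have hbs2R : ((St b 0).card : ℝ) ≤ (bs b (Z b)).card + t := by exact_mod_cast hbs2
    have hr0R : (r : ℝ) ≤ (bs b (Z b)).card + a := by exact_mod_cast hr0
    push_cast at hsz
    have ham : a + t + 1 ≤ m := by
      have : (a : ℝ) + t + 1 ≤ m := by linarith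
      exact_mod_cast this
    have hm0 : m0 ≤ m := by
      have : (m0 : ℝ) ≤ m := by linarith
      exact_mod_cast this
    have hsqm : s ≤ 2 * Real.sqrt m := by
      have h1 : s = Real.sqrt n := hs
      have h2 : (n : ℝ) ≤ 4 * m := by linarith
      have h3 : Real.sqrt n ≤ Real.sqrt (4 * m) := Real.sqrt_le_sqrt h2
      have h4 : Real.sqrt (4 * (m : ℝ)) = 2 * Real.sqrt m := by
        rw [Real.sqrt_mul (by norm_num), show (4 : ℝ) = 2 ^ 2 by norm_num,
          Real.sqrt_sq (by norm_num)]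
      rw [h1]; linarith
    have hma : (m : ℝ) ≤ a + (2 * (t0 + K) + 1) * Real.sqrt m := by
      have h1 : (t0 + K) * s ≤ (t0 + K) * (2 * Real.sqrt m) :=
        mul_le_mul_of_nonneg_left hsqm (by positivity)
      have h2 : (m : ℝ) ≤ a + (t0 + K) * s + 2 * t := by
        have : (t0 + K) * s = t0 * s + K * s := by ring
        rw [this]
        linarith
      have h3 : 2 * (t : ℝ) ≤ Real.sqrt m := by
        have : 100 * (t : ℝ) ≤ s := by linarith
        linarith
      linarith
    refine ⟨F, ?_, ?_⟩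
    · intro D hD
      rw [hF, mem_filter, mem_powersetCard] at hD
      exact ⟨hD.1.1, hD.2⟩
    · refine hMTF n k wt hwt b m a hm hm0 ham hma (Z b) (hZt b) F (filter_subset _ _) ?_
      rw [hm] at hag
      exact hag
  -- suppose there is no good map
  by_contra hno
  push_neg at hno
  set Typ := (univ : Finset (Fin n → Fin n)).filter (fun f => |(rk f : ℝ) - rho * n| ≤ t0 * s ∧
    |(sg f : ℝ) - (1 - rho) * n| ≤ t0 * s) with hTyp
  have hQT : 7 / 8 * α * (n : ℝ) ^ n ≤ ((Q ∩ Typ).card : ℝ) := by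
    have h1 := (hCONC n (by omega) t0 ht0).1
    have h2 := (hCONC n (by omega) t0 ht0).2
    have h3 : (Q.card : ℝ) ≤ ((Q ∩ Typ).card : ℝ) +
        ((univ : Finset (Fin n → Fin n)).filter fun f =>
          t0 * Real.sqrt n < |(rk f : ℝ) - rho * n|).card +
        ((univ : Finset (Fin n → Fin n)).filter fun f =>
          t0 * Real.sqrt n < |(sg f : ℝ) - (1 - rho) * n|).card := by
      have : Q ⊆ (Q ∩ Typ) ∪ ((univ : Finset (Fin n → Fin n)).filter fun f =>
          t0 * Real.sqrt n < |(rk f : ℝ) - rho * n|) ∪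
        ((univ : Finset (Fin n → Fin n)).filter fun f =>
          t0 * Real.sqrt n < |(sg f : ℝ) - (1 - rho) * n|) := by
        intro f hf
        simp only [mem_union, mem_inter, mem_filter, mem_univ, true_and, hTyp]
        by_cases e1 : t0 * Real.sqrt n < |(rk f : ℝ) - rho * n|
        · left; right; exact e1
        · by_cases e2 : t0 * Real.sqrt n < |(sg f : ℝ) - (1 - rho) * n|
          · right; exact e2
          · left; left
            exact ⟨hf, not_lt.mp e1, not_lt.mp e2⟩
      have h4 := (card_le_card this).trans (card_union_le _ _)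
      have h5 := card_union_le (Q ∩ Typ) ((univ : Finset (Fin n → Fin n)).filter fun f =>
          t0 * Real.sqrt n < |(rk f : ℝ) - rho * n|)
      have h6 := h4.trans (Nat.add_le_add_right h5 _)
      exact_mod_cast h6
    have h7 : C0 / t0 ^ 2 * (n : ℝ) ^ n ≤ α / 16 * (n : ℝ) ^ n :=
      mul_le_mul_of_nonneg_right ht0' hnpow.le
    linarith
  -- total weight
  have htot : ((Q ∩ Typ).card : ℝ) = ∑ f ∈ Q ∩ Typ, ∑ b, wt f b := by
    rw [sum_congr rfl (g := fun _ => (1 : ℝ)), sum_const, nsmul_eq_mul, mul_one]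
    intro f hf
    rw [mem_inter, hTyp, mem_filter] at hf
    obtain ⟨_, _, h1, h2⟩ := hf
    rw [abs_le] at h1 h2
    apply hwt.sum_one
    · have : (k : ℝ) ≤ sg f := by
        have : (1 - rho) * n = n - rho * n := by ring
        rw [this] at h2
        linarith [h2.1]
      exact_mod_cast this
    · have h3 : sg f + k ≤ rk f := by
        have : (sg f : ℝ) + k ≤ rk f := by
          have : (1 - rho) * n = n - rho * n := by ring
          rw [this] at h2
          linarith [h2.2, h1.1]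
        exact_mod_cast this
      omega
  -- every pair is covered
  have hcover : ∀ f ∈ Q ∩ Typ, ∑ b, wt f b ≤ ∑ b ∈ bad, wt f b + ∑ b ∈ col f, wt f b +
      ∑ b ∈ Good.attach, (if (Set.InjOn f (St b.1 2 ∩ Z b.1 : Finset (Fin n)) ∧
        ∀ D ∈ Classical.choose (hgoodex b.1 b.2),
          ¬ Set.InjOn f ((St b.1 2 ∩ Z b.1) ∪ D : Finset (Fin n))) then wt f b.1 else 0) := by
    intro f hf
    rw [mem_inter, hTyp, mem_filter] at hf
    obtain ⟨hfQ, _, h1, h2⟩ := hf
    rw [abs_le] at h1 h2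
    have hrhoeq : (1 - rho) * n = n - rho * n := by ring
    rw [hrhoeq] at h2
    set gfun : (Fin n → Fin 3) → ℝ := fun b => if hb : b ∈ Good then
      (if (Set.InjOn f (St b 2 ∩ Z b : Finset (Fin n)) ∧
        ∀ D ∈ Classical.choose (hgoodex b hb),
          ¬ Set.InjOn f ((St b 2 ∩ Z b) ∪ D : Finset (Fin n))) then wt f b else 0) else 0 with hgfun
    have hg0 : ∀ b, 0 ≤ gfun b := by
      intro b
      simp only [hgfun]
      split_ifs
      · exact hwt.nonneg f b
      · exact le_rfl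
      · exact le_rfl
    have hgsum : ∑ b ∈ Good.attach, (if (Set.InjOn f (St b.1 2 ∩ Z b.1 : Finset (Fin n)) ∧
        ∀ D ∈ Classical.choose (hgoodex b.1 b.2),
          ¬ Set.InjOn f ((St b.1 2 ∩ Z b.1) ∪ D : Finset (Fin n))) then wt f b.1 else 0) =
        ∑ b, gfun b := by
      have e1 : ∑ b, gfun b = ∑ b ∈ Good, gfun b := by
        symm
        apply sum_subset (subset_univ _)
        intro b _ hb
        simp only [hgfun]
        rw [dif_neg hb]
      rw [e1]
      rw [← Finset.sum_attach Good gfun]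
      refine sum_congr rfl fun b _ => ?_
      simp only [hgfun]
      rw [dif_pos b.2]
    rw [hgsum]
    have e2 : ∑ b ∈ bad, wt f b = ∑ b, (if b ∈ bad then wt f b else 0) := by
      rw [← sum_filter]; congr 1; ext b; simp
    have e3 : ∑ b ∈ col f, wt f b = ∑ b, (if b ∈ col f then wt f b else 0) := by
      rw [← sum_filter]; congr 1; ext b; simp
    rw [e2, e3, ← sum_add_distrib, ← sum_add_distrib]
    refine sum_le_sum fun b _ => ?_
    have hw0 := hwt.nonneg f b
    by_cases hwz : wt f b = 0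
    · rw [hwz]
      have := hg0 b
      simp only [ite_self]
      linarith
    by_cases hb1 : b ∈ bad
    · rw [if_pos hb1]
      have := hg0 b
      have : 0 ≤ (if b ∈ col f then wt f b else 0) := by split_ifs <;> linarith
      linarith
    by_cases hb2 : b ∈ col f
    · rw [if_pos hb2, if_neg hb1]
      have := hg0 b
      linarith
    rw [if_neg hb1, if_neg hb2]
    have hcomp := hwt.compat f b hwz
    obtain ⟨m, hm⟩ := even_live f b hcomp
    obtain ⟨hs1', hs2'⟩ := hwt.singles f b hwz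
    obtain ⟨hl1, hl2⟩ := hwt.live f b hwz
    rw [hm] at hl1 hl2
    have hsgrk : sg f ≤ rk f := by
      have : (sg f : ℝ) ≤ rk f := by linarith [h2.2, h1.1]
      exact_mod_cast this
    have c1 : ((St b 0).card : ℝ) ≤ sg f := by exact_mod_cast hs1'
    have c2 : (sg f : ℝ) ≤ (St b 0).card + k := by exact_mod_cast hs2'
    have c3 : (m : ℝ) + sg f ≤ rk f := by
      have : m + sg f ≤ rk f := by omega
      exact_mod_cast this
    have c4 : (rk f : ℝ) ≤ m + k + sg f := by
      have : rk f ≤ m + k + sg f := by omega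
      exact_mod_cast this
    have c5 := hQr f hfQ
    have hthree := card_three b
    rw [hm] at hthree
    have c6 : ((St b 0).card : ℝ) + 2 * m + (St b 2).card = n := by exact_mod_cast hthree
    have hdead : 1 / 20 * (n : ℝ) ≤ ((St b 2).card : ℝ) := by
      linarith [h2.1, h1.2]
    have hinjZ : Set.InjOn f (St b 2 ∩ Z b : Finset (Fin n)) := by
      by_contra hni
      apply hb2
      simp only [hcol, mem_filter, mem_univ, true_and]
      exact ⟨hdead, hni⟩
    have hbG : b ∈ Good := by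
      rw [hGood, mem_filter]
      refine ⟨mem_univ _, hb1, m, hm, ?_, ?_, ?_⟩
      · have : (r : ℝ) + c * s ≤ rk f := c5
        linarith
      · linarith [h1.2]
      · linarith [h2.2, h1.1]
    have hval : gfun b = wt f b := by
      simp only [hgfun]
      rw [dif_pos hbG, if_pos]
      refine ⟨hinjZ, fun D hD hinj => ?_⟩
      have hspec := Classical.choose_spec (hgoodex b hbG)
      obtain ⟨hDL, hDA⟩ := hspec.1 D hD
      rw [hA', mem_filter] at hDA
      obtain ⟨_, _, D0, hD0, hD0s⟩ := hDA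
      have := inj_bs f b hcomp (Z b) D hinj
      exact hno f hfQ D0 hD0 (this.mono (by exact_mod_cast hD0s))
    rw [hval]
    linarith
  have hgoodsum : ∑ f : Fin n → Fin n, ∑ b ∈ Good.attach,
      (if (Set.InjOn f (St b.1 2 ∩ Z b.1 : Finset (Fin n)) ∧
        ∀ D ∈ Classical.choose (hgoodex b.1 b.2),
          ¬ Set.InjOn f ((St b.1 2 ∩ Z b.1) ∪ D : Finset (Fin n))) then wt f b.1 else 0) ≤
      α / 8 * (n : ℝ) ^ n := by
    rw [sum_comm]
    have e1 : ∀ b ∈ Good.attach, ∑ f : Fin n → Fin n,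
        (if (Set.InjOn f (St b.1 2 ∩ Z b.1 : Finset (Fin n)) ∧
        ∀ D ∈ Classical.choose (hgoodex b.1 b.2),
          ¬ Set.InjOn f ((St b.1 2 ∩ Z b.1) ∪ D : Finset (Fin n))) then wt f b.1 else 0) ≤
        α / 8 * ∑ f : Fin n → Fin n, wt f b.1 := by
      intro b _
      rw [← sum_filter]
      exact (Classical.choose_spec (hgoodex b.1 b.2)).2
    refine (sum_le_sum e1).trans ?_
    rw [← mul_sum]
    apply mul_le_mul_of_nonneg_left _ (by positivity)
    rw [sum_attach Good (fun b => ∑ f : Fin n → Fin n, wt f b), sum_comm]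
    have e2 : ∀ f : Fin n → Fin n, ∑ b ∈ Good, wt f b ≤ 1 := fun f =>
      (sum_le_sum_of_subset_of_nonneg (subset_univ _) (fun b _ _ => hwt.nonneg f b)).trans
        (hwt.sum_le f)
    refine (sum_le_sum (fun f _ => e2 f)).trans ?_
    rw [sum_const, card_univ, Fintype.card_fun, Fintype.card_fin, nsmul_eq_mul, mul_one]
    push_cast
    exact le_rfl
  have hfinal : ((Q ∩ Typ).card : ℝ) ≤ α / 4 * (n : ℝ) ^ n + α / 8 * (n : ℝ) ^ n +
      α / 8 * (n : ℝ) ^ n := by
    rw [htot]
    refine (sum_le_sum hcover).trans ?_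
    rw [sum_add_distrib, sum_add_distrib]
    have e1 : ∑ f ∈ Q ∩ Typ, ∑ b ∈ bad, wt f b ≤ ∑ f : Fin n → Fin n, ∑ b ∈ bad, wt f b :=
      sum_le_sum_of_subset_of_nonneg (subset_univ _)
        (fun f _ _ => sum_nonneg fun b _ => hwt.nonneg f b)
    have e2 : ∑ f ∈ Q ∩ Typ, ∑ b ∈ col f, wt f b ≤ ∑ f : Fin n → Fin n, ∑ b ∈ col f, wt f b :=
      sum_le_sum_of_subset_of_nonneg (subset_univ _)
        (fun f _ _ => sum_nonneg fun b _ => hwt.nonneg f b)
    have e3 : ∑ f ∈ Q ∩ Typ, ∑ b ∈ Good.attach,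
      (if (Set.InjOn f (St b.1 2 ∩ Z b.1 : Finset (Fin n)) ∧
        ∀ D ∈ Classical.choose (hgoodex b.1 b.2),
          ¬ Set.InjOn f ((St b.1 2 ∩ Z b.1) ∪ D : Finset (Fin n))) then wt f b.1 else 0) ≤
        ∑ f : Fin n → Fin n, ∑ b ∈ Good.attach,
      (if (Set.InjOn f (St b.1 2 ∩ Z b.1 : Finset (Fin n)) ∧
        ∀ D ∈ Classical.choose (hgoodex b.1 b.2),
          ¬ Set.InjOn f ((St b.1 2 ∩ Z b.1) ∪ D : Finset (Fin n))) then wt f b.1 else 0) :=
      sum_le_sum_of_subset_of_nonneg (subset_univ _)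
        (fun f _ _ => sum_nonneg fun b _ => by
          split_ifs
          · exact hwt.nonneg f b.1
          · exact le_rfl)
    linarith
  have : 0 < α * (n : ℝ) ^ n := by positivity
  linarith

end Pool.Agent.R341.SG
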