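import Mathlib
import Pool.Agent.R341.SG.Defs
import Pool.Agent.R341.SG.Stm

/-! SG-TR: transfer from product statuses to statuses of random maps. -/

namespace Pool.Agent.R341.SG

open Finset

noncomputable section

namespace TRaux

lemma card_sum {n : ℕ} (b : Fin n → Fin 3) :
    (St b 0).card + (St b 1).card + (St b 2).card = n := by
  have h := Finset.card_eq_sum_card_fiberwise (s := (univ : Finset (Fin n)))
    (t := (univ : Finset (Fin 3))) (f := b) (by intro x _; simp)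
  rw [Finset.card_univ, Fintype.card_fin, Fin.sum_univ_three] at h
  exact h.symm

lemma exists_perm {n : ℕ} (b b' : Fin n → Fin 3) (h0 : (St b' 0).card = (St b 0).card)
    (h1 : (St b' 1).card = (St b 1).card) : ∃ π : Equiv.Perm (Fin n), b' = b ∘ π := by
  have h2 : (St b' 2).card = (St b 2).card := by
    have := card_sum b
    have := card_sum b'
    omega
  have hall : ∀ c : Fin 3, Fintype.card {a // b' a = c} = Fintype.card {a // b a = c} := by
    intro c
    rw [Fintype.card_subtype, Fintype.card_subtype]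
    fin_cases c
    · exact h0
    · exact h1
    · exact h2
  let e : ∀ c, {a // b' a = c} ≃ {a // b a = c} := fun c => Fintype.equivOfCardEq (hall c)
  refine ⟨Equiv.ofFiberEquiv e, ?_⟩
  funext a
  exact (Equiv.ofFiberEquiv_map e a).symm

lemma W_const {n k : ℕ} {wt : (Fin n → Fin n) → (Fin n → Fin 3) → ℝ} (h : IsWt n k wt)
    (b : Fin n → Fin 3) (π : Equiv.Perm (Fin n)) :
    ∑ f, wt f (b ∘ π) = ∑ f, wt f b := by
  let e : (Fin n → Fin n) ≃ (Fin n → Fin n) :=
    ⟨fun f => f ∘ π, fun f => f ∘ π.symm, fun f => by funext x; simp, fun f => by funext x; simp⟩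
  rw [← Equiv.sum_comp e (fun f => wt f (b ∘ π))]
  exact Finset.sum_congr rfl (fun f _ => h.equiv f b π)

lemma wb_const {n : ℕ} (b : Fin n → Fin 3) (π : Equiv.Perm (Fin n)) : wb (b ∘ π) = wb b := by
  unfold wb
  exact Equiv.prod_comp π (fun x => q (b x))

lemma exp_bd : 1 / 3 < Real.exp (-1) ∧ Real.exp (-1) < 1 / 2 := by
  have h1 := Real.exp_one_gt_d9
  have h2 := Real.exp_one_lt_d9
  rw [Real.exp_neg]
  constructor
  · rw [one_div]
    apply inv_strictAnti₀ (Real.exp_pos 1)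
    linarith
  · rw [one_div]
    apply inv_strictAnti₀ (by norm_num)
    linarith

lemma q_nonneg (i : Fin 3) : 0 ≤ q i := by
  obtain ⟨h1, h2⟩ := exp_bd
  unfold q
  split_ifs <;> linarith

lemma wb_nonneg {n : ℕ} (b : Fin n → Fin 3) : 0 ≤ wb b :=
  Finset.prod_nonneg (fun x _ => q_nonneg (b x))

lemma q0_eq : q 0 = 1 - rho := by
  unfold q rho
  simp

lemma q1_eq : q 1 = 2 * (rho - (1 - rho)) := by
  unfold q rho
  simp
  ring

lemma sg_le_rk {n : ℕ} (f : Fin n → Fin n) : sg f ≤ rk f := by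
  unfold sg rk im
  refine Finset.card_le_card_of_injOn f (fun x _ => by simp) ?_
  intro x _ y hy hxy
  simp only [Finset.coe_filter, Finset.mem_univ, true_and] at hy
  exact hy x hxy

/-- the estimate for one status vector in the bulk -/
lemma one_bd {n k : ℕ} (hn : 1 ≤ n) (hk : 1 ≤ k) {wt : (Fin n → Fin n) → (Fin n → Fin 3) → ℝ}
    (h : IsWt n k wt) (b : Fin n → Fin 3) (c : ℝ) (hc : 0 < c)
    (hcl : c / n ≤ ∑ b' ∈ univ.filter (fun b' : Fin n → Fin 3 =>
      (St b' 0).card = (St b 0).card ∧ (St b' 1).card = (St b 1).card), wb b') :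
    (∑ f, wt f b) ≤ (n : ℝ) / (c * (k : ℝ) ^ 2) * ((n : ℝ) ^ n * wb b) := by
  set cl := univ.filter (fun b' : Fin n → Fin 3 =>
      (St b' 0).card = (St b 0).card ∧ (St b' 1).card = (St b 1).card) with hcldef
  have hW : ∀ b' ∈ cl, ∑ f, wt f b' = ∑ f, wt f b := by
    intro b' hb'
    rw [hcldef, Finset.mem_filter] at hb'
    obtain ⟨π, rfl⟩ := exists_perm b b' hb'.2.1 hb'.2.2
    exact W_const h b π
  have hwb : ∀ b' ∈ cl, wb b' = wb b := by
    intro b' hb'
    rw [hcldef, Finset.mem_filter] at hb'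
    obtain ⟨π, rfl⟩ := exists_perm b b' hb'.2.1 hb'.2.2
    exact wb_const b π
  have h1 : (cl.card : ℝ) * (∑ f, wt f b) ≤ (n : ℝ) ^ n * (1 / (k : ℝ) ^ 2) := by
    calc (cl.card : ℝ) * (∑ f, wt f b) = ∑ b' ∈ cl, ∑ f, wt f b' := by
          rw [Finset.sum_congr rfl hW, Finset.sum_const, nsmul_eq_mul]
      _ = ∑ f, ∑ b' ∈ cl, wt f b' := Finset.sum_comm
      _ ≤ ∑ _f : Fin n → Fin n, 1 / (k : ℝ) ^ 2 :=
          Finset.sum_le_sum (fun f _ => h.spread f _ _)
      _ = (n : ℝ) ^ n * (1 / (k : ℝ) ^ 2) := by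
          rw [Finset.sum_const, nsmul_eq_mul, Finset.card_univ, Fintype.card_fun, Fintype.card_fin]
          push_cast
          rfl
  have h2 : c / n ≤ (cl.card : ℝ) * wb b := by
    refine hcl.trans (le_of_eq ?_)
    rw [Finset.sum_congr rfl hwb, Finset.sum_const, nsmul_eq_mul]
  have hn' : (0 : ℝ) < n := by exact_mod_cast hn
  have hk' : (0 : ℝ) < k := by exact_mod_cast hk
  have hW0 : 0 ≤ ∑ f, wt f b := Finset.sum_nonneg (fun f _ => h.nonneg f b)
  have h3 : (∑ f, wt f b) * (c / n) ≤ (n : ℝ) ^ n * (1 / (k : ℝ) ^ 2) * wb b := by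
    calc (∑ f, wt f b) * (c / n) ≤ (∑ f, wt f b) * ((cl.card : ℝ) * wb b) :=
          mul_le_mul_of_nonneg_left h2 hW0
      _ = ((cl.card : ℝ) * (∑ f, wt f b)) * wb b := by ring
      _ ≤ _ := mul_le_mul_of_nonneg_right h1 (wb_nonneg b)
  have hcn : 0 < c / n := by positivity
  rw [← le_div_iff₀ hcn] at h3
  refine h3.trans (le_of_eq ?_)
  field_simp

end TRaux

open TRaux in
theorem tr (h1 : SMULT) (h2 : SCONC) : STR := by
  intro κ δ hκ hδ
  obtain ⟨C0, hC0, hconc⟩ := h2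
  set t : ℝ := Real.sqrt (2 * C0 / δ) with ht
  have ht0 : 0 < t := Real.sqrt_pos.2 (by positivity)
  have ht2 : C0 / t ^ 2 = δ / 2 := by
    rw [ht, Real.sq_sqrt (by positivity)]
    field_simp
  obtain ⟨c, hc, n1, hmult⟩ := h1 (4 * t + 2 * κ) (by positivity)
  refine ⟨4 / (κ ^ 2 * c), by positivity, max n1 (max 1 ⌈(1 / κ) ^ 2⌉₊), ?_⟩
  intro n hn wt hwt E
  have hn1 : n1 ≤ n := (le_max_left _ _).trans hn
  have hn2 : 1 ≤ n := (le_max_left _ _).trans ((le_max_right _ _).trans hn)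
  have hn3 : ⌈(1 / κ) ^ 2⌉₊ ≤ n := (le_max_right _ _).trans ((le_max_right _ _).trans hn)
  have hnr : (0 : ℝ) < n := by exact_mod_cast hn2
  have hx1 : 1 ≤ κ * Real.sqrt n := by
    have h3 : (1 / κ) ^ 2 ≤ (n : ℝ) := (Nat.le_ceil _).trans (by exact_mod_cast hn3)
    have h4 : 1 / κ ≤ Real.sqrt n := Real.le_sqrt_of_sq_le h3
    rw [div_le_iff₀ hκ] at h4
    linarith
  set k := ⌊κ * Real.sqrt n⌋₊ with hk
  have hk1 : 1 ≤ k := Nat.le_floor (by simpa using hx1)
  have hkle : (k : ℝ) ≤ κ * Real.sqrt n := Nat.floor_le (by positivity)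
  have hkge : κ * Real.sqrt n ≤ 2 * k := by
    have h3 := Nat.lt_floor_add_one (κ * Real.sqrt n)
    have h4 : (1 : ℝ) ≤ k := by exact_mod_cast hk1
    rw [← hk] at h3
    linarith
  have hksq : κ ^ 2 * n ≤ 4 * (k : ℝ) ^ 2 := by
    have h3 : (κ * Real.sqrt n) ^ 2 ≤ (2 * (k : ℝ)) ^ 2 :=
      pow_le_pow_left₀ (by positivity) hkge 2
    rw [mul_pow, Real.sq_sqrt hnr.le] at h3
    linarith
  have hsn : 0 ≤ Real.sqrt n := Real.sqrt_nonneg _
  -- bulk of statuses
  let Pb : (Fin n → Fin 3) → Prop := fun b =>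
    |((St b 0).card : ℝ) - q 0 * n| ≤ (4 * t + 2 * κ) * Real.sqrt n ∧
      |((St b 1).card : ℝ) - q 1 * n| ≤ (4 * t + 2 * κ) * Real.sqrt n
  let Pf : (Fin n → Fin n) → Prop := fun f =>
    t * Real.sqrt n < |(rk f : ℝ) - rho * n| ∨ t * Real.sqrt n < |(sg f : ℝ) - (1 - rho) * n|
  have hzero : ∀ f b, ¬ Pf f → ¬ Pb b → wt f b = 0 := by
    intro f b hf hb
    by_contra hne
    apply hb
    simp only [Pf, not_or, not_lt] at hf
    obtain ⟨s1, s2⟩ := hwt.singles f b hne
    obtain ⟨l1, l2⟩ := hwt.live f b hne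
    have hsr := sg_le_rk f
    have s1' : ((St b 0).card : ℝ) ≤ sg f := by exact_mod_cast s1
    have s2' : (sg f : ℝ) ≤ (St b 0).card + k := by exact_mod_cast s2
    have l1' : ((St b 1).card : ℝ) ≤ 2 * ((rk f : ℝ) - sg f) := by
      have : ((St b 1).card : ℝ) ≤ ((2 * (rk f - sg f) : ℕ) : ℝ) := by exact_mod_cast l1
      rw [Nat.cast_mul, Nat.cast_sub hsr] at this
      exact_mod_cast this
    have l2' : 2 * ((rk f : ℝ) - sg f) ≤ (St b 1).card + 2 * k := by
      have : ((2 * (rk f - sg f) : ℕ) : ℝ) ≤ (((St b 1).card + 2 * k : ℕ) : ℝ) := by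
        exact_mod_cast l2
      rw [Nat.cast_mul, Nat.cast_sub hsr] at this
      push_cast at this
      exact this
    have r1 := abs_le.1 hf.1
    have r2 := abs_le.1 hf.2
    have htn : 0 ≤ t * Real.sqrt n := by positivity
    have hκn : 0 ≤ κ * Real.sqrt n := by positivity
    constructor
    · rw [q0_eq, abs_le]
      constructor <;> nlinarith [r2.1, r2.2]
    · rw [q1_eq, abs_le]
      constructor <;> nlinarith [r1.1, r1.2, r2.1, r2.2]
  classical
  have hsplit : ∀ f, ∑ b ∈ E, wt f b ≤ ∑ b ∈ E.filter Pb, wt f b + (if Pf f then 1 else 0) := by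
    intro f
    rw [← Finset.sum_filter_add_sum_filter_not E Pb]
    refine add_le_add le_rfl ?_
    split_ifs with hf
    · refine le_trans ?_ (hwt.sum_le f)
      exact Finset.sum_le_sum_of_subset_of_nonneg (Finset.subset_univ _)
        (fun b _ _ => hwt.nonneg f b)
    · refine le_of_eq (Finset.sum_eq_zero (fun b hb => ?_))
      exact hzero f b hf (Finset.mem_filter.1 hb).2
  have hA : ∑ f : Fin n → Fin n, (if Pf f then (1 : ℝ) else 0) ≤ δ * (n : ℝ) ^ n := by
    rw [Finset.sum_boole]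
    obtain ⟨g1, g2⟩ := hconc n hn2 t ht0
    rw [ht2] at g1 g2
    have h3 : (univ.filter Pf) ⊆ (univ.filter fun f : Fin n → Fin n =>
        t * Real.sqrt n < |(rk f : ℝ) - rho * n|) ∪ (univ.filter fun f : Fin n → Fin n =>
        t * Real.sqrt n < |(sg f : ℝ) - (1 - rho) * n|) := by
      intro f hf
      rw [Finset.mem_union, Finset.mem_filter, Finset.mem_filter]
      rcases (Finset.mem_filter.1 hf).2 with h | h
      · exact Or.inl ⟨Finset.mem_univ _, h⟩
      · exact Or.inr ⟨Finset.mem_univ _, h⟩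
    have h4 : ((univ.filter Pf).card : ℝ) ≤ ((univ.filter fun f : Fin n → Fin n =>
        t * Real.sqrt n < |(rk f : ℝ) - rho * n|).card : ℝ) + ((univ.filter fun f : Fin n → Fin n =>
        t * Real.sqrt n < |(sg f : ℝ) - (1 - rho) * n|).card : ℝ) := by
      exact_mod_cast (Finset.card_le_card h3).trans (Finset.card_union_le _ _)
    refine h4.trans ((add_le_add g1 g2).trans (le_of_eq ?_))
    ring
  have hB : ∑ f : Fin n → Fin n, ∑ b ∈ E.filter Pb, wt f b ≤
      4 / (κ ^ 2 * c) * (∑ b ∈ E, wb b) * (n : ℝ) ^ n := by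
    rw [Finset.sum_comm]
    calc ∑ b ∈ E.filter Pb, ∑ f, wt f b
        ≤ ∑ b ∈ E.filter Pb, 4 / (κ ^ 2 * c) * ((n : ℝ) ^ n * wb b) := by
          refine Finset.sum_le_sum (fun b hb => ?_)
          have hPb : Pb b := (Finset.mem_filter.1 hb).2
          have h3 := one_bd hn2 hk1 hwt b c hc (hmult n hn1 _ _ hPb.1 hPb.2)
          refine h3.trans (mul_le_mul_of_nonneg_right ?_
            (mul_nonneg (by positivity) (wb_nonneg b)))
          have hk' : (0 : ℝ) < k := by exact_mod_cast hk1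
          rw [div_le_div_iff₀ (by positivity) (by positivity)]
          have := mul_le_mul_of_nonneg_right hksq hc.le
          nlinarith
      _ ≤ ∑ b ∈ E, 4 / (κ ^ 2 * c) * ((n : ℝ) ^ n * wb b) := by
          refine Finset.sum_le_sum_of_subset_of_nonneg (Finset.filter_subset _ _)
            (fun b _ _ => ?_)
          have := wb_nonneg b
          positivity
      _ = 4 / (κ ^ 2 * c) * (∑ b ∈ E, wb b) * (n : ℝ) ^ n := by
          rw [← Finset.mul_sum, ← Finset.mul_sum]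
          ring
  calc ∑ f : Fin n → Fin n, ∑ b ∈ E, wt f b
      ≤ ∑ f : Fin n → Fin n, (∑ b ∈ E.filter Pb, wt f b + (if Pf f then 1 else 0)) :=
        Finset.sum_le_sum (fun f _ => hsplit f)
    _ = (∑ f : Fin n → Fin n, ∑ b ∈ E.filter Pb, wt f b) +
        ∑ f : Fin n → Fin n, (if Pf f then (1 : ℝ) else 0) := Finset.sum_add_distrib
    _ ≤ 4 / (κ ^ 2 * c) * (∑ b ∈ E, wb b) * (n : ℝ) ^ n + δ * (n : ℝ) ^ n := add_le_add hB hA
    _ = _ := by ring

end

end Pool.Agent.R341.SG
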