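import Pool.Agent.R341.SG.Stm

/-! SG-V: variance of densities on random subsets. -/

namespace Pool.Agent.R341.SG.VV
open Finset Pool.Agent.R341.SG

section
variable {α : Type} [DecidableEq α]

theorem dc (L : Finset α) (k : ℕ) (hk : k ≤ L.card) (g : Finset α → ℝ) :
    ∑ x ∈ L, ∑ K ∈ powersetCard k (L.erase x), g K =
      ((L.card : ℝ) - k) * ∑ K ∈ powersetCard k L, g K := by
  have h : ∑ x ∈ L, ∑ K ∈ powersetCard k (L.erase x), g K
      = ∑ K ∈ powersetCard k L, ∑ x ∈ L \ K, g K := by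
    apply sum_comm'
    intro x K
    simp only [mem_powersetCard, mem_sdiff, subset_erase]
    tauto
  rw [h, mul_sum]
  refine sum_congr rfl fun K hK => ?_
  rw [mem_powersetCard] at hK
  rw [sum_const, card_sdiff_of_subset hK.1, hK.2, nsmul_eq_mul, Nat.cast_sub hk]

theorem ch (l k : ℕ) (h : k ≤ l + 1) :
    ((l : ℝ) + 1) * (l.choose k : ℝ) = ((l : ℝ) + 1 - k) * ((l + 1).choose k : ℝ) := by
  have := Nat.choose_mul_succ_eq l k
  have h2 : ((l.choose k * (l + 1) : ℕ) : ℝ) = (((l + 1).choose k * (l + 1 - k) : ℕ) : ℝ) := by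
    rw [this]
  push_cast [Nat.cast_sub h] at h2
  linarith

noncomputable def dn (B : Finset (Finset α)) (r : ℕ) (L : Finset α) : ℝ :=
  (∑ I ∈ powersetCard r L, (if I ∈ B then (1 : ℝ) else 0)) / (L.card.choose r : ℝ)

theorem sq01 (B : Finset (Finset α)) (r : ℕ) (K : Finset α) (hK : K.card = r) :
    (dn B r K) ^ 2 = dn B r K := by
  subst hK
  unfold dn
  rw [powersetCard_self, sum_singleton, Nat.choose_self]
  split_ifs <;> simp

theorem avg (B : Finset (Finset α)) (r l : ℕ) (hr : r ≤ l) (L : Finset α)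
    (hL : L.card = l + 1) :
    ∑ x ∈ L, dn B r (L.erase x) = ((l : ℝ) + 1) * dn B r L := by
  unfold dn
  have h1 : ∀ x ∈ L, (∑ I ∈ powersetCard r (L.erase x), (if I ∈ B then (1 : ℝ) else 0)) /
      (((L.erase x).card).choose r : ℝ)
      = (∑ I ∈ powersetCard r (L.erase x), (if I ∈ B then (1 : ℝ) else 0)) /
        (l.choose r : ℝ) := by
    intro x hx
    rw [card_erase_of_mem hx, hL, Nat.add_sub_cancel]
  rw [sum_congr rfl h1, ← sum_div, dc L r (by omega), hL]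
  have c1 : (0 : ℝ) < (l.choose r : ℝ) := by exact_mod_cast Nat.choose_pos hr
  have c2 : (0 : ℝ) < ((l + 1).choose r : ℝ) := by
    exact_mod_cast Nat.choose_pos (by omega)
  have c3 := ch l r (by omega)
  set S := ∑ I ∈ powersetCard r L, (if I ∈ B then (1 : ℝ) else 0)
  rw [div_eq_iff c1.ne', mul_div_assoc', div_mul_eq_mul_div, eq_div_iff c2.ne']
  push_cast
  linear_combination (-S) * c3

theorem v1 (B : Finset (Finset α)) (r : ℕ) : ∀ l : ℕ, r ≤ l → ∀ L : Finset α, L.card = l + 1 →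
    ((l : ℝ) + 1 - r) * (∑ x ∈ L, (dn B r (L.erase x)) ^ 2 - ((l : ℝ) + 1) * (dn B r L) ^ 2)
      ≤ ((l : ℝ) + 1) * (dn B r L * (1 - dn B r L)) := by
  intro l hl
  induction l, hl using Nat.le_induction with
  | base =>
    intro L hL
    have h1 : ∀ x ∈ L, (dn B r (L.erase x)) ^ 2 = dn B r (L.erase x) := by
      intro x hx
      exact sq01 B r _ (by rw [card_erase_of_mem hx, hL]; omega)
    rw [sum_congr rfl h1, avg B r r le_rfl L hL]
    apply le_of_eq
    ring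
  | succ k hk ih =>
    intro L hL
    have hm : (L.card : ℝ) = (k : ℝ) + 2 := by rw [hL]; push_cast; ring
    have hce : ∀ x ∈ L, (L.erase x).card = k + 1 := fun x hx => by
      rw [card_erase_of_mem hx, hL]; omega
    have hs : ∀ x ∈ L, ∑ y ∈ L, dn B r ((L.erase x).erase y) =
        ((k : ℝ) + 2) * dn B r (L.erase x) := by
      intro x hx
      rw [← add_sum_erase L _ hx, avg B r k hk (L.erase x) (hce x hx), erase_idem]
      ring
    have hN : ∑ x ∈ L, dn B r (L.erase x) = ((k : ℝ) + 2) * dn B r L := by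
      rw [avg B r (k + 1) (by omega) L hL]; push_cast; ring
    obtain ⟨c, hc⟩ : ∃ c : α → α → ℝ, c = fun x y => dn B r ((L.erase x).erase y) := ⟨_, rfl⟩
    obtain ⟨ρ, hρ⟩ : ∃ ρ : α → ℝ, ρ = fun x => dn B r (L.erase x) := ⟨_, rfl⟩
    have hc' : ∀ x y, dn B r ((L.erase x).erase y) = c x y := by intro x y; rw [hc]
    have hρ' : ∀ x, dn B r (L.erase x) = ρ x := by intro x; rw [hρ]
    have hsym : ∀ x y, c x y = c y x := by
      intro x y; rw [← hc', ← hc', erase_right_comm]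
    have hdiag : ∀ x, c x x = ρ x := by
      intro x; rw [← hc', ← hρ', erase_idem]
    have ih' : ∀ x ∈ L, ((k : ℝ) + 1 - r) * (∑ y ∈ L.erase x, (c x y) ^ 2 -
        ((k : ℝ) + 1) * (ρ x) ^ 2) ≤ ((k : ℝ) + 1) * (ρ x * (1 - ρ x)) := by
      intro x hx
      have := ih (L.erase x) (hce x hx)
      simp only [hc', hρ'] at this
      exact this
    simp only [hc', hρ'] at hs hN ⊢
    obtain ⟨N, hNd⟩ : ∃ N : ℝ, N = dn B r L := ⟨_, rfl⟩
    rw [← hNd] at hN ⊢
    obtain ⟨R2, hR2⟩ : ∃ R2 : ℝ, R2 = ∑ x ∈ L, (ρ x) ^ 2 := ⟨_, rfl⟩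
    rw [← hR2]
    have hcr : ∑ x ∈ L, ∑ y ∈ L, c x y * ρ y = ((k : ℝ) + 2) * R2 := by
      rw [sum_comm, hR2, mul_sum]
      refine sum_congr rfl fun y hy => ?_
      have : ∀ x ∈ L, c x y * ρ y = ρ y * c y x := by intro x _; rw [hsym x y]; ring
      rw [sum_congr rfl this, ← mul_sum, hs y hy]; ring
    have hD : ∑ x ∈ L, (ρ x - N) ^ 2 = R2 - ((k : ℝ) + 2) * N ^ 2 := by
      have : ∀ x, (ρ x - N) ^ 2 = (ρ x) ^ 2 - (2 * N) * ρ x + N ^ 2 := by intro x; ring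
      simp only [this, sum_add_distrib, sum_sub_distrib, ← mul_sum, sum_const, nsmul_eq_mul]
      rw [hN, hm, hR2]; ring
    have hD0 : 0 ≤ R2 - ((k : ℝ) + 2) * N ^ 2 := by
      rw [← hD]; exact sum_nonneg fun _ _ => sq_nonneg _
    have inner : ∀ x ∈ L, ∑ y ∈ L, (c x y - ρ x - ρ y + N) ^ 2 =
        ∑ y ∈ L, (c x y) ^ 2 - 2 * ∑ y ∈ L, c x y * ρ y + R2 -
          ((k : ℝ) + 2) * (ρ x - N) ^ 2 := by
      intro x hx
      have e1 : ∀ y, (c x y - ρ x - ρ y + N) ^ 2 = (c x y) ^ 2 - 2 * (c x y * ρ y) +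
          (2 * N - 2 * ρ x) * c x y + (ρ y) ^ 2 + (2 * ρ x - 2 * N) * ρ y + (ρ x - N) ^ 2 := by
        intro y; ring
      simp only [e1, sum_add_distrib, sum_sub_distrib, ← mul_sum, sum_const, nsmul_eq_mul]
      rw [hs x hx, hN, hm, hR2]; ring
    have tot : ∑ x ∈ L, ∑ y ∈ L, (c x y - ρ x - ρ y + N) ^ 2 =
        ∑ x ∈ L, ∑ y ∈ L, (c x y) ^ 2 - ((k : ℝ) + 2) * R2 -
          ((k : ℝ) + 2) * (R2 - ((k : ℝ) + 2) * N ^ 2) := by
      rw [sum_congr rfl inner]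
      simp only [sum_add_distrib, sum_sub_distrib, ← mul_sum, sum_const, nsmul_eq_mul]
      rw [hcr, hD, hm]; ring
    have low : R2 - ((k : ℝ) + 2) * N ^ 2 ≤
        ∑ x ∈ L, ∑ y ∈ L, (c x y - ρ x - ρ y + N) ^ 2 := by
      rw [← hD]
      refine sum_le_sum fun x hx => ?_
      have h1 : (c x x - ρ x - ρ x + N) ^ 2 ≤ ∑ y ∈ L, (c x y - ρ x - ρ y + N) ^ 2 :=
        single_le_sum (f := fun y => (c x y - ρ x - ρ y + N) ^ 2) (fun y _ => sq_nonneg _) hx
      rw [hdiag] at h1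
      have h2 : (ρ x - N) ^ 2 = (ρ x - ρ x - ρ x + N) ^ 2 := by ring
      rw [h2]; exact h1
    have hTT : ∑ x ∈ L, ∑ y ∈ L, (c x y) ^ 2 =
        ∑ x ∈ L, ∑ y ∈ L.erase x, (c x y) ^ 2 + R2 := by
      rw [hR2, ← sum_add_distrib]
      refine sum_congr rfl fun x hx => ?_
      rw [← add_sum_erase L _ hx, hdiag]; ring
    have ihs : ((k : ℝ) + 1 - r) * (∑ x ∈ L, ∑ y ∈ L.erase x, (c x y) ^ 2 -
        ((k : ℝ) + 1) * R2) ≤ ((k : ℝ) + 1) * (((k : ℝ) + 2) * N - R2) := by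
      have h := sum_le_sum ih'
      have l1 : ∑ x ∈ L, ((k : ℝ) + 1 - r) * (∑ y ∈ L.erase x, (c x y) ^ 2 -
          ((k : ℝ) + 1) * (ρ x) ^ 2) = ((k : ℝ) + 1 - r) *
            (∑ x ∈ L, ∑ y ∈ L.erase x, (c x y) ^ 2 - ((k : ℝ) + 1) * R2) := by
        rw [← mul_sum, sum_sub_distrib, ← mul_sum, hR2]
      have l2 : ∑ x ∈ L, ((k : ℝ) + 1) * (ρ x * (1 - ρ x)) =
          ((k : ℝ) + 1) * (((k : ℝ) + 2) * N - R2) := by
        rw [← mul_sum]
        have : ∀ x, ρ x * (1 - ρ x) = ρ x - (ρ x) ^ 2 := by intro x; ring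
        simp only [this, sum_sub_distrib]
        rw [hN, hR2]
      rw [l1, l2] at h
      exact h
    obtain ⟨T, hTd⟩ : ∃ T : ℝ, T = ∑ x ∈ L, ∑ y ∈ L.erase x, (c x y) ^ 2 := ⟨_, rfl⟩
    rw [← hTd] at ihs hTT
    rw [tot, hTT] at low
    have hkr : (r : ℝ) ≤ k := by exact_mod_cast hk
    have hk0 : (0 : ℝ) ≤ k := Nat.cast_nonneg k
    obtain ⟨D, hDd⟩ : ∃ D : ℝ, D = R2 - ((k : ℝ) + 2) * N ^ 2 := ⟨_, rfl⟩
    rw [← hDd] at low hD0
    have hT : ((k : ℝ) + 3) * D ≤ T - ((k : ℝ) + 1) * R2 := by linarith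
    have h5 : ((k : ℝ) + 1 - r) * (((k : ℝ) + 3) * D) ≤
        ((k : ℝ) + 1) * (((k : ℝ) + 2) * (N * (1 - N)) - D) := by
      have h6 := mul_le_mul_of_nonneg_left hT (by linarith : (0 : ℝ) ≤ (k : ℝ) + 1 - r)
      have h7 : ((k : ℝ) + 2) * N - R2 = ((k : ℝ) + 2) * (N * (1 - N)) - D := by
        rw [hDd]; ring
      rw [h7] at ihs
      exact h6.trans ihs
    have h8 : ((k : ℝ) + 1) * (((k : ℝ) + 2 - r) * D) ≤
        ((k : ℝ) + 1) * (((k : ℝ) + 2) * (N * (1 - N))) := by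
      nlinarith [mul_nonneg (by linarith : (0 : ℝ) ≤ (k : ℝ) + 1 - r) hD0]
    have h9 := le_of_mul_le_mul_left h8 (by linarith)
    push_cast
    have g1 : ((k : ℝ) + 1 + 1 - r) * (R2 - ((k : ℝ) + 1 + 1) * N ^ 2) =
        ((k : ℝ) + 2 - r) * D := by rw [hDd]; ring
    have g2 : ((k : ℝ) + 1 + 1) * (N * (1 - N)) = ((k : ℝ) + 2) * (N * (1 - N)) := by ring
    rw [g1, g2]
    exact h9

theorem mean (B : Finset (Finset α)) (r s : ℕ) (hrs : r ≤ s) : ∀ l, s ≤ l →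
    ∀ L : Finset α, L.card = l →
    ∑ K ∈ powersetCard s L, dn B r K = (l.choose s : ℝ) * dn B r L := by
  intro l hl
  induction l, hl using Nat.le_induction with
  | base =>
    intro L hL
    subst hL
    rw [powersetCard_self, sum_singleton, Nat.choose_self]
    simp
  | succ l hl ih =>
    intro L hL
    have h1 := dc L s (by omega) (fun K => dn B r K)
    have h2 : ∑ x ∈ L, ∑ K ∈ powersetCard s (L.erase x), dn B r K =
        (l.choose s : ℝ) * (((l : ℝ) + 1) * dn B r L) := by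
      rw [← avg B r l (by omega) L hL, mul_sum]
      refine sum_congr rfl fun x hx => ?_
      exact ih (L.erase x) (by rw [card_erase_of_mem hx, hL]; omega)
    rw [h2, hL] at h1
    have c3 := ch l s (by omega)
    have c4 : (0 : ℝ) < (l : ℝ) + 1 - s := by
      have : (s : ℝ) ≤ l := by exact_mod_cast hl
      linarith
    push_cast at h1
    have : ((l : ℝ) + 1 - s) * ∑ K ∈ powersetCard s L, dn B r K =
        ((l : ℝ) + 1 - s) * (((l + 1).choose s : ℝ) * dn B r L) := by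
      rw [← h1]
      linear_combination (dn B r L) * c3
    exact mul_left_cancel₀ c4.ne' this

theorem vv (B : Finset (Finset α)) (r s : ℕ) (hrs : r < s) : ∀ l, s ≤ l →
    ∀ L : Finset α, L.card = l →
    ∑ K ∈ powersetCard s L, (dn B r K) ^ 2 ≤ (l.choose s : ℝ) * ((dn B r L) ^ 2 +
      ((l : ℝ) - s) / ((l : ℝ) - r) * (dn B r L * (1 - dn B r L))) := by
  intro l hl
  induction l, hl using Nat.le_induction with
  | base =>
    intro L hL
    subst hL
    rw [powersetCard_self, sum_singleton, Nat.choose_self]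
    simp
  | succ l hl ih =>
    intro L hL
    have h1 := dc L s (by omega) (fun K => (dn B r K) ^ 2)
    have hV := v1 B r l (by omega) L hL
    have hA := avg B r l (by omega) L hL
    have hsr : (r : ℝ) < s := by exact_mod_cast hrs
    have hls : (s : ℝ) ≤ l := by exact_mod_cast hl
    have c3 := ch l s (by omega)
    have h2 : ∑ x ∈ L, ∑ K ∈ powersetCard s (L.erase x), (dn B r K) ^ 2 ≤
        (l.choose s : ℝ) * (∑ x ∈ L, ((dn B r (L.erase x)) ^ 2 +
          ((l : ℝ) - s) / ((l : ℝ) - r) *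
            (dn B r (L.erase x) * (1 - dn B r (L.erase x))))) := by
      rw [mul_sum]
      exact sum_le_sum fun x hx => ih (L.erase x) (by rw [card_erase_of_mem hx, hL]; omega)
    obtain ⟨N, hNd⟩ : ∃ N : ℝ, N = dn B r L := ⟨_, rfl⟩
    obtain ⟨R2, hR2⟩ : ∃ R2 : ℝ, R2 = ∑ x ∈ L, (dn B r (L.erase x)) ^ 2 := ⟨_, rfl⟩
    obtain ⟨θ, hθ⟩ : ∃ θ : ℝ, θ = ((l : ℝ) - s) / ((l : ℝ) - r) := ⟨_, rfl⟩
    rw [← hNd] at hA hV ⊢
    rw [← hR2] at hV
    rw [← hθ] at h2
    have h3 : ∑ x ∈ L, ((dn B r (L.erase x)) ^ 2 + θ *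
        (dn B r (L.erase x) * (1 - dn B r (L.erase x)))) =
          R2 + θ * (((l : ℝ) + 1) * N - R2) := by
      rw [sum_add_distrib, ← mul_sum]
      have : ∀ x, dn B r (L.erase x) * (1 - dn B r (L.erase x)) =
          dn B r (L.erase x) - (dn B r (L.erase x)) ^ 2 := by intro x; ring
      simp only [this, sum_sub_distrib]
      rw [hA, hR2]
    rw [h3, h1, hL] at h2
    push_cast at h2 ⊢
    have hlr : (0 : ℝ) < (l : ℝ) + 1 - r := by linarith
    have hlr2 : (0 : ℝ) < (l : ℝ) - r := by linarith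
    have h4 : R2 ≤ ((l : ℝ) + 1) * (N ^ 2 + N * (1 - N) / ((l : ℝ) + 1 - r)) := by
      have h40 : R2 - ((l : ℝ) + 1) * N ^ 2 ≤ ((l : ℝ) + 1) * (N * (1 - N)) / ((l : ℝ) + 1 - r) := by
        rw [le_div_iff₀ hlr]; linarith
      have e : ((l : ℝ) + 1) * (N ^ 2 + N * (1 - N) / ((l : ℝ) + 1 - r)) =
          ((l : ℝ) + 1) * N ^ 2 + ((l : ℝ) + 1) * (N * (1 - N)) / ((l : ℝ) + 1 - r) := by ring
      linarith
    have hθ1 : θ ≤ 1 := by rw [hθ, div_le_one hlr2]; linarith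
    have h5 : R2 + θ * (((l : ℝ) + 1) * N - R2) ≤ ((l : ℝ) + 1) * (N ^ 2 +
        ((l : ℝ) + 1 - s) / ((l : ℝ) + 1 - r) * (N * (1 - N))) := by
      have h6 : (1 - θ) * R2 ≤ (1 - θ) * (((l : ℝ) + 1) *
          (N ^ 2 + N * (1 - N) / ((l : ℝ) + 1 - r))) :=
        mul_le_mul_of_nonneg_left h4 (by linarith)
      have h7 : (1 - θ) * (((l : ℝ) + 1) * (N ^ 2 + N * (1 - N) / ((l : ℝ) + 1 - r))) +
          θ * (((l : ℝ) + 1) * N) = ((l : ℝ) + 1) * (N ^ 2 +
            ((l : ℝ) + 1 - s) / ((l : ℝ) + 1 - r) * (N * (1 - N))) := by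
        rw [hθ]
        field_simp
        ring
      linarith
    have c4 : (0 : ℝ) < (l : ℝ) + 1 - s := by linarith
    have c5 : (0 : ℝ) ≤ (l.choose s : ℝ) := Nat.cast_nonneg _
    have h8 := h2.trans (mul_le_mul_of_nonneg_left h5 c5)
    refine le_of_mul_le_mul_left (h8.trans (le_of_eq ?_)) c4
    linear_combination (N ^ 2 + ((l : ℝ) + 1 - s) / ((l : ℝ) + 1 - r) * (N * (1 - N))) * c3

end

theorem v : SV := by
  intro n r rp j J hJ hr1 hr2 hr3 B y hy hB
  have hcount : ∀ K : Finset (Fin n), r ≤ K.card →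
      (((powersetCard r K).filter fun I => I ∈ B).card : ℝ) =
        dn B r K * (K.card.choose r : ℝ) := by
    intro K hK
    have c0 : ((K.card.choose r : ℕ) : ℝ) ≠ 0 := by
      exact_mod_cast (Nat.choose_pos hK).ne'
    unfold dn
    rw [div_mul_cancel₀ _ c0, sum_boole]
  have hCj : (0 : ℝ) < (j.choose r : ℝ) := by exact_mod_cast Nat.choose_pos hr3.le
  have hyN : y ≤ dn B r J := by
    rw [hcount J (by omega), hJ] at hB
    exact le_of_mul_le_mul_right hB hCj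
  have hmean := mean B r rp hr1 j hr2 J hJ
  have hsq : ∑ K ∈ powersetCard rp J, (dn B r K) ^ 2 ≤ (j.choose rp : ℝ) * ((dn B r J) ^ 2 +
      ((j : ℝ) - rp) / ((j : ℝ) - r) * (dn B r J * (1 - dn B r J))) := by
    rcases hr1.lt_or_eq with h | h
    · exact vv B r rp h j hr2 J hJ
    · subst h
      have e : ∀ K ∈ powersetCard r J, (dn B r K) ^ 2 = dn B r K := fun K hK =>
        sq01 B r K (mem_powersetCard.mp hK).2
      rw [sum_congr rfl e, hmean]
      have : (j : ℝ) - r ≠ 0 := by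
        have : (r : ℝ) < j := by exact_mod_cast hr3
        linarith
      rw [div_self this]
      apply le_of_eq; ring
  obtain ⟨N, hNd⟩ : ∃ N : ℝ, N = dn B r J := ⟨_, rfl⟩
  rw [← hNd] at hyN hmean hsq
  obtain ⟨C, hCd⟩ : ∃ C : ℝ, C = (j.choose rp : ℝ) := ⟨_, rfl⟩
  rw [← hCd] at hmean hsq ⊢
  have hcc : (((powersetCard rp J).card : ℕ) : ℝ) = C := by rw [card_powersetCard, hJ, hCd]
  have hC0 : 0 ≤ C := by rw [hCd]; positivity
  obtain ⟨τ, hτ⟩ : ∃ τ : ℝ, τ = ((j : ℝ) - rp) / ((j : ℝ) - r) := ⟨_, rfl⟩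
  have hjr : (0 : ℝ) < (j : ℝ) - r := by
    have : (r : ℝ) < j := by exact_mod_cast hr3
    linarith
  have hτ0 : 0 ≤ τ := by
    rw [hτ]
    have : (rp : ℝ) ≤ j := by exact_mod_cast hr2
    exact div_nonneg (by linarith) hjr.le
  rw [← hτ] at hsq
  have hvar : ∑ K ∈ powersetCard rp J, (dn B r K - N) ^ 2 ≤ C * (τ * (N * (1 - N))) := by
    have : ∀ K, (dn B r K - N) ^ 2 = (dn B r K) ^ 2 - (2 * N) * dn B r K + N ^ 2 := by
      intro K; ring
    simp only [this, sum_add_distrib, sum_sub_distrib, ← mul_sum, sum_const, nsmul_eq_mul]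
    rw [hmean, hcc]
    nlinarith
  set P := (powersetCard rp J).filter fun K =>
    (((powersetCard r K).filter fun I => I ∈ B).card : ℝ) < y / 2 * (rp.choose r : ℝ) with hP
  have hN0 : 0 < N := lt_of_lt_of_le hy hyN
  have hlow : (P.card : ℝ) * (N ^ 2 / 4) ≤ ∑ K ∈ powersetCard rp J, (dn B r K - N) ^ 2 := by
    calc (P.card : ℝ) * (N ^ 2 / 4) = ∑ K ∈ P, N ^ 2 / 4 := by
          rw [sum_const, nsmul_eq_mul]
      _ ≤ ∑ K ∈ P, (dn B r K - N) ^ 2 := by
          refine sum_le_sum fun K hK => ?_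
          rw [hP, mem_filter, mem_powersetCard] at hK
          obtain ⟨⟨_, h2⟩, h3⟩ := hK
          rw [hcount K (by omega), h2] at h3
          have c1 : (0 : ℝ) < (rp.choose r : ℝ) := by exact_mod_cast Nat.choose_pos hr1
          have h4 : dn B r K < y / 2 := lt_of_mul_lt_mul_right h3 c1.le
          nlinarith
      _ ≤ ∑ K ∈ powersetCard rp J, (dn B r K - N) ^ 2 :=
          sum_le_sum_of_subset_of_nonneg (filter_subset _ _) fun _ _ _ => sq_nonneg _
  have h10 : (P.card : ℝ) * (N ^ 2 / 4) ≤ C * τ * N := by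
    have h11 : C * (τ * (N * (1 - N))) ≤ C * τ * N := by
      have : 0 ≤ C * τ * N ^ 2 := by positivity
      nlinarith
    linarith
  have h12 : (P.card : ℝ) * N ≤ 4 * (C * τ) := by
    have h13 : N * ((P.card : ℝ) * N) ≤ N * (4 * (C * τ)) := by nlinarith
    exact le_of_mul_le_mul_left h13 hN0
  have h14 : (P.card : ℝ) * y ≤ 4 * (C * τ) :=
    (mul_le_mul_of_nonneg_left hyN (Nat.cast_nonneg _)).trans h12
  have h15 : (P.card : ℝ) ≤ 4 * (C * τ) / y := by rw [le_div_iff₀ hy]; exact h14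
  have h16 : 4 * ((j : ℝ) - rp) / (((j : ℝ) - r) * y) * C = 4 * (C * τ) / y := by
    rw [hτ]; field_simp
  rw [h16]
  exact h15

end Pool.Agent.R341.SG.VV
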